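import Mathlib

/-!
# Project KS: germs of homeomorphisms of the Euclidean space extend (Kister)
-/

set_option autoImplicit false

open Set Filter Topology Metric Function

noncomputable section

namespace Pool.Agent.L7h32.KS

section rad

variable {V : Type} [NormedAddCommGroup V] [NormedSpace ℝ V]

/-- the radial map with profile `φ` -/
def rad (φ : ℝ → ℝ) (z : V) : V := (φ ‖z‖ / ‖z‖) • z

theorem rad_zero (φ : ℝ → ℝ) : rad φ (0 : V) = 0 := by
  rw [rad, smul_zero]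

theorem norm_rad {φ : ℝ → ℝ} (hφ : StrictMono φ) (h0 : φ 0 = 0) (z : V) :
    ‖rad φ z‖ = φ ‖z‖ := by
  by_cases hz : z = 0
  · rw [hz, rad_zero, norm_zero, h0]
  · have h1 := norm_pos_iff.2 hz
    have h2 : 0 < φ ‖z‖ := by
      rw [← h0]
      exact hφ h1
    rw [rad, norm_smul, Real.norm_of_nonneg (by positivity)]
    field_simp

theorem rad_cont {φ : ℝ → ℝ} (hc : Continuous φ) (hφ : StrictMono φ) (h0 : φ 0 = 0) :
    Continuous (rad φ : V → V) := by
  rw [continuous_iff_continuousAt]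
  intro z
  by_cases hz : z = 0
  · subst hz
    unfold ContinuousAt
    rw [rad_zero, tendsto_zero_iff_norm_tendsto_zero]
    have h1 : Tendsto (fun z : V => φ ‖z‖) (𝓝 0) (𝓝 (φ ‖(0 : V)‖)) :=
      (hc.comp continuous_norm).continuousAt
    rw [norm_zero, h0] at h1
    refine h1.congr fun z => ?_
    exact (norm_rad hφ h0 z).symm
  · have h1 : ContinuousAt (fun z : V => ‖z‖) z := continuous_norm.continuousAt
    have h2 : ContinuousAt (fun z : V => φ ‖z‖) z := (hc.comp continuous_norm).continuousAt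
    exact (h2.div h1 (norm_ne_zero_iff.2 hz)).smul continuousAt_id

/-- the radial homeomorphism -/
def radH (φ : ℝ ≃o ℝ) (h0 : φ 0 = 0) : V ≃ₜ V where
  toFun := rad φ
  invFun := rad φ.symm
  left_inv := fun z => by
    have h0' : φ.symm 0 = 0 := by rw [← h0, OrderIso.symm_apply_apply, h0]
    by_cases hz : z = 0
    · rw [hz, rad_zero, rad_zero]
    · have h1 := norm_pos_iff.2 hz
      have h2 : 0 < φ ‖z‖ := by
        rw [← h0]
        exact φ.strictMono h1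
      show (φ.symm ‖rad φ z‖ / ‖rad φ z‖) • rad φ z = z
      rw [norm_rad φ.strictMono h0, OrderIso.symm_apply_apply, rad, smul_smul]
      have : ‖z‖ / φ ‖z‖ * (φ ‖z‖ / ‖z‖) = 1 := by field_simp
      rw [this, one_smul]
  right_inv := fun z => by
    have h0' : φ.symm 0 = 0 := by rw [← h0, OrderIso.symm_apply_apply, h0]
    by_cases hz : z = 0
    · rw [hz, rad_zero, rad_zero]
    · have h1 := norm_pos_iff.2 hz
      have h2 : 0 < φ.symm ‖z‖ := by
        rw [← h0']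
        exact φ.symm.strictMono h1
      show (φ ‖rad φ.symm z‖ / ‖rad φ.symm z‖) • rad φ.symm z = z
      rw [norm_rad φ.symm.strictMono h0', OrderIso.apply_symm_apply, rad, smul_smul]
      have : ‖z‖ / φ.symm ‖z‖ * (φ.symm ‖z‖ / ‖z‖) = 1 := by field_simp
      rw [this, one_smul]
  continuous_toFun := rad_cont φ.continuous φ.strictMono h0
  continuous_invFun := rad_cont φ.symm.continuous φ.symm.strictMono
    (by rw [← h0, OrderIso.symm_apply_apply, h0])

theorem radH_apply (φ : ℝ ≃o ℝ) (h0 : φ 0 = 0) (z : V) : radH φ h0 z = rad φ z := rfl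

theorem rad_fix {φ : ℝ → ℝ} {z : V} (h : φ ‖z‖ = ‖z‖) : rad φ z = z := by
  by_cases hz : z = 0
  · rw [hz, rad_zero]
  · rw [rad, h, div_self (norm_ne_zero_iff.2 hz), one_smul]

/-- an order isomorphism from a strictly increasing continuous function which is the identity on
the negative numbers and at least `t` for large `t` -/
theorem exists_iso {φ : ℝ → ℝ} (hm : StrictMono φ) (hc : Continuous φ) (hn : ∀ t ≤ 0, φ t = t)
    {b : ℝ} (hb : ∀ t, b ≤ t → t ≤ φ t) : ∃ ψ : ℝ ≃o ℝ, (∀ t, ψ t = φ t) ∧ ψ 0 = 0 := by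
  have hs : Surjective φ := by
    refine hc.surjective ?_ ?_
    · exact tendsto_atTop_mono' _ (eventually_atTop.2 ⟨b, hb⟩) tendsto_id
    · refine tendsto_id.congr' ?_
      exact eventually_atBot.2 ⟨0, fun t ht => (hn t ht).symm⟩
  exact ⟨hm.orderIsoOfSurjective φ hs, fun t => rfl, hn 0 le_rfl⟩

/-- compression: a homeomorphism with support in the ball of radius `b` which maps the ball of
radius `a` into the ball of radius `η` -/
theorem exists_compress {a b η : ℝ} (ha : 0 < a) (hab : a < b) (hη : 0 < η) :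
    ∃ θ : V ≃ₜ V, (∀ z, b ≤ ‖z‖ → θ z = z) ∧ (∀ z, ‖z‖ ≤ a → ‖θ z‖ ≤ η) ∧
      ∀ z, ‖z‖ ≤ b → ‖θ z‖ ≤ b := by
  obtain ⟨δ, hδ, hδ1, hδa⟩ : ∃ δ : ℝ, 0 < δ ∧ δ ≤ 1 ∧ δ * a ≤ η :=
    ⟨min 1 (η / a), lt_min one_pos (by positivity), min_le_left _ _, by
      calc min 1 (η / a) * a ≤ (η / a) * a := by gcongr; exact min_le_right _ _
        _ = η := by field_simp⟩
  have hba : 0 < b - a := by linarith
  have hb : 0 < b := ha.trans hab
  obtain ⟨φ, hφ⟩ : ∃ φ : ℝ → ℝ, φ = fun t => min t (max (δ * t) (b + b / (b - a) * (t - b))) :=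
    ⟨_, rfl⟩
  have hφt : ∀ t, φ t = min t (max (δ * t) (b + b / (b - a) * (t - b))) := fun t => by rw [hφ]
  have hs : 1 ≤ b / (b - a) := by
    rw [le_div_iff₀ hba]
    linarith
  have hs0 : 0 < b / (b - a) := by positivity
  have hm : StrictMono φ := by
    intro s t hst
    rw [hφt, hφt]
    refine min_lt_min hst (max_lt_max ?_ ?_)
    · exact mul_lt_mul_of_pos_left hst hδ
    · have := mul_lt_mul_of_pos_left (sub_lt_sub_right hst b) hs0
      linarith
  have hc : Continuous φ := by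
    rw [hφ]
    fun_prop
  have hn : ∀ t ≤ 0, φ t = t := by
    intro t ht
    rw [hφt, min_eq_left]
    refine le_max_of_le_left ?_
    nlinarith
  have hl : ∀ t, b ≤ t → φ t = t := by
    intro t ht
    rw [hφt, min_eq_left]
    refine le_max_of_le_right ?_
    nlinarith
  obtain ⟨ψ, hψ, hψ0⟩ := exists_iso hm hc hn (b := b) (fun t ht => (hl t ht).ge)
  have hfun : (ψ : ℝ → ℝ) = φ := funext hψ
  refine ⟨radH ψ hψ0, fun z hz => ?_, fun z hz => ?_, fun z hz => ?_⟩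
  · rw [radH_apply]
    refine rad_fix ?_
    rw [hψ, hl _ hz]
  · rw [radH_apply, norm_rad ψ.strictMono hψ0, hψ]
    refine (hm.monotone hz).trans ?_
    rw [hφt]
    refine (min_le_right _ _).trans (max_le hδa ?_)
    have : b / (b - a) * (a - b) = -b := by
      field_simp
      ring
    rw [this]
    linarith
  · rw [radH_apply, norm_rad ψ.strictMono hψ0, hψ]
    refine (hm.monotone hz).trans ?_
    rw [hl b le_rfl]

/-- expansion: a homeomorphism which fixes the ball of radius `δ` and such that the image of the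
ball of radius `2 δ` contains the ball of radius `r` -/
theorem exists_expand {δ r : ℝ} (hδ : 0 < δ) :
    ∃ Λ : V ≃ₜ V, (∀ z, ‖z‖ ≤ δ → Λ z = z) ∧ ∀ w, ‖w‖ ≤ r → ∃ z, ‖z‖ ≤ 2 * δ ∧ Λ z = w := by
  obtain ⟨s, hs1, hs⟩ : ∃ s : ℝ, 1 ≤ s ∧ r ≤ δ + s * δ :=
    ⟨max 1 (r / δ), le_max_left _ _, by
      have : r / δ * δ ≤ max 1 (r / δ) * δ := by gcongr; exact le_max_right _ _
      rw [div_mul_cancel₀ _ hδ.ne'] at this
      linarith⟩
  obtain ⟨φ, hφ⟩ : ∃ φ : ℝ → ℝ, φ = fun t => max t (δ + s * (t - δ)) := ⟨_, rfl⟩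
  have hφt : ∀ t, φ t = max t (δ + s * (t - δ)) := fun t => by rw [hφ]
  have hm : StrictMono φ := by
    intro u t hst
    rw [hφt, hφt]
    refine max_lt_max hst ?_
    have := mul_lt_mul_of_pos_left (sub_lt_sub_right hst δ) (by linarith : 0 < s)
    linarith
  have hc : Continuous φ := by
    rw [hφ]
    fun_prop
  have hsm : ∀ t ≤ δ, φ t = t := by
    intro t ht
    rw [hφt, max_eq_left]
    nlinarith
  obtain ⟨ψ, hψ, hψ0⟩ := exists_iso hm hc (fun t ht => hsm t (ht.trans hδ.le)) (b := 0)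
    (fun t _ => by rw [hφt]; exact le_max_left _ _)
  refine ⟨radH ψ hψ0, fun z hz => ?_, fun w hw => ?_⟩
  · rw [radH_apply]
    refine rad_fix ?_
    rw [hψ, hsm _ hz]
  · obtain ⟨z, hz⟩ := (radH (V := V) ψ hψ0).surjective w
    refine ⟨z, ?_, hz⟩
    by_contra hcon
    push Not at hcon
    have h1 : ‖w‖ = φ ‖z‖ := by
      rw [← hz, radH_apply, norm_rad ψ.strictMono hψ0, hψ]
    have h2 := hm hcon
    rw [← h1, hφt] at h2
    have h3 := lt_of_le_of_lt (le_max_right _ _) h2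
    linarith

end rad

section kister

variable {V : Type} [NormedAddCommGroup V] [NormedSpace ℝ V] [FiniteDimensional ℝ V]

theorem glue_cont {X : Type} [TopologicalSpace X] [T2Space X] {h : V → X}
    (hh : IsOpenEmbedding h) {b : ℝ} {θ : V → V} (hc : Continuous θ)
    (hθ : ∀ z, b ≤ ‖z‖ → θ z = z) {F : X → X} (hF1 : ∀ z, F (h z) = h (θ z))
    (hF2 : ∀ x, x ∉ range h → F x = x) : Continuous F := by
  have : ProperSpace V := FiniteDimensional.proper_real V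
  rw [continuous_iff_continuousAt]
  intro x
  by_cases hx : x ∈ range h
  · obtain ⟨z, rfl⟩ := hx
    rw [← hh.continuousAt_iff]
    have h1 : F ∘ h = fun z => h (θ z) := funext hF1
    rw [h1]
    exact (hh.continuous.comp hc).continuousAt
  · have h1 : IsClosed (h '' closedBall 0 b) :=
      ((isCompact_closedBall (0 : V) b).image hh.continuous).isClosed
    have h2 : x ∈ (h '' closedBall 0 b)ᶜ := by
      rintro ⟨z, -, rfl⟩
      exact hx ⟨z, rfl⟩
    have h3 : (fun y => y) =ᶠ[𝓝 x] F := by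
      filter_upwards [h1.isOpen_compl.mem_nhds h2] with y hy
      by_cases hy' : y ∈ range h
      · obtain ⟨z, rfl⟩ := hy'
        rw [hF1, hθ]
        by_contra hcon
        exact hy ⟨z, mem_closedBall_zero_iff.2 (not_le.1 hcon).le, rfl⟩
      · exact (hF2 y hy').symm
    exact continuousAt_id.congr h3

/-- homeomorphisms with bounded support act on manifolds -/
theorem exists_glue {X : Type} [TopologicalSpace X] [T2Space X] {h : V → X}
    (hh : IsOpenEmbedding h) {b : ℝ} (θ : V ≃ₜ V) (hθ : ∀ z, b ≤ ‖z‖ → θ z = z) :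
    ∃ Ψ : X ≃ₜ X, (∀ z, Ψ (h z) = h (θ z)) ∧ ∀ x, x ∉ range h → Ψ x = x := by
  classical
  obtain ⟨p, hp⟩ : ∃ p : X → V, ∀ z, p (h z) = z := ⟨invFun h, leftInverse_invFun hh.injective⟩
  have key : ∀ θ' : V → V, ∃ F : X → X, (∀ z, F (h z) = h (θ' z)) ∧ ∀ x, x ∉ range h → F x = x := by
    intro θ'
    refine ⟨fun x => if x ∈ range h then h (θ' (p x)) else x, fun z => ?_, fun x hx => if_neg hx⟩
    simp only
    rw [if_pos ⟨z, rfl⟩, hp]
  obtain ⟨F, hF1, hF2⟩ := key θ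
  obtain ⟨F', hF1', hF2'⟩ := key θ.symm
  have hθ' : ∀ z, b ≤ ‖z‖ → θ.symm z = z := fun z hz => by
    rw [θ.symm_apply_eq, hθ z hz]
  refine ⟨⟨⟨F, F', fun x => ?_, fun x => ?_⟩, glue_cont hh θ.continuous hθ hF1 hF2,
    glue_cont hh θ.symm.continuous hθ' hF1' hF2'⟩, hF1, hF2⟩
  · by_cases hx : x ∈ range h
    · obtain ⟨z, rfl⟩ := hx
      rw [hF1, hF1', θ.symm_apply_apply]
    · rw [hF2 x hx, hF2' x hx]
  · by_cases hx : x ∈ range h
    · obtain ⟨z, rfl⟩ := hx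
      rw [hF1', hF1, θ.apply_symm_apply]
    · rw [hF2' x hx, hF2 x hx]

/-- the step of the construction -/
theorem step {h : V → V} (hh : IsOpenEmbedding h) (a r : ℝ) (ha : 0 < a) :
    ∃ h' : V → V, IsOpenEmbedding h' ∧ (∀ z, ‖z‖ ≤ a → h' z = h z) ∧
      ∀ w, ‖w‖ ≤ r → ∃ z, ‖z‖ ≤ a + 1 ∧ h' z = w := by
  have : ProperSpace V := FiniteDimensional.proper_real V
  obtain ⟨δ, hδ, hδb⟩ : ∃ δ : ℝ, 0 < δ ∧ closedBall (h 0) (2 * δ) ⊆ h '' ball 0 (a + 1) := by
    have h1 : h '' ball 0 (a + 1) ∈ 𝓝 (h 0) :=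
      (hh.isOpenMap _ isOpen_ball).mem_nhds ⟨0, mem_ball_self (by linarith), rfl⟩
    obtain ⟨ε, hε, h2⟩ := Metric.mem_nhds_iff.1 h1
    exact ⟨ε / 4, by positivity, (closedBall_subset_ball (by linarith)).trans h2⟩
  obtain ⟨η, hη, hηδ⟩ : ∃ η : ℝ, 0 < η ∧ ∀ z, ‖z‖ ≤ η → ‖h z - h 0‖ ≤ δ := by
    have h1 : ContinuousAt h 0 := hh.continuous.continuousAt
    obtain ⟨η, hη, h2⟩ := Metric.continuousAt_iff.1 h1 δ hδ
    refine ⟨η / 2, by positivity, fun z hz => ?_⟩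
    have := h2 (show dist z 0 < η by rw [dist_zero_right]; linarith)
    rw [dist_eq_norm] at this
    exact this.le
  obtain ⟨θ, t1, t2, t3⟩ := exists_compress (V := V) ha (show a < a + 1 by linarith) hη
  obtain ⟨Ψ, hΨ1, hΨ2⟩ := exists_glue hh θ t1
  obtain ⟨r', hr'r, hr'⟩ : ∃ r' : ℝ, r + ‖h 0‖ ≤ r' ∧
      ∀ z, ‖z‖ ≤ a + 1 → ‖h z - h 0‖ ≤ r' := by
    have h1 : IsCompact (h '' closedBall 0 (a + 1)) :=
      (isCompact_closedBall (0 : V) (a + 1)).image hh.continuous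
    obtain ⟨C, hC⟩ := h1.isBounded.subset_closedBall (h 0)
    refine ⟨max (r + ‖h 0‖) C, le_max_left _ _, fun z hz => ?_⟩
    have h2 := hC ⟨z, mem_closedBall_zero_iff.2 hz, rfl⟩
    rw [mem_closedBall, dist_eq_norm] at h2
    exact h2.trans (le_max_right _ _)
  obtain ⟨Λ, l1, l2⟩ := exists_expand (V := V) (r := r') hδ
  obtain ⟨Λp, hΛp⟩ : ∃ Λp : V ≃ₜ V, ∀ z, Λp z = Λ (z - h 0) + h 0 :=
    ⟨(Homeomorph.addRight (-(h 0))).trans (Λ.trans (Homeomorph.addRight (h 0))), fun z => by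
      show Λ (z + -(h 0)) + h 0 = _
      rw [sub_eq_add_neg]⟩
  have hΨo : ∀ z, a + 1 ≤ ‖z‖ → Ψ (h z) = h z := fun z hz => by rw [hΨ1, t1 z hz]
  refine ⟨fun z => Ψ.symm (Λp (Ψ (h z))), ?_, fun z hz => ?_, fun w hw => ?_⟩
  · exact Ψ.symm.isOpenEmbedding.comp (Λp.isOpenEmbedding.comp (Ψ.isOpenEmbedding.comp hh))
  · show Ψ.symm (Λp (Ψ (h z))) = h z
    have h1 : Λp (Ψ (h z)) = Ψ (h z) := by
      rw [hΛp, l1 _ (by
        rw [hΨ1]
        exact hηδ _ (t2 z hz)), sub_add_cancel]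
    rw [h1, Ψ.symm_apply_apply]
  · have hw' : ‖Ψ w - h 0‖ ≤ r' := by
      by_cases hwr : w ∈ h '' closedBall 0 (a + 1)
      · obtain ⟨z, hz, rfl⟩ := hwr
        rw [hΨ1]
        exact hr' _ (t3 z (mem_closedBall_zero_iff.1 hz))
      · have h1 : Ψ w = w := by
          by_cases hwr' : w ∈ range h
          · obtain ⟨z, rfl⟩ := hwr'
            refine hΨo z ?_
            by_contra hcon
            exact hwr ⟨z, mem_closedBall_zero_iff.2 (not_le.1 hcon).le, rfl⟩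
          · exact hΨ2 w hwr'
        rw [h1]
        have := norm_sub_le w (h 0)
        linarith
    obtain ⟨u, hu, huw⟩ := l2 _ hw'
    obtain ⟨z₁, hz₁, hz₁u⟩ := hδb (show h 0 + u ∈ closedBall (h 0) (2 * δ) by
      rw [mem_closedBall, dist_eq_norm, add_sub_cancel_left]
      exact hu)
    have hz₁' : ‖z₁‖ < a + 1 := mem_ball_zero_iff.1 hz₁
    refine ⟨θ.symm z₁, ?_, ?_⟩
    · by_contra hcon
      push Not at hcon
      have h2 := t1 _ hcon.le
      rw [θ.apply_symm_apply] at h2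
      rw [← h2] at hcon
      linarith
    · show Ψ.symm (Λp (Ψ (h (θ.symm z₁)))) = w
      rw [hΨ1, θ.apply_symm_apply, hz₁u, hΛp, add_sub_cancel_left, huw, sub_add_cancel,
        Ψ.symm_apply_apply]

/-- an open embedding of the Euclidean space in itself agrees with a homeomorphism on the unit
ball -/
theorem kister {f : V → V} (hf : IsOpenEmbedding f) :
    ∃ F : V ≃ₜ V, ∀ z, ‖z‖ ≤ 1 → F z = f z := by
  have hex : ∀ (k : ℕ) (h : {h : V → V // IsOpenEmbedding h}),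
      ∃ h' : {h : V → V // IsOpenEmbedding h}, (∀ z, ‖z‖ ≤ (k : ℝ) + 1 → h'.1 z = h.1 z) ∧
        ∀ w, ‖w‖ ≤ (k : ℝ) + 1 → ∃ z, ‖z‖ ≤ (k : ℝ) + 1 + 1 ∧ h'.1 z = w := by
    intro k h
    obtain ⟨h', h1, h2, h3⟩ := step h.2 ((k : ℝ) + 1) ((k : ℝ) + 1) (by positivity)
    exact ⟨⟨h', h1⟩, h2, h3⟩
  choose nx nx1 nx2 using hex
  obtain ⟨q, hq0, hqs⟩ : ∃ q : ℕ → {h : V → V // IsOpenEmbedding h}, q 0 = ⟨f, hf⟩ ∧
      ∀ k, q (k + 1) = nx k (q k) :=
    ⟨fun k => Nat.rec ⟨f, hf⟩ (fun k h => nx k h) k, rfl, fun k => rfl⟩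
  have hq1 : ∀ (k : ℕ) (z : V), ‖z‖ ≤ (k : ℝ) + 1 → (q (k + 1)).1 z = (q k).1 z := fun k z hz => by
    rw [hqs]
    exact nx1 k (q k) z hz
  have hq2 : ∀ (k : ℕ) (w : V), ‖w‖ ≤ (k : ℝ) + 1 →
      ∃ z, ‖z‖ ≤ (k : ℝ) + 1 + 1 ∧ (q (k + 1)).1 z = w := fun k w hw => by
    rw [hqs]
    exact nx2 k (q k) w hw
  have hst : ∀ k j : ℕ, ∀ z, ‖z‖ ≤ (k : ℝ) + 1 → (q (k + j)).1 z = (q k).1 z := by
    intro k j
    induction j with
    | zero => exact fun z _ => rfl
    | succ j ih =>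
      intro z hz
      rw [← add_assoc, hq1 (k + j) z (by push_cast; linarith [(Nat.cast_nonneg j : (0 : ℝ) ≤ j)]),
        ih z hz]
  obtain ⟨F, hF⟩ : ∃ F : V → V, F = fun z => (q ⌈‖z‖⌉₊).1 z := ⟨_, rfl⟩
  have hFk : ∀ (k : ℕ) (z : V), ‖z‖ ≤ (k : ℝ) + 1 → F z = (q k).1 z := by
    intro k z hz
    have h1 : ‖z‖ ≤ (⌈‖z‖⌉₊ : ℝ) + 1 := (Nat.le_ceil _).trans (by linarith)
    rw [hF]
    show (q ⌈‖z‖⌉₊).1 z = (q k).1 z
    rw [← hst k ⌈‖z‖⌉₊ z hz, ← hst ⌈‖z‖⌉₊ k z h1, add_comm]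
  have hFe : ∀ (k : ℕ) (z : V), ‖z‖ < (k : ℝ) + 1 → (q k).1 =ᶠ[𝓝 z] F := by
    intro k z hz
    filter_upwards [continuous_norm.continuousAt.eventually_lt continuousAt_const hz] with y hy
    exact (hFk k y hy.le).symm
  have hbig : ∀ z : V, ‖z‖ < (⌈‖z‖⌉₊ : ℝ) + 1 := fun z =>
    lt_of_le_of_lt (Nat.le_ceil _) (by linarith)
  have hFc : Continuous F := by
    rw [continuous_iff_continuousAt]
    intro z
    exact ((q ⌈‖z‖⌉₊).2.continuous.continuousAt).congr (hFe _ z (hbig z))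
  have hFi : Injective F := by
    intro x y hxy
    obtain ⟨k, hk⟩ := exists_nat_ge (max ‖x‖ ‖y‖)
    rw [hFk k x (by linarith [le_max_left ‖x‖ ‖y‖]), hFk k y (by linarith [le_max_right ‖x‖ ‖y‖])] at hxy
    exact (q k).2.injective hxy
  have hFs : Surjective F := by
    intro w
    obtain ⟨k, hk⟩ := exists_nat_ge ‖w‖
    obtain ⟨z, hz, hzw⟩ := hq2 k w (by linarith)
    refine ⟨z, ?_⟩
    rw [hFk (k + 1) z (by push_cast; exact hz)]
    exact hzw
  have hFo : IsOpenMap F := by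
    rw [isOpenMap_iff_nhds_le]
    intro z
    have h1 : map (q ⌈‖z‖⌉₊).1 (𝓝 z) = map F (𝓝 z) := Filter.map_congr (hFe _ z (hbig z))
    have h2 := (isOpenMap_iff_nhds_le.1 (q ⌈‖z‖⌉₊).2.isOpenMap) z
    rw [h1] at h2
    rwa [hFk ⌈‖z‖⌉₊ z (hbig z).le]
  refine ⟨(Equiv.ofBijective F ⟨hFi, hFs⟩).toHomeomorphOfContinuousOpen hFc hFo, fun z hz => ?_⟩
  show F z = f z
  rw [hFk 0 z (by simpa using hz), hq0]

end kister

end Pool.Agent.L7h32.KS
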