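import Pool.Agent.N550.KH.End
import Pool.Agent.L7h32.KS.Kis

/-!
# Project KS: topological ends: a germ of a homeomorphism at infinity extends

Adaptation of `Pool/Agent/N550/KH/End.lean` to homeomorphisms.
-/

set_option autoImplicit false

open Set Filter Topology Metric Function
open scoped Manifold ContDiff

noncomputable section

namespace Pool.Agent.L7h32.KS

open Pool.Agent.Y522 Pool.Agent.N550.KH Pool.Agent.N550.KH.End Pool.Agent.N550.SH.Moeb

variable {n : ℕ}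

theorem map_nhds {M N : Type} [TopologicalSpace M] [ChartedSpace (E n) M] [TopologicalSpace N]
    [ChartedSpace (E n) N] {f : M → N} {x : M} (hf : LD n f x) : map f (𝓝 x) = 𝓝 (f x) := by
  refine le_antisymm hf.continuousAt ?_
  intro s hs
  rw [mem_map] at hs
  exact mem_of_superset (hf.image_mem_nhds hs) (image_preimage_subset f s)

theorem openEmb_of {X Y : Type} [TopologicalSpace X] [TopologicalSpace Y] {f : X → Y}
    (hi : Injective f) (hm : ∀ x, map f (𝓝 x) = 𝓝 (f x)) : IsOpenEmbedding f := by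
  refine IsOpenEmbedding.of_continuous_injective_isOpenMap ?_ hi ?_
  · rw [continuous_iff_continuousAt]
    exact fun x => (hm x).le
  · rw [isOpenMap_iff_nhds_le]
    exact fun x => (hm x).ge

theorem jb_emb {ρ : ℝ} (hρ : 0 < ρ) : IsOpenEmbedding (jb ρ : E n → E n) :=
  openEmb_of (jb_inj ρ hρ) fun z => map_nhds (jb_LD ρ hρ z)

theorem end_top (e : E n → E n) (R : ℝ) (hinj : InjOn e {z | R < ‖z‖})
    (hmap : ∀ z, R < ‖z‖ → map e (𝓝 z) = 𝓝 (e z))
    (hprop : Tendsto e (cocompact (E n)) (cocompact (E n)))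
    (hsurj : ∀ R₁ : ℝ, ∃ A : ℝ, ∀ w : E n, A < ‖w‖ → ∃ z, R₁ < ‖z‖ ∧ e z = w) :
    ∃ G : E n ≃ₜ E n, ∃ A : ℝ, ∀ z, A < ‖z‖ → G z = e z := by
  obtain ⟨R₀, hR₀R, hR₀1, hR₀e⟩ : ∃ R₀ : ℝ, R ≤ R₀ ∧ 1 ≤ R₀ ∧ ∀ y, R₀ < ‖y‖ → 1 < ‖e y‖ := by
    have h1 : Tendsto (fun y => ‖e y‖) (Bornology.cobounded (E n)) atTop := by
      refine tendsto_norm_cobounded_atTop.comp ?_
      rw [Metric.cobounded_eq_cocompact]
      exact hprop
    have h2 : ∀ᶠ y in Bornology.cobounded (E n), 1 < ‖e y‖ := h1.eventually (eventually_gt_atTop 1)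
    obtain ⟨r, -, hr⟩ := (Metric.hasBasis_cobounded_compl_closedBall (0 : E n)).eventually_iff.1 h2
    refine ⟨max (max R 1) r, (le_max_left _ _).trans (le_max_left _ _),
      (le_max_right _ _).trans (le_max_left _ _), fun y hy => hr ?_⟩
    have : r < ‖y‖ := lt_of_le_of_lt (le_max_right _ _) hy
    simpa using this
  have hR₀ : 0 < R₀ := by linarith
  obtain ⟨ρ, hρd⟩ : ∃ ρ, ρ = R₀⁻¹ := ⟨_, rfl⟩
  have hρ : 0 < ρ := by rw [hρd]; exact inv_pos.2 hR₀
  have hbig : ∀ z : E n, z ≠ 0 → ‖z‖ < ρ → R₀ < ‖Iv z‖ := by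
    intro z hz h
    have h0 := norm_pos_iff.2 hz
    rw [hρd] at h
    rw [norm_Iv, ← inv_inv R₀]
    exact inv_strictAnti₀ h0 h
  obtain ⟨e', he'0, he'z⟩ : ∃ e' : E n → E n, e' 0 = 0 ∧ ∀ z, z ≠ 0 → e' z = Iv (e (Iv z)) :=
    ⟨fun z => if z = 0 then 0 else Iv (e (Iv z)), if_pos rfl, fun z hz => if_neg hz⟩
  have hene : ∀ z : E n, z ≠ 0 → ‖z‖ < ρ → e (Iv z) ≠ 0 := by
    intro z hz h h0
    have := hR₀e _ (hbig z hz h)
    rw [h0, norm_zero] at this
    linarith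
  have he'ne : ∀ z : E n, z ≠ 0 → ‖z‖ < ρ → e' z ≠ 0 := fun z hz h => by
    rw [he'z z hz]; exact Iv_ne (hene z hz h)
  have he'inj : InjOn e' (ball 0 ρ) := by
    intro x hx y hy hxy
    rw [mem_ball_zero_iff] at hx hy
    by_cases hx0 : x = 0
    · by_cases hy0 : y = 0
      · rw [hx0, hy0]
      · rw [hx0, he'0] at hxy
        exact absurd hxy.symm (he'ne y hy0 hy)
    · by_cases hy0 : y = 0
      · rw [hy0, he'0] at hxy
        exact absurd hxy (he'ne x hx0 hx)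
      · rw [he'z x hx0, he'z y hy0] at hxy
        have h1 : e (Iv x) = e (Iv y) := by
          rw [← Iv_Iv' (e (Iv x)), hxy, Iv_Iv']
        have h2 : Iv x = Iv y := hinj (lt_of_le_of_lt hR₀R (hbig x hx0 hx))
          (lt_of_le_of_lt hR₀R (hbig y hy0 hy)) h1
        rw [← Iv_Iv' x, h2, Iv_Iv']
  have he'map : ∀ z : E n, z ≠ 0 → ‖z‖ < ρ → map e' (𝓝 z) = 𝓝 (e' z) := by
    intro z hz h
    have h1 : map e' (𝓝 z) = map (fun z => Iv (e (Iv z))) (𝓝 z) := by
      refine Filter.map_congr ?_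
      filter_upwards [isOpen_ne.mem_nhds hz] with y hy
      exact he'z y hy
    have h2 : map (fun z => Iv (e (Iv z))) (𝓝 z) = map Iv (map e (map Iv (𝓝 z))) := by
      rw [Filter.map_map, Filter.map_map]
      rfl
    rw [h1, h2, map_nhds (LD_Iv hz), hmap _ (lt_of_le_of_lt hR₀R (hbig z hz h)),
      map_nhds (LD_Iv (hene z hz h)), he'z z hz]
  have he'c0 : ContinuousAt e' 0 := by
    rw [continuousAt_iff_punctured_nhds, he'0]
    have h1 : Tendsto (fun z => Iv (e (Iv z))) (𝓝[≠] (0 : E n)) (𝓝 0) := by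
      refine tendsto_Iv_cobounded.comp (Tendsto.comp ?_ tendsto_Iv_zero)
      rw [Metric.cobounded_eq_cocompact]
      exact hprop
    refine h1.congr' ?_
    filter_upwards [self_mem_nhdsWithin] with z hz
    exact (he'z z hz).symm
  have he'open : ∀ r : ℝ, 0 < r → ∃ δ : ℝ, 0 < δ ∧ ball 0 δ ⊆ e' '' ball 0 r := by
    intro r hr
    obtain ⟨A, hA⟩ := hsurj r⁻¹
    refine ⟨(max A 1)⁻¹, inv_pos.2 (lt_of_lt_of_le one_pos (le_max_right _ _)), fun w hw => ?_⟩
    rw [mem_ball_zero_iff] at hw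
    by_cases hw0 : w = 0
    · exact ⟨0, mem_ball_self hr, by rw [he'0, hw0]⟩
    · have h0 := norm_pos_iff.2 hw0
      have h1 : A < ‖Iv w‖ := by
        rw [norm_Iv]
        refine lt_of_le_of_lt (le_max_left A 1) ?_
        rw [← inv_inv (max A 1)]
        exact inv_strictAnti₀ h0 hw
      obtain ⟨y, hy, hyw⟩ := hA _ h1
      have hy0 : y ≠ 0 := by
        intro h
        rw [h, norm_zero] at hy
        exact absurd hy (not_lt.2 (inv_nonneg.2 hr.le))
      refine ⟨Iv y, ?_, ?_⟩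
      · rw [mem_ball_zero_iff, norm_Iv]
        have := inv_strictAnti₀ (inv_pos.2 hr) hy
        rwa [inv_inv] at this
      · rw [he'z _ (Iv_ne hy0), Iv_Iv', hyw, Iv_Iv']
  have he'map0 : map e' (𝓝 0) = 𝓝 (e' 0) := by
    refine le_antisymm he'c0 ?_
    intro s hs
    rw [mem_map] at hs
    obtain ⟨r, hr, hrs⟩ := Metric.mem_nhds_iff.1 hs
    obtain ⟨δ, hδ, hδs⟩ := he'open r hr
    rw [he'0]
    refine mem_of_superset (ball_mem_nhds 0 hδ) ?_
    intro w hw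
    obtain ⟨y, hy, rfl⟩ := hδs hw
    exact hrs hy
  -- the open embedding
  have hfe : IsOpenEmbedding (fun z : E n => e' (jb ρ z)) := by
    refine openEmb_of ?_ ?_
    · intro x y h
      exact jb_inj ρ hρ (he'inj (mem_ball_zero_iff.2 (jb_norm ρ hρ x))
        (mem_ball_zero_iff.2 (jb_norm ρ hρ y)) h)
    · intro z
      have h1 : map (fun z : E n => e' (jb ρ z)) (𝓝 z) = map e' (map (jb ρ) (𝓝 z)) := by
        rw [Filter.map_map]
        rfl
      rw [h1, map_nhds (jb_LD ρ hρ z)]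
      by_cases hz : jb ρ z = 0
      · rw [hz]
        exact he'map0
      · exact he'map _ hz (jb_norm ρ hρ z)
  obtain ⟨F₁, hF₁⟩ := kister hfe
  obtain ⟨g₂, hg₂⟩ := kister (jb_emb (n := n) hρ)
  have hg₂0 : g₂ 0 = 0 := by
    rw [hg₂ 0 (by simp), jb_zero]
  have hg₂s : g₂.symm 0 = 0 := by
    rw [← hg₂0, Homeomorph.symm_apply_apply, hg₂0]
  obtain ⟨F, hF⟩ : ∃ F : E n ≃ₜ E n, ∀ z, F z = F₁ (g₂.symm z) := ⟨g₂.symm.trans F₁, fun z => rfl⟩
  have hFeq : ∀ᶠ z in 𝓝 (0 : E n), F z = e' z := by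
    have h3 : Tendsto g₂.symm (𝓝 0) (𝓝 0) := by
      have := g₂.symm.continuous.tendsto 0
      rwa [hg₂s] at this
    filter_upwards [h3 (ball_mem_nhds (0 : E n) one_pos)] with z hz
    have hz' : ‖g₂.symm z‖ ≤ 1 := (mem_ball_zero_iff.1 hz).le
    rw [hF, hF₁ _ hz', ← hg₂ _ hz', g₂.apply_symm_apply]
  have hF0 : F 0 = 0 := by rw [hFeq.self_of_nhds, he'0]
  refine ⟨conjH F hF0, ?_⟩
  have h1 : ∀ᶠ z in Bornology.cobounded (E n), F (Iv z) = e' (Iv z) :=
    tendsto_Iv_cobounded.eventually hFeq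
  obtain ⟨r, -, hr⟩ := (Metric.hasBasis_cobounded_compl_closedBall (0 : E n)).eventually_iff.1 h1
  refine ⟨max r 0, fun z hz => ?_⟩
  have h2 : r < ‖z‖ := lt_of_le_of_lt (le_max_left _ _) hz
  have h3 : 0 < ‖z‖ := lt_of_le_of_lt (le_max_right _ _) hz
  have h4 := hr (show z ∈ (closedBall (0 : E n) r)ᶜ by simpa using h2)
  show Iv (F (Iv z)) = e z
  rw [h4, he'z _ (Iv_ne (norm_pos_iff.1 h3)), Iv_Iv', Iv_Iv']

end Pool.Agent.L7h32.KS
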