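import Pool.Agent.L7h32.KS.Null

/-!
# Project KS: the 2-handles, exceptional sets with image of two-dimensional measure zero

Adaptation of `Pool/Agent/N550/KH/Two.lean`.
-/

set_option autoImplicit false
set_option linter.unusedSectionVars false

open Set Filter Topology Metric Function MeasureTheory
open scoped Manifold ContDiff

noncomputable section

namespace Pool.Agent.L7h32.KS

open Pool.Agent.Y522 Pool.Agent.N550.KH Pool.Agent.N550.KH.Two

/-- Step 2: the 2-handles, attached to `K`. -/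
def S_TWO2 : Prop :=
  ∀ (a : ℕ) (M N : Type) [TopologicalSpace M] [CompactSpace M] [T2Space M]
    [ChartedSpace (E (2 + 2)) M] [IsManifold (𝓡 (2 + 2)) ∞ M] [TopologicalSpace N]
    [CompactSpace N] [T2Space N] [ChartedSpace (E (2 + 2)) N] [IsManifold (𝓡 (2 + 2)) ∞ N]
    (f : M ≃ₜ N) (h : Fin a → E (2 + 2) → N) (K : Set N),
    Null2 (f '' Bad (2 + 2) f) → (∀ i, Injective (h i)) →
    (∀ i z, LD (2 + 2) (h i) z) → (∀ i z, h i z ∈ K ↔ 1 ≤ ‖up 2 2 z‖) →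
    (∀ i j z w, i ≠ j → h i z ≠ h j w) → (∀ x, f x ∈ K → LD (2 + 2) f x) → IsClosed K →
    ∃ (f' : M ≃ₜ N) (g : M → N),
      (∀ x, f' x ∈ K ∪ ⋃ i, h i '' {z | vp 2 2 z = 0 ∧ ‖up 2 2 z‖ ≤ 1} → LD (2 + 2) g x) ∧
      InjOn g (f' ⁻¹' (K ∪ ⋃ i, h i '' {z | vp 2 2 z = 0 ∧ ‖up 2 2 z‖ ≤ 1})) ∧
      g '' (f' ⁻¹' (K ∪ ⋃ i, h i '' {z | vp 2 2 z = 0 ∧ ‖up 2 2 z‖ ≤ 1})) =
        K ∪ ⋃ i, h i '' {z | vp 2 2 z = 0 ∧ ‖up 2 2 z‖ ≤ 1}

theorem norm_sq_up_vp (z : E (2 + 2)) : ‖z‖ ^ 2 = ‖up 2 2 z‖ ^ 2 + ‖vp 2 2 z‖ ^ 2 := by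
  rw [EuclideanSpace.norm_sq_eq, EuclideanSpace.norm_sq_eq, EuclideanSpace.norm_sq_eq,
    Fin.sum_univ_two, Fin.sum_univ_two, Fin.sum_univ_four]
  have e0 : up 2 2 z 0 = z 0 := rfl
  have e1 : up 2 2 z 1 = z 1 := rfl
  have e2 : vp 2 2 z 0 = z 2 := rfl
  have e3 : vp 2 2 z 1 = z 3 := rfl
  rw [e0, e1, e2, e3]
  ring

theorem box_compact : IsCompact {z : E (2 + 2) | ‖up 2 2 z‖ ≤ 2 ∧ ‖vp 2 2 z‖ ≤ 1} := by
  refine (isCompact_closedBall (0 : E (2 + 2)) 3).of_isClosed_subset ?_ ?_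
  · exact (isClosed_le (up 2 2).continuous.norm continuous_const).inter
      (isClosed_le (vp 2 2).continuous.norm continuous_const)
  · rintro z ⟨h1, h2⟩
    rw [mem_closedBall_zero_iff]
    have h3 := norm_sq_up_vp z
    have h4 := norm_nonneg (up 2 2 z)
    have h5 := norm_nonneg (vp 2 2 z)
    nlinarith [norm_nonneg z]

/-- regular position of one handle -/
theorem one (hVS : S_VS) (hSU : S_SUPP) (hRG : S_REG) {M N : Type}
    [TopologicalSpace M] [CompactSpace M] [ChartedSpace (E (2 + 2)) M]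
    [IsManifold (𝓡 (2 + 2)) ∞ M] [TopologicalSpace N] [T2Space N] [ChartedSpace (E (2 + 2)) N]
    (f : M ≃ₜ N) {H : E (2 + 2) → N} (hi : Injective H) (hl : ∀ z, LD (2 + 2) H z)
    (hN : Null2 (f '' Bad (2 + 2) f)) :
    ∃ κ : N → N, IsDf (2 + 2) κ ∧ (∀ x, x ∉ range H → κ x = x) ∧
      (∀ z, ∃ w, κ (H z) = H w ∧ up 2 2 w = up 2 2 z) ∧ Pr 2 (fun x => κ (f x)) H := by
  have hsc : SecondCountableTopology M :=
    ChartedSpace.secondCountable_of_sigmaCompact (E (2 + 2)) M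
  obtain ⟨ρ, hρ, hκ⟩ := hVS 2 2
  have hSmo : IsOpen {x : M | Sm (2 + 2) f x} := isOpen_setOfPred_eventually_nhds
  obtain ⟨U, hU⟩ : ∃ U : TopologicalSpace.Opens M,
      ∀ x, x ∈ U ↔ (f x ∈ range H ∧ Sm (2 + 2) f x) :=
    ⟨⟨f ⁻¹' range H ∩ {x : M | Sm (2 + 2) f x},
      ((open_range hl).preimage f.continuous).inter hSmo⟩, fun _ => Iff.rfl⟩
  have hsmF : ∀ x, f x ∈ range H → Sm (2 + 2) f x → Sm (2 + 2) (fun y => invFun H (f y)) x := by
    intro x hx hs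
    obtain ⟨z, hz⟩ := hx
    exact Sm.comp_ld hs (hz ▸ ld_inv hi hl z)
  have hvs : ∀ (g : M → E (2 + 2)) (x : M), ContMDiffAt (𝓡 (2 + 2)) (𝓡 (2 + 2)) ∞ g x →
      ContMDiffAt (𝓡 (2 + 2)) (𝓡 2) ∞ (fun y => vp 2 2 (g y)) x := by
    intro g x hg
    exact ContMDiffAt.comp (g := vp 2 2) x (vp 2 2).contDiff.contMDiff.contMDiffAt hg
  -- the projection of the exceptional set
  obtain ⟨B', hB'⟩ : ∃ B' : Set (E (2 + 2)), B' = H ⁻¹' (f '' Bad (2 + 2) f) := ⟨_, rfl⟩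
  have hB'c : IsClosed B' := by
    rw [hB']
    have h1 : IsClosed (Bad (2 + 2) f) := by
      have h2 : Bad (2 + 2) f = {x : M | Sm (2 + 2) f x}ᶜ := rfl
      rw [h2]
      exact hSmo.isClosed_compl
    exact ((h1.isCompact.image f.continuous).isClosed).preimage (cont_of_ld hl)
  have hB'n : Measure.hausdorffMeasure 2 B' = 0 := by
    rw [hB']
    exact hN H hi hl
  have hPc : IsClosed (vp 2 2 '' (B' ∩ {z | ‖up 2 2 z‖ ≤ 2 ∧ ‖vp 2 2 z‖ ≤ 1})) :=
    ((box_compact.inter_left hB'c).image (vp 2 2).continuous).isClosed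
  have hPn : Measure.hausdorffMeasure 2
      (vp 2 2 '' (B' ∩ {z | ‖up 2 2 z‖ ≤ 2 ∧ ‖vp 2 2 z‖ ≤ 1})) = 0 :=
    vp_null (measure_mono_null inter_subset_left hB'n)
  obtain ⟨y₁, hy₁, hy₁P⟩ := exists_notMem_plane hPn (isOpen_ball (x := (0 : E 2)) (ε := min ρ 1))
    ⟨0, mem_ball_self (lt_min hρ one_pos)⟩
  obtain ⟨y₀, hy₀', hreg⟩ := hRG 2 2 U (fun x => vp 2 2 (invFun H (f x.1)))
    univ (by norm_num) isOpen_univ (fun x _ => by
      have h2 := hvs _ x.1 (hsmF x.1 ((hU _).mp x.2).1 ((hU _).mp x.2).2).self_of_nhds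
      exact ContMDiffAt.comp (g := fun y => vp 2 2 (invFun H (f y))) x h2
        contMDiff_subtype_val.contMDiffAt) (fun j => by
      rw [compl_univ, image_empty]
      exact measure_empty)
    (ball 0 (min ρ 1) ∩ (vp 2 2 '' (B' ∩ {z | ‖up 2 2 z‖ ≤ 2 ∧ ‖vp 2 2 z‖ ≤ 1}))ᶜ)
    (isOpen_ball.inter hPc.isOpen_compl) ⟨y₁, hy₁, hy₁P⟩
  obtain ⟨hy₀, hy₀P⟩ := hy₀'
  rw [mem_ball_zero_iff] at hy₀
  have hy1 : ‖y₀‖ < ρ := lt_of_lt_of_le hy₀ (min_le_left _ _)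
  have hy2 : ‖y₀‖ < 1 := lt_of_lt_of_le hy₀ (min_le_right _ _)
  obtain ⟨κ, hκ1, hκ2, hκ3, hκ4⟩ := hκ (-y₀) (by rw [norm_neg]; exact hy1)
  obtain ⟨K, hK1, hK2, hK3⟩ := hSU (2 + 2) N H hi hl κ hκ1 hκ2
  refine ⟨K, hK1, hK3, fun z => ⟨κ z, hK2 z, hκ3 z⟩, fun x hx h1 h2 => ?_⟩
  simp only at hx h1 h2
  -- the point lies in the handle
  have hfx : f x ∈ range H := by
    by_contra hcon
    rw [hK3 _ hcon] at hx
    exact hcon hx
  have hop : IsOpen (f ⁻¹' range H) := (open_range hl).preimage f.continuous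
  have hform : ∀ y, f y ∈ range H → invFun H (K (f y)) = κ (invFun H (f y)) := by
    intro y hy
    obtain ⟨z, hz⟩ := hy
    rw [← hz, hK2, inv_app hi, inv_app hi]
  rw [hform x hfx] at h1 h2
  rw [hκ3] at h2
  have hz : vp 2 2 (invFun H (f x)) = y₀ := by
    have h3 : κ (invFun H (f x)) = κ (jn 2 2 (up 2 2 (invFun H (f x))) y₀) := by
      refine norm_up_jn _ _ ?_ ?_
      · rw [hκ3, hκ3, up_jn]
      · rw [h1, hκ4 _ (by rw [up_jn]; exact h2.le) (by rw [vp_jn]; exact hy2.le), vp_jn,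
          add_neg_cancel]
    have h4 := hκ1.1.1 h3
    rw [h4, vp_jn]
  have r1 : Sm (2 + 2) f x := by
    by_contra hcon
    apply hy₀P
    refine ⟨invFun H (f x), ⟨?_, h2.le, ?_⟩, hz⟩
    · rw [hB']
      show H (invFun H (f x)) ∈ f '' Bad (2 + 2) f
      rw [app_inv hfx]
      exact ⟨x, hcon, rfl⟩
    · rw [hz]
      exact hy2.le
  have hxU : x ∈ U := (hU x).mpr ⟨hfx, r1⟩
  obtain ⟨-, r2⟩ := hreg ⟨x, hxU⟩ hz
  have hsF := hsmF x hfx r1
  have hev : (fun y => invFun H (K (f y))) =ᶠ[𝓝 x] fun y => κ (invFun H (f y)) := by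
    filter_upwards [hop.mem_nhds hfx] with y hy
    exact hform y hy
  refine ⟨Sm.congr' (Sm.comp_ld hsF (hκ1.2 _)) hev, ?_⟩
  have hcF : ContinuousAt (fun y => invFun H (f y)) x := hsF.self_of_nhds.continuousAt
  have hev2 : (fun y => vp 2 2 (invFun H (K (f y)))) =ᶠ[𝓝 x]
      fun y => vp 2 2 (invFun H (f y)) + -y₀ := by
    have e1 : ∀ᶠ y in 𝓝 x, ‖up 2 2 (invFun H (f y))‖ < 2 :=
      ((up 2 2).continuous.continuousAt.comp (f := fun y => invFun H (f y)) hcF).norm.eventually_lt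
        continuousAt_const h2
    have e2 : ∀ᶠ y in 𝓝 x, ‖vp 2 2 (invFun H (f y))‖ < 1 :=
      ((vp 2 2).continuous.continuousAt.comp (f := fun y => invFun H (f y)) hcF).norm.eventually_lt
        continuousAt_const (by rw [Function.comp_apply, hz]; exact hy2)
    filter_upwards [hev, e1, e2] with y h3 h4 h5
    rw [h3, hκ4 _ h4.le h5.le]
  have hd : MDifferentiableAt (𝓡 (2 + 2)) (𝓡 2) (fun y => vp 2 2 (invFun H (f y))) x :=
    (hvs _ x hsF.self_of_nhds).mdifferentiableAt (by simp)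
  rw [hev2.mfderiv_eq]
  have e3 : mfderiv (𝓡 (2 + 2)) (𝓡 2) (fun y => vp 2 2 (invFun H (f y)) + -y₀) x =
      mfderiv (𝓡 (2 + 2)) (𝓡 2) (fun y => vp 2 2 (invFun H (f y))) x := by
    have h6 := hd.hasMFDerivAt.add (hasMFDerivAt_const (I := 𝓡 (2 + 2)) (I' := 𝓡 2) (-y₀) x)
    exact h6.mfderiv.trans (add_zero _)
  rw [e3]
  have e4 : mfderiv (𝓡 (2 + 2)) (𝓡 2) (fun x : U => vp 2 2 (invFun H (f x.1)))
      ⟨x, hxU⟩ = (mfderiv (𝓡 (2 + 2)) (𝓡 2) (fun y => vp 2 2 (invFun H (f y))) x).comp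
        (mfderiv (𝓡 (2 + 2)) (𝓡 (2 + 2)) (Subtype.val : U → M) ⟨x, hxU⟩) :=
    mfderiv_comp (I := 𝓡 (2 + 2)) (I' := 𝓡 (2 + 2)) (I'' := 𝓡 2)
      (g := fun y => vp 2 2 (invFun H (f y))) ⟨x, hxU⟩ hd
      (contMDiff_subtype_val.contMDiffAt.mdifferentiableAt (n := ∞) (by simp))
  rw [e4] at r2
  exact Surjective.of_comp r2

/-- regular position of all handles -/
theorem all (hVS : S_VS) (hSU : S_SUPP) (hRG : S_REG) {a : ℕ} {M N : Type}
    [TopologicalSpace M] [CompactSpace M] [ChartedSpace (E (2 + 2)) M]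
    [IsManifold (𝓡 (2 + 2)) ∞ M] [TopologicalSpace N] [T2Space N] [ChartedSpace (E (2 + 2)) N]
    (f : M ≃ₜ N) (h : Fin a → E (2 + 2) → N) (K : Set N)
    (hN : Null2 (f '' Bad (2 + 2) f)) (hi : ∀ i, Injective (h i))
    (hl : ∀ i z, LD (2 + 2) (h i) z) (hK : ∀ i z, h i z ∈ K ↔ 1 ≤ ‖up 2 2 z‖)
    (hd : ∀ i j z w, i ≠ j → h i z ≠ h j w) (hf : ∀ x, f x ∈ K → LD (2 + 2) f x)
    (s : Finset (Fin a)) :
    ∃ f' : M ≃ₜ N, Null2 (f' '' Bad (2 + 2) f') ∧
      (∀ x, f' x ∈ K → LD (2 + 2) f' x) ∧ ∀ i ∈ s, Pr 2 f' (h i) := by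
  induction s using Finset.induction_on with
  | empty => exact ⟨f, hN, hf, fun i hi => absurd hi (Finset.notMem_empty i)⟩
  | insert i s his ih =>
    obtain ⟨f', g1, g2, g3⟩ := ih
    obtain ⟨κ, k1, k2, k3, k4⟩ := one hVS hSU hRG f' (hi i) (hl i) g1
    have hco : ∀ x, (f'.trans (toH k1)) x = κ (f' x) := fun x => rfl
    have hco' : ((f'.trans (toH k1) : M ≃ₜ N) : M → N) = fun x => κ (f' x) := rfl
    refine ⟨f'.trans (toH k1), ?_, ?_, ?_⟩
    · refine Null2.mono (Null2.image g1 k1) ?_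
      rintro _ ⟨x, hx, rfl⟩
      refine ⟨f' x, ⟨x, ?_, rfl⟩, rfl⟩
      intro hs
      apply hx
      rw [hco']
      exact Sm.comp_ld hs (k1.2 _)
    · intro x hx
      rw [hco] at hx
      have hx' : f' x ∈ K := by
        by_cases hc : f' x ∈ range (h i)
        · obtain ⟨z, hz⟩ := hc
          obtain ⟨w, hw, hw'⟩ := k3 z
          rw [← hz, hw, hK, hw', ← hK, hz] at hx
          exact hx
        · rwa [k2 _ hc] at hx
      rw [hco']
      exact LD.comp_fun (k1.2 _) (g2 x hx')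
    · intro j hj
      rw [hco']
      by_cases hji : j = i
      · rw [hji]
        exact k4
      · have hjs : j ∈ s := Finset.mem_of_mem_insert_of_ne hj hji
        exact Pr.other (hl j) (fun z w => hd i j z w (Ne.symm hji)) k2 k3 (g3 j hjs)

/-- **The 2-handles.** -/
theorem two2 : S_VS → S_SUPP → S_REG → S_HND → S_TWO2 := by
  intro hVS hSU hRG hHN a M N _ _ _ _ _ _ _ _ _ _ f₀ h K hN₀ hi hl hK hd hf₀ hKc
  classical
  obtain ⟨f, hN, hf, hP⟩ := all hVS hSU hRG f₀ h K hN₀ hi hl hK hd hf₀ Finset.univ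
  -- the handle coordinates
  obtain ⟨F, hF⟩ : ∃ F : ∀ i : Fin a, OpenPartialHomeomorph M (E (2 + 2)),
      ∀ i, F i = Fp f (h i) (hi i) (hl i) := ⟨_, fun _ => rfl⟩
  have hFa : ∀ i x, F i x = invFun (h i) (f x) := fun i x => by rw [hF]; rfl
  have hFs : ∀ i x, x ∈ (F i).source ↔ f x ∈ range (h i) := fun i x => by rw [hF]; exact Iff.rfl
  have hFt : ∀ i, (F i).target = univ := fun i => by rw [hF]; rfl
  have hFc : ∀ i, ((F i : OpenPartialHomeomorph M (E (2 + 2))) : M → E (2 + 2)) =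
      fun x => invFun (h i) (f x) := fun i => funext fun x => hFa i x
  have hFh : ∀ i x, x ∈ (F i).source → h i (F i x) = f x := by
    intro i x hx
    rw [hFa]
    exact app_inv ((hFs i x).mp hx)
  have hdis : ∀ i j x, x ∈ (F i).source → x ∈ (F j).source → i = j := by
    intro i j x hx hy
    by_contra hij
    obtain ⟨z, hz⟩ := (hFs i x).mp hx
    obtain ⟨w, hw⟩ := (hFs j x).mp hy
    exact hd i j z w hij (hz.trans hw.symm)
  -- the modification of the cores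
  have hnd : ∀ i, ∃ (F' : M → E (2 + 2)) (C : Set M), IsCompact C ∧ C ⊆ (F i).source ∧
      (∀ x ∈ C, ‖up 2 2 (F i x)‖ < 1) ∧ (∀ x, x ∉ C → F' x = F i x) ∧
      (∀ x ∈ (F i).source, vp 2 2 (F i x) = 0 → ‖up 2 2 (F i x)‖ ≤ 1 → LD (2 + 2) F' x) ∧
      InjOn F' {x | x ∈ (F i).source ∧ vp 2 2 (F i x) = 0 ∧ ‖up 2 2 (F i x)‖ ≤ 1} ∧
      F' '' {x | x ∈ (F i).source ∧ vp 2 2 (F i x) = 0 ∧ ‖up 2 2 (F i x)‖ ≤ 1} =
        {z | vp 2 2 z = 0 ∧ ‖up 2 2 z‖ ≤ 1} := by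
    intro i
    refine hHN 2 M (F i) (hFt i) (fun x hx h1 h2 => ?_) (fun x hx h1 h2 => ?_)
    · have hx' := (hFs i x).mp hx
      rw [hFa] at h1 h2
      have := hP i (Finset.mem_univ i) x hx' h1 h2
      rw [hFc]
      exact this
    · have h3 : f x ∈ K := by
        rw [← hFh i x hx, hK]
        exact h2
      rw [hFc]
      obtain ⟨z, hz⟩ := (hFs i x).mp hx
      exact LD.comp_fun (g := invFun (h i)) (hz ▸ ld_inv (hi i) (hl i) z) (hf x h3)
  choose F' C c1 c2 c3 c4 c5 c6 c7 using hnd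
  -- the map
  obtain ⟨g, hg1, hg2⟩ : ∃ g : M → N, (∀ i x, x ∈ C i → g x = h i (F' i x)) ∧
      ∀ x, (∀ i, x ∉ C i) → g x = f x := by
    refine ⟨fun x => if hx : ∃ i, x ∈ C i then h hx.choose (F' hx.choose x) else f x, ?_, ?_⟩
    · intro i x hx
      have hex : ∃ i, x ∈ C i := ⟨i, hx⟩
      simp only
      rw [dif_pos hex]
      have h1 : hex.choose = i := hdis _ _ x (c2 _ hex.choose_spec) (c2 _ hx)
      rw [h1]
    · intro x hx
      simp only
      rw [dif_neg (fun ⟨i, hi⟩ => hx i hi)]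
  have hgs : ∀ i x, x ∈ (F i).source → g x = h i (F' i x) := by
    intro i x hx
    by_cases hxC : x ∈ C i
    · exact hg1 i x hxC
    · rw [hg2 x (fun j hj => by
        have := hdis i j x hx (c2 j hj)
        rw [← this] at hj
        exact hxC hj), c4 i x hxC, hFh i x hx]
  have hCK : ∀ x, f x ∈ K → ∀ i, x ∉ C i := by
    intro x hx i hxC
    have h1 := c3 i x hxC
    rw [← hFh i x (c2 i hxC), hK] at hx
    linarith
  have hgK : ∀ x, f x ∈ K → g x = f x := fun x hx => hg2 x (hCK x hx)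
  -- the cores
  obtain ⟨S, hS⟩ : ∃ S : Fin a → Set M, ∀ i x, x ∈ S i ↔
      (x ∈ (F i).source ∧ vp 2 2 (F i x) = 0 ∧ ‖up 2 2 (F i x)‖ ≤ 1) :=
    ⟨fun i => {x | x ∈ (F i).source ∧ vp 2 2 (F i x) = 0 ∧ ‖up 2 2 (F i x)‖ ≤ 1},
      fun _ _ => Iff.rfl⟩
  have hSe : ∀ i, {x | x ∈ (F i).source ∧ vp 2 2 (F i x) = 0 ∧ ‖up 2 2 (F i x)‖ ≤ 1} = S i :=
    fun i => Set.ext fun x => (hS i x).symm
  have hX : ∀ x, f x ∈ K ∪ ⋃ i, h i '' {z | vp 2 2 z = 0 ∧ ‖up 2 2 z‖ ≤ 1} ↔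
      (f x ∈ K ∨ ∃ i, x ∈ S i) := by
    intro x
    rw [mem_union, mem_iUnion]
    refine or_congr_right (exists_congr fun i => ?_)
    rw [hS]
    constructor
    · rintro ⟨z, hz, hzx⟩
      have h1 : x ∈ (F i).source := (hFs i x).mpr ⟨z, hzx⟩
      have h2 : F i x = z := by rw [hFa, ← hzx, inv_app (hi i)]
      rw [h2]
      exact ⟨h1, hz⟩
    · rintro ⟨h1, h2⟩
      exact ⟨F i x, h2, hFh i x h1⟩
  have hSg : ∀ i x, x ∈ S i → vp 2 2 (F' i x) = 0 ∧ ‖up 2 2 (F' i x)‖ ≤ 1 := by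
    intro i x hx
    have h1 : F' i x ∈ F' i '' S i := ⟨x, hx, rfl⟩
    rw [← hSe, c7] at h1
    exact h1
  have hSK : ∀ i x, x ∈ S i → f x ∉ K → g x ∉ K := by
    intro i x hx hxK hgx
    obtain ⟨h1, h2, h3⟩ := (hS i x).mp hx
    rw [hgs i x h1, hK] at hgx
    obtain ⟨h4, h5⟩ := hSg i x hx
    obtain ⟨x₁, hx₁, hFx₁⟩ : ∃ x₁ ∈ (F i).source, F i x₁ = F' i x := by
      have h6 : F' i x ∈ (F i).target := by rw [hFt]; exact mem_univ _
      exact ⟨(F i).symm (F' i x), (F i).map_target h6, (F i).right_inv h6⟩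
    have h7 : x₁ ∉ C i := by
      intro h8
      have h9 := c3 i x₁ h8
      rw [hFx₁] at h9
      linarith
    have h8 : x₁ ∈ S i := by
      rw [hS, hFx₁]
      exact ⟨hx₁, h4, h5⟩
    have h9 : F' i x₁ = F' i x := by rw [c4 i x₁ h7, hFx₁]
    have h10 : x₁ = x := c6 i (by rw [hSe]; exact h8) (by rw [hSe]; exact hx) h9
    apply hxK
    rw [← hFh i x h1, hK, ← h10, hFx₁]
    exact hgx
  refine ⟨f, g, ?_, ?_, ?_⟩
  · -- local diffeomorphism
    intro x hx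
    rcases (hX x).mp hx with hx | ⟨i, hx⟩
    · have h1 : IsClosed (⋃ i, C i) := isClosed_iUnion_of_finite fun i => (c1 i).isClosed
      have h2 : x ∈ (⋃ i, C i)ᶜ := by
        rw [mem_compl_iff, mem_iUnion]
        rintro ⟨i, hi⟩
        exact hCK x hx i hi
      refine (hf x hx).congr ?_
      filter_upwards [h1.isOpen_compl.mem_nhds h2] with y hy
      refine hg2 y fun i hi => hy (mem_iUnion.mpr ⟨i, hi⟩)
    · obtain ⟨h1, h2, h3⟩ := (hS i x).mp hx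
      have h4 := c5 i x h1 h2 h3
      refine (LD.comp_fun (hl i _) h4).congr ?_
      filter_upwards [(F i).open_source.mem_nhds h1] with y hy
      exact hgs i y hy
  · -- injectivity
    intro x hx y hy hxy
    rw [mem_preimage, hX] at hx hy
    have mix : ∀ x y, f x ∈ K → f y ∉ K → (∃ i, y ∈ S i) → g x ≠ g y := by
      rintro x y hx hy ⟨i, hi⟩ hxy
      apply hSK i y hi hy
      rw [← hxy, hgK x hx]
      exact hx
    by_cases h1 : f x ∈ K
    · by_cases h2 : f y ∈ K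
      · rw [hgK x h1, hgK y h2] at hxy
        exact f.injective hxy
      · exact absurd hxy (mix x y h1 h2 (hy.resolve_left h2))
    · by_cases h2 : f y ∈ K
      · exact absurd hxy.symm (mix y x h2 h1 (hx.resolve_left h1))
      · obtain ⟨i, hxi⟩ := hx.resolve_left h1
        obtain ⟨j, hyj⟩ := hy.resolve_left h2
        have h3 := ((hS i x).mp hxi).1
        have h4 := ((hS j y).mp hyj).1
        rw [hgs i x h3, hgs j y h4] at hxy
        by_cases hij : i = j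
        · subst hij
          exact c6 i (by rw [hSe]; exact hxi) (by rw [hSe]; exact hyj) (hi i hxy)
        · exact absurd hxy (hd i j _ _ hij)
  · -- the image
    ext y
    constructor
    · rintro ⟨x, hx, rfl⟩
      rw [mem_preimage, hX] at hx
      rcases hx with hx | ⟨i, hx⟩
      · left
        rw [hgK x hx]
        exact hx
      · right
        rw [mem_iUnion]
        refine ⟨i, F' i x, hSg i x hx, (hgs i x ((hS i x).mp hx).1).symm⟩
    · rintro (hy | hy)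
      · refine ⟨f.symm y, ?_, ?_⟩
        · rw [mem_preimage, f.apply_symm_apply]
          exact Or.inl hy
        · rw [hgK _ (by rw [f.apply_symm_apply]; exact hy), f.apply_symm_apply]
      · rw [mem_iUnion] at hy
        obtain ⟨i, z, hz, rfl⟩ := hy
        have h1 : z ∈ F' i '' S i := by
          rw [← hSe, c7]
          exact hz
        obtain ⟨x, hx, rfl⟩ := h1
        refine ⟨x, ?_, hgs i x ((hS i x).mp hx).1⟩
        rw [mem_preimage, hX]
        exact Or.inr ⟨i, hx⟩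


end Pool.Agent.L7h32.KS
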