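import Pool.Agent.L7h32.KS.Null

/-!
# Project KS: good position over a ball

Adaptation of `Pool/Agent/N550/KH/Zero.lean`.
-/

set_option autoImplicit false

open Set Filter Topology Metric Function MeasureTheory
open scoped Manifold ContDiff

noncomputable section

namespace Pool.Agent.L7h32.KS

open Pool.Agent.Y522 Pool.Agent.N550.KH

section

variable {M N : Type} [TopologicalSpace M] [ChartedSpace (E 4) M] [IsManifold (𝓡 4) ∞ M]
  [TopologicalSpace N] [ChartedSpace (E 4) N] [IsManifold (𝓡 4) ∞ N]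

/-- somewhere over the ball the homeomorphism is a local diffeomorphism -/
theorem exists_pt (f : M ≃ₜ N) (b : E 4 → N) (hnull : Null2 (f '' Bad 4 f))
    (hb : Injective b) (hbl : ∀ z, LD 4 b z) :
    ∃ (z₀ : E 4) (ε : ℝ), 0 < ε ∧ ∀ x w, w ∈ ball z₀ ε → f x = b w → LD 4 f x := by
  obtain ⟨z, hz, hzA⟩ := exists_notMem (hnull b hb hbl)
  set x₀ : M := f.symm (b z) with hx₀
  have hfx₀ : f x₀ = b z := f.apply_symm_apply _
  have hx₀B : ∀ᶠ y in 𝓝 x₀, ContMDiffAt (𝓡 4) (𝓡 4) ∞ f y := by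
    by_contra h
    exact hzA ⟨x₀, h, hfx₀⟩
  have hball : IsOpen (b '' ball (0 : E 4) 1) := isOpen_image_of_LD isOpen_ball fun x _ => hbl x
  have h2 : ∀ᶠ y in 𝓝 x₀, f y ∈ b '' ball (0 : E 4) 1 := by
    apply f.continuous.continuousAt
    rw [hfx₀]
    exact hball.mem_nhds ⟨z, hz, rfl⟩
  obtain ⟨W, hW, hWo, hxW⟩ := eventually_nhds_iff.1 (hx₀B.and h2)
  have hinv : ∀ w, invFun b (b w) = w := leftInverse_invFun hb
  have hinvl : ∀ w, LD 4 (invFun b) (b w) := fun w =>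
    LD.inverse isOpen_univ (fun z _ => hbl z) (fun z _ => hinv z) (mem_univ w)
  obtain ⟨x₁, hx₁, hld⟩ := Pool.Agent.N550.SH.exists_ld (fun x => invFun b (f x)) W hWo x₀ hxW
    (by
      intro x hx
      obtain ⟨h3, w, -, hw⟩ := hW x hx
      refine ContMDiffAt.comp (g := invFun b) x ?_ h3
      rw [← hw]
      exact (hinvl w).contMDiffAt)
    (by
      intro V hV hVo
      have h3 : (fun x => invFun b (f x)) '' V = invFun b '' (f '' V) := by
        rw [image_image]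
      rw [h3]
      refine isOpen_image_of_LD (n := 4) (f.isOpenMap V hVo) ?_
      rintro _ ⟨x, hx, rfl⟩
      obtain ⟨-, w, -, hw⟩ := hW x (hV hx)
      rw [← hw]
      exact hinvl w)
  obtain ⟨-, z₀, -, hz₀⟩ := hW x₁ hx₁
  have hldf : LD 4 f x₁ := by
    have h3 : LD 4 (fun x => b (invFun b (f x))) x₁ :=
      LD.comp_fun (g := b) (f := fun x => invFun b (f x)) (hbl _) hld
    refine LD.congr h3 ?_
    filter_upwards [hWo.mem_nhds hx₁] with y hy
    obtain ⟨-, w, -, hw⟩ := hW y hy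
    rw [← hw, hinv]
  have h4 : {x | LD 4 f x} ∈ 𝓝 x₁ := hldf.eventually
  have h5 : f '' {x | LD 4 f x} ∈ 𝓝 (b z₀) := by
    rw [hz₀]
    exact f.isOpenMap.image_mem_nhds h4
  have h6 : b ⁻¹' (f '' {x | LD 4 f x}) ∈ 𝓝 z₀ := (hbl z₀).continuousAt h5
  obtain ⟨ε, hε, hεb⟩ := Metric.mem_nhds_iff.1 h6
  refine ⟨z₀, ε, hε, fun x w hw hxw => ?_⟩
  obtain ⟨x', hx', hx'w⟩ := hεb hw
  have : x' = x := f.injective (hx'w.trans hxw.symm)
  rw [← this]
  exact hx'

end

/-- Step 0: the homeomorphism can be made a local diffeomorphism over a given closed ball. -/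
def S_ZERO2 : Prop :=
  ∀ (M N : Type) [TopologicalSpace M] [CompactSpace M] [T2Space M]
    [ChartedSpace (E 4) M] [IsManifold (𝓡 4) ∞ M] [TopologicalSpace N] [CompactSpace N]
    [T2Space N] [ChartedSpace (E 4) N] [IsManifold (𝓡 4) ∞ N] (f : M ≃ₜ N) (b : E 4 → N),
    Null2 (f '' Bad 4 f) → Injective b → (∀ z, LD 4 b z) →
    ∃ f' : M ≃ₜ N, Null2 (f' '' Bad 4 f') ∧ ∀ x z, f' x = b z → ‖z‖ ≤ 1 → LD 4 f' x

theorem zero2 : S_BS → S_SUPP → S_ZERO2 := by
  intro hBS hSUPP M N _ _ _ _ _ _ _ _ _ _ f b hnull hb hbl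
  obtain ⟨z₀, ε, hε, hgood⟩ := exists_pt f b hnull hb hbl
  obtain ⟨κ, hκ, hκs, hκb⟩ := hBS 4 z₀ ε 1 hε
  obtain ⟨K, hK, hKb, -⟩ := hSUPP 4 N b hb hbl κ hκ hκs
  have hKc : Continuous K := continuous_iff_continuousAt.2 fun x => (hK.2 x).continuousAt
  have hKo : IsOpenMap K := fun s hs => isOpen_image_of_LD hs fun x _ => hK.2 x
  let Kh : N ≃ₜ N := (Equiv.ofBijective K hK.1).toHomeomorphOfContinuousOpen hKc hKo
  have hKh : ∀ x, Kh x = K x := fun x => rfl
  refine ⟨f.trans Kh, ?_, ?_⟩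
  · refine Null2.mono (Null2.image hnull hK) ?_
    rintro _ ⟨x, hx, rfl⟩
    refine ⟨f x, ⟨x, ?_, rfl⟩, rfl⟩
    intro hcon
    apply hx
    filter_upwards [hcon] with y hy
    exact ContMDiffAt.comp (g := K) y (hK.2 _).contMDiffAt hy
  · intro x z hx hz
    obtain ⟨w, hw, rfl⟩ := hκb (mem_closedBall_zero_iff.2 hz)
    have h1 : K (f x) = K (b w) := by
      rw [hKb]
      exact hx
    have h2 : LD 4 f x := hgood x w hw (hK.1.1 h1)
    have h3 : LD 4 (fun y => K (f y)) x := LD.comp_fun (g := K) (f := f) (hK.2 _) h2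
    exact h3

end Pool.Agent.L7h32.KS
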