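import Pool.Agent.N550.KH.All
import Pool.Agent.L7h32.KS.EndT
import Pool.Agent.L7h32.KS.Two
import Pool.Agent.L7h32.KS.Zero

/-!
# Project KS: the theorem

A homeomorphism onto a closed 4-manifold `N` with handles of index 0, 2, 4 which is smooth off a set
with image of two-dimensional Hausdorff measure zero can be replaced by a homeomorphism which is a
local diffeomorphism off the preimage of an arbitrarily small neighbourhood of one point.
-/

set_option autoImplicit false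

open Set Filter Topology Metric Function MeasureTheory
open scoped Manifold ContDiff

noncomputable section

namespace Pool.Agent.L7h32.KS

open Pool.Agent.Y522 Pool.Agent.N550.KH

section cell

variable {n : ℕ} {N : Type} [TopologicalSpace N] {c : E n → N}

theorem far_top [CompactSpace N] (hc : IsOpenEmbedding c) {W : Set N} (hW : IsOpen W)
    (hX : (range c)ᶜ ⊆ W) : ∃ R : ℝ, 0 < R ∧ ∀ z, R < ‖z‖ → c z ∈ W := by
  have h1 : IsCompact Wᶜ := hW.isClosed_compl.isCompact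
  have h2 : Wᶜ ⊆ range c := by
    rw [compl_subset_comm]; exact hX
  have h3 : IsCompact (c ⁻¹' Wᶜ) := (hc.isInducing.isCompact_preimage_iff h2).2 h1
  obtain ⟨R, hR⟩ := h3.isBounded.subset_closedBall (0 : E n)
  refine ⟨max R 1, lt_max_of_lt_right one_pos, fun z hz => ?_⟩
  by_contra h
  have h4 := hR (show z ∈ c ⁻¹' Wᶜ from h)
  rw [mem_closedBall_zero_iff] at h4
  exact absurd (h4.trans (le_max_left _ _)) (not_le.2 hz)

theorem cell_far_open_top [T2Space N] (hc : IsOpenEmbedding c) (R : ℝ) :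
    IsOpen ((range c)ᶜ ∪ c '' {z | R < ‖z‖}) := by
  have h1 : (range c)ᶜ ∪ c '' {z | R < ‖z‖} = (c '' closedBall 0 R)ᶜ := by
    ext x
    constructor
    · rintro (hx | ⟨z, hz, rfl⟩)
      · rintro ⟨z, -, rfl⟩
        exact hx ⟨z, rfl⟩
      · rintro ⟨w, hw, hwz⟩
        rw [hc.injective hwz, mem_closedBall_zero_iff] at hw
        exact absurd hw (not_le.2 hz)
    · intro hx
      by_cases h : x ∈ range c
      · obtain ⟨z, rfl⟩ := h
        right
        refine ⟨z, ?_, rfl⟩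
        show R < ‖z‖
        by_contra h
        exact hx ⟨z, by rw [mem_closedBall_zero_iff]; exact not_lt.1 h, rfl⟩
      · exact Or.inl h
  rw [h1]
  exact ((isCompact_closedBall _ _).image hc.continuous).isClosed.isOpen_compl

theorem map_inv (hc : IsOpenEmbedding c) {p : N → E n} (hp : ∀ z, p (c z) = z) (z : E n) :
    map p (𝓝 (c z)) = 𝓝 z := by
  rw [← hc.map_nhds_eq z, Filter.map_map]
  have h1 : p ∘ c = id := funext hp
  rw [h1, Filter.map_id]

end cell

/-- a map near the complement of a cell extends to a homeomorphism -/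
theorem asm_top {n : ℕ} {M N : Type} [TopologicalSpace M] [CompactSpace M] [T2Space M]
    [ChartedSpace (E n) M] [TopologicalSpace N] [CompactSpace N] [T2Space N]
    [ChartedSpace (E n) N] (c : E n → N) (hci : Injective c) (hcl : ∀ z, LD n c z) (f : M ≃ₜ N)
    (g : M → N) (hg1 : ∀ x, f x ∈ (range c)ᶜ → LD n g x) (hg2 : InjOn g (f ⁻¹' (range c)ᶜ))
    (hg3 : g '' (f ⁻¹' (range c)ᶜ) = (range c)ᶜ) :
    ∃ (G : M ≃ₜ N) (A : ℝ), ∀ x, G x ∉ c '' closedBall 0 A → LD n G x := by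
  classical
  have hcE := Asm.isOpenEmb hci hcl
  obtain ⟨c', hc'⟩ : ∃ c' : E n → M, ∀ z, c' z = f.symm (c z) := ⟨fun z => f.symm (c z), fun _ => rfl⟩
  have hc'E : IsOpenEmbedding c' := by
    have h1 : c' = fun z => f.symm (c z) := funext hc'
    rw [h1]
    exact f.symm.isOpenEmbedding.comp hcE
  obtain ⟨X', hX'⟩ : ∃ X' : Set M, X' = f ⁻¹' (range c)ᶜ := ⟨_, rfl⟩
  rw [← hX'] at hg2 hg3
  have hg1' : ∀ x ∈ X', LD n g x := fun x hx => hg1 x (by rw [hX'] at hx; exact hx)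
  have hXc' : (range c')ᶜ = X' := by
    rw [hX']
    ext x
    constructor
    · rintro h ⟨z, hz⟩
      exact h ⟨z, by rw [hc', hz, f.symm_apply_apply]⟩
    · rintro h ⟨z, hz⟩
      exact h ⟨z, by rw [← hz, hc', f.apply_symm_apply]⟩
  have hX'cl : IsClosed X' := by
    rw [← hXc']
    exact hc'E.isOpen_range.isClosed_compl
  have hX'cp : IsCompact X' := hX'cl.isCompact
  obtain ⟨t, ht, hti⟩ := hg2.exists_mem_nhdsSet hX'cp (fun x hx => (hg1' x hx).continuousAt)
    (fun x hx => (hg1' x hx).eventually_injOn)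
  have hLDo : IsOpen {x | LD n g x} := isOpen_iff_mem_nhds.2 fun x hx => LD.eventually hx
  obtain ⟨U, hU⟩ : ∃ U : Set M, U = interior t ∩ {x | LD n g x} := ⟨_, rfl⟩
  have hUo : IsOpen U := by
    rw [hU]
    exact isOpen_interior.inter hLDo
  have hX'U : X' ⊆ U := by
    rw [hU]
    exact fun x hx => ⟨(subset_interior_iff_mem_nhdsSet.2 ht) hx, hg1' x hx⟩
  have hUi : InjOn g U := by
    rw [hU]
    exact hti.mono (inter_subset_left.trans interior_subset)
  have hUd : ∀ x ∈ U, LD n g x := by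
    rw [hU]
    exact fun x hx => hx.2
  have hUc : ContinuousOn g U := fun x hx => (hUd x hx).continuousAt.continuousWithinAt
  obtain ⟨R, hR, hRU⟩ := far_top hc'E hUo (hXc'.subset.trans hX'U)
  have hnX : ∀ z, c' z ∉ X' := fun z h => by
    rw [← hXc'] at h
    exact h ⟨z, rfl⟩
  have hrange : ∀ z, R < ‖z‖ → g (c' z) ∈ range c := by
    intro z hz
    by_contra h
    have h1 : g (c' z) ∈ (range c)ᶜ := h
    rw [← hg3] at h1
    obtain ⟨x, hx, hxz⟩ := h1
    exact hnX z ((hUi (hX'U hx) (hRU z hz) hxz) ▸ hx)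
  obtain ⟨p, hpc⟩ : ∃ p : N → E n, ∀ z, p (c z) = z := ⟨invFun c, leftInverse_invFun hci⟩
  obtain ⟨p', hpc'⟩ : ∃ p' : M → E n, ∀ z, p' (c' z) = z :=
    ⟨invFun c', leftInverse_invFun hc'E.injective⟩
  obtain ⟨e, he⟩ : ∃ e : E n → E n, ∀ z, e z = p (g (c' z)) := ⟨fun z => p (g (c' z)), fun _ => rfl⟩
  have hce : ∀ z, R < ‖z‖ → c (e z) = g (c' z) := by
    intro z hz
    obtain ⟨w, hw⟩ := hrange z hz
    rw [he, ← hw, hpc]
  have hei : InjOn e {z | R < ‖z‖} := by
    intro z hz w hw hzw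
    have h1 : g (c' z) = g (c' w) := by rw [← hce z hz, ← hce w hw, hzw]
    exact hc'E.injective (hUi (hRU z hz) (hRU w hw) h1)
  have hmap : ∀ z, R < ‖z‖ → map e (𝓝 z) = 𝓝 (e z) := by
    intro z hz
    have h1 : e = fun z => p (g (c' z)) := funext he
    have h2 : map e (𝓝 z) = map p (map g (map c' (𝓝 z))) := by
      rw [Filter.map_map, Filter.map_map, h1]
      rfl
    rw [h2, hc'E.map_nhds_eq, map_nhds (hUd _ (hRU z hz)), ← hce z hz, map_inv hcE hpc]
  have het : Tendsto e (cocompact (E n)) (cocompact (E n)) := by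
    rw [← Metric.cobounded_eq_cocompact, ← tendsto_norm_atTop_iff_cobounded, Filter.tendsto_atTop]
    intro r
    have hcl2 : IsClosed (c '' closedBall 0 r) :=
      ((isCompact_closedBall (0 : E n) r).image hcE.continuous).isClosed
    have hWo : IsOpen (U ∩ g ⁻¹' (c '' closedBall 0 r)ᶜ) :=
      hUc.isOpen_inter_preimage hUo hcl2.isOpen_compl
    have hXW : (range c')ᶜ ⊆ U ∩ g ⁻¹' (c '' closedBall 0 r)ᶜ := by
      rw [hXc']
      intro x hx
      refine ⟨hX'U hx, ?_⟩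
      rintro ⟨w, -, hw⟩
      have h3 : g x ∈ (range c)ᶜ := by
        rw [← hg3]
        exact ⟨x, hx, rfl⟩
      exact h3 ⟨w, hw⟩
    obtain ⟨R', -, hR'⟩ := far_top hc'E hWo hXW
    filter_upwards [tendsto_norm_cobounded_atTop.eventually_gt_atTop (max R R')] with z hz
    by_contra h
    have h1 := (hR' z ((le_max_right _ _).trans_lt hz)).2
    apply h1
    refine ⟨e z, ?_, hce z ((le_max_left _ _).trans_lt hz)⟩
    rw [mem_closedBall_zero_iff]
    exact (not_le.1 h).le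
  have hes : ∀ R₁ : ℝ, ∃ A : ℝ, ∀ w : E n, A < ‖w‖ → ∃ z, R₁ < ‖z‖ ∧ e z = w := by
    intro R₁
    obtain ⟨U1, hU1⟩ : ∃ U1 : Set M, U1 = (range c')ᶜ ∪ c' '' {z | max R R₁ < ‖z‖} := ⟨_, rfl⟩
    have hU1o : IsOpen U1 := by
      rw [hU1]
      exact cell_far_open_top hc'E _
    have hU1U : U1 ⊆ U := by
      rw [hU1]
      rintro x (hx | ⟨z, hz, rfl⟩)
      · exact hX'U (hXc' ▸ hx)
      · exact hRU z ((le_max_left _ _).trans_lt hz)
    have hgU1 : IsOpen (g '' U1) := isOpen_image_of_LD hU1o fun x hx => hUd x (hU1U hx)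
    have hXg : (range c)ᶜ ⊆ g '' U1 := by
      rw [← hg3, hU1]
      exact image_mono (fun x hx => Or.inl (hXc'.symm ▸ hx))
    obtain ⟨A, -, hA⟩ := far_top hcE hgU1 hXg
    refine ⟨A, fun w hw => ?_⟩
    obtain ⟨x, hx, hxw⟩ := hA w hw
    rw [hU1] at hx
    rcases hx with hx | ⟨z, hz, rfl⟩
    · exfalso
      rw [hXc'] at hx
      have h3 : g x ∈ (range c)ᶜ := by
        rw [← hg3]
        exact ⟨x, hx, rfl⟩
      exact h3 ⟨w, hxw.symm⟩
    · refine ⟨z, (le_max_right _ _).trans_lt hz, ?_⟩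
      rw [he, hxw, hpc]
  obtain ⟨G0, A, hA⟩ := end_top e R hei hmap het hes
  obtain ⟨G, hGX, hGc⟩ : ∃ G : M → N, (∀ x ∈ X', G x = g x) ∧ ∀ x, x ∉ X' → G x = c (G0 (p' x)) :=
    ⟨fun x => if x ∈ X' then g x else c (G0 (p' x)), fun x hx => if_pos hx, fun x hx => if_neg hx⟩
  have hGc' : ∀ z, G (c' z) = c (G0 z) := fun z => by rw [hGc _ (hnX z), hpc']
  have hcov : ∀ x, x ∈ X' ∨ ∃ z, x = c' z := by
    intro x
    by_cases h : x ∈ X'
    · exact Or.inl h
    · right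
      rw [← hXc', mem_compl_iff, not_not] at h
      obtain ⟨z, rfl⟩ := h
      exact ⟨z, rfl⟩
  have hGg : ∀ x ∈ (range c')ᶜ ∪ c' '' {z | max A R < ‖z‖}, G x = g x := by
    rintro x (hx | ⟨z, hz, rfl⟩)
    · rw [hXc'] at hx
      exact hGX x hx
    · rw [hGc', hA z ((le_max_left _ _).trans_lt hz), hce z ((le_max_right _ _).trans_lt hz)]
  have hGld : ∀ x ∈ (range c')ᶜ ∪ c' '' {z | max A R < ‖z‖}, LD n G x := by
    intro x hx
    have hxU : x ∈ U := by
      rcases hx with hx | ⟨z, hz, rfl⟩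
      · exact hX'U (hXc' ▸ hx)
      · exact hRU z ((le_max_right _ _).trans_lt hz)
    refine (hUd x hxU).congr ?_
    filter_upwards [(cell_far_open_top hc'E _).mem_nhds hx] with y hy
    exact hGg y hy
  have hGcont : Continuous G := by
    rw [continuous_iff_continuousAt]
    intro x
    rcases hcov x with hx | ⟨z, rfl⟩
    · exact (hGld x (Or.inl (hXc'.symm ▸ hx))).continuousAt
    · have h0 : ContinuousAt p' (c' z) := by
        have := (map_inv hc'E hpc' z).le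
        unfold ContinuousAt
        rw [hpc']
        exact this
      have h1 : ContinuousAt (fun x => c (G0 (p' x))) (c' z) :=
        hcE.continuous.continuousAt.comp (G0.continuous.continuousAt.comp h0)
      refine h1.congr ?_
      filter_upwards [hX'cl.isOpen_compl.mem_nhds (hnX z)] with y hy
      exact (hGc y hy).symm
  have hnX2 : ∀ w, c w ∉ (range c)ᶜ := fun w h => h ⟨w, rfl⟩
  have hgX : ∀ x ∈ X', g x ∈ (range c)ᶜ := fun x hx => by
    rw [← hg3]
    exact ⟨x, hx, rfl⟩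
  have hGinj : Injective G := by
    intro x y hxy
    rcases hcov x with hx | ⟨z, rfl⟩
    · rcases hcov y with hy | ⟨w, rfl⟩
      · rw [hGX x hx, hGX y hy] at hxy
        exact hg2 hx hy hxy
      · rw [hGX x hx, hGc'] at hxy
        exact absurd (hxy ▸ hgX x hx) (hnX2 _)
    · rcases hcov y with hy | ⟨w, rfl⟩
      · rw [hGX y hy, hGc'] at hxy
        exact absurd (hxy.symm ▸ hgX y hy) (hnX2 _)
      · rw [hGc', hGc'] at hxy
        rw [G0.injective (hci hxy)]
  have hGsurj : Surjective G := by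
    intro y
    by_cases hy : y ∈ range c
    · obtain ⟨w, rfl⟩ := hy
      obtain ⟨z, rfl⟩ := G0.surjective w
      exact ⟨c' z, hGc' z⟩
    · have h1 : y ∈ g '' X' := by rw [hg3]; exact hy
      obtain ⟨x, hx, rfl⟩ := h1
      exact ⟨x, hGX x hx⟩
  obtain ⟨A', hA'⟩ := ((isCompact_closedBall (0 : E n) (max A R)).image
    G0.continuous).isBounded.subset_closedBall (0 : E n)
  refine ⟨Continuous.homeoOfEquivCompactToT2 (f := Equiv.ofBijective G ⟨hGinj, hGsurj⟩) hGcont,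
    A', fun x hx => ?_⟩
  show LD n G x
  have hx' : G x ∉ c '' closedBall 0 A' := hx
  apply hGld
  rcases hcov x with h | ⟨z, rfl⟩
  · exact Or.inl (hXc'.symm ▸ h)
  · right
    refine ⟨z, ?_, rfl⟩
    show max A R < ‖z‖
    by_contra hcon
    apply hx'
    rw [hGc']
    exact ⟨G0 z, hA' ⟨z, mem_closedBall_zero_iff.2 (not_lt.1 hcon), rfl⟩, rfl⟩

/-- the exceptional ball can be made small -/
theorem shrink {M N : Type} [TopologicalSpace M] [ChartedSpace (E 4) M]
    [TopologicalSpace N] [T2Space N] [ChartedSpace (E 4) N] (c : E 4 → N)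
    (hci : Injective c) (hcl : ∀ z, LD 4 c z) (G : M ≃ₜ N) (A : ℝ)
    (hG : ∀ x, G x ∉ c '' closedBall 0 A → LD 4 G x) (V : Set N) (hV : V ∈ 𝓝 (c 0)) :
    ∃ G' : M ≃ₜ N, ∀ x, G' x ∉ V → LD 4 G' x := by
  have h1 : c ⁻¹' V ∈ 𝓝 (0 : E 4) := (hcl 0).continuousAt hV
  obtain ⟨ε, hε, hεV⟩ := Metric.mem_nhds_iff.1 h1
  obtain ⟨κ, hκ, hκs, hκb⟩ := Shift.main.2.2 4 0 ε A hε
  obtain ⟨K, hK, hKc, -⟩ := Supp.main 4 N c hci hcl κ hκ hκs
  obtain ⟨KH, hKH, -, hKs⟩ := Fin'.exists_homeo hK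
  refine ⟨G.trans KH.symm, fun x hx => ?_⟩
  have h2 : LD 4 (fun y => KH.symm (G y)) x := by
    refine LD.comp_fun (g := KH.symm) (hKs _) (hG x ?_)
    rintro ⟨w, hw, hwx⟩
    obtain ⟨u, hu, rfl⟩ := hκb hw
    apply hx
    show KH.symm (G x) ∈ V
    rw [← hwx, ← hKc, ← hKH, KH.symm_apply_apply]
    exact hεV hu
  exact h2

/-- a handle decomposition with one 0-handle, `d` 2-handles and one 4-handle -/
structure Hand (N : Type) [TopologicalSpace N] [ChartedSpace (E 4) N] (d : ℕ)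
    (b : E 4 → N) (h : Fin d → E (2 + 2) → N) (c : E 4 → N) : Prop where
  b_inj : Injective b
  b_ld : ∀ z, LD 4 b z
  h_inj : ∀ i, Injective (h i)
  h_ld : ∀ i z, LD 4 (h i) z
  h_att : ∀ i z, h i z ∈ b '' closedBall 0 1 ↔ 1 ≤ ‖up 2 2 z‖
  h_dis : ∀ i j z w, i ≠ j → h i z ≠ h j w
  c_inj : Injective c
  c_ld : ∀ z, LD 4 c z
  c_range : range c = (b '' closedBall 0 1 ∪ ⋃ i, h i '' {z | vp 2 2 z = 0 ∧ ‖up 2 2 z‖ ≤ 1})ᶜ

/-- THE THEOREM -/
theorem final (M N : Type) [TopologicalSpace M] [CompactSpace M] [T2Space M]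
    [ChartedSpace (E 4) M] [IsManifold (𝓡 4) ∞ M] [TopologicalSpace N] [CompactSpace N]
    [T2Space N] [ChartedSpace (E 4) N] [IsManifold (𝓡 4) ∞ N] (d : ℕ) (b c : E 4 → N)
    (h : Fin d → E (2 + 2) → N) (H : Hand N d b h c) (f : M ≃ₜ N)
    (hf : Null2C (f '' Bad 4 f)) (V : Set N) (hV : V ∈ 𝓝 (c 0)) :
    ∃ G : M ≃ₜ N, ∀ x, G x ∉ V → LD 4 G x := by
  obtain ⟨f1, hn1, hl1⟩ := zero2 Shift.main.2.2 Supp.main M N f b (null2_of_chart hf)
    H.b_inj H.b_ld
  have hK : IsClosed (b '' closedBall 0 1) :=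
    ((isCompact_closedBall (0 : E 4) 1).image (Asm.cont H.b_ld)).isClosed
  obtain ⟨f2, g, hg1, hg2, hg3⟩ := two2 Shift.main.2.1 Supp.main Reg.main hnd d M N f1 h
    (b '' closedBall 0 1) hn1 H.h_inj H.h_ld H.h_att H.h_dis (by
      rintro x ⟨z, hz, hzx⟩
      exact hl1 x z hzx.symm (mem_closedBall_zero_iff.1 hz)) hK
  have hX : b '' closedBall 0 1 ∪ ⋃ i, h i '' {z | vp 2 2 z = 0 ∧ ‖up 2 2 z‖ ≤ 1} =
      (range c)ᶜ := by
    rw [H.c_range, compl_compl]
  rw [hX] at hg1 hg2 hg3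
  obtain ⟨G, A, hG⟩ := asm_top c H.c_inj H.c_ld f2 g hg1 hg2 hg3
  exact shrink c H.c_inj H.c_ld G A hG V hV

end Pool.Agent.L7h32.KS
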