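import Pool.Agent.L7h32.KS.Pre

/-!
# Project KS: the handle decomposition of `CP²`
-/

set_option autoImplicit false

open Set Filter Topology Metric Function
open scoped Manifold ContDiff

noncomputable section

namespace Pool.Agent.L7h32.KS

open Pool.Agent.Y522 Pool.Agent.N550.KH

/-- `N` is the complex projective plane, with homogeneous coordinates `π` -/
structure IsCP2 (N : Type) [TopologicalSpace N] [ChartedSpace (E 4) N] (π : ℂ × ℂ × ℂ → N) :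
    Prop where
  surj : ∀ y, ∃ v, v ≠ 0 ∧ π v = y
  fibre : ∀ v w, v ≠ 0 → w ≠ 0 → (π v = π w ↔ ∃ a : ℂ, w = a • v)
  chart0 : ∀ z, LD 4 (fun z : E 4 => π (1, c1 z, c2 z)) z
  chart1 : ∀ z, LD 4 (fun z : E 4 => π (c1 z, 1, c2 z)) z
  chart2 : ∀ z, LD 4 (fun z : E 4 => π (c1 z, c2 z, 1)) z

namespace IsCP2

variable {N : Type} [TopologicalSpace N] [ChartedSpace (E 4) N] {π : ℂ × ℂ × ℂ → N}

theorem ne0 (x y : ℂ) : ((1, x, y) : ℂ × ℂ × ℂ) ≠ 0 := fun h => by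
  have := congrArg Prod.fst h
  exact one_ne_zero this

theorem ne1 (x y : ℂ) : ((x, 1, y) : ℂ × ℂ × ℂ) ≠ 0 := fun h => by
  have := congrArg (fun v : ℂ × ℂ × ℂ => v.2.1) h
  exact one_ne_zero this

theorem ne2 (x y : ℂ) : ((x, y, 1) : ℂ × ℂ × ℂ) ≠ 0 := fun h => by
  have := congrArg (fun v : ℂ × ℂ × ℂ => v.2.2) h
  exact one_ne_zero this

/-- points of the unit ball -/
theorem ball_iff (H : IsCP2 N π) {v : ℂ × ℂ × ℂ} (hv : v ≠ 0) :
    π v ∈ (fun z : E 4 => π (1, c1 z, c2 z)) '' closedBall 0 1 ↔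
      ‖v.2.1‖ ^ 2 + ‖v.2.2‖ ^ 2 ≤ ‖v.1‖ ^ 2 := by
  obtain ⟨v0, v1, v2⟩ := v
  constructor
  · rintro ⟨z, hz, hzv⟩
    obtain ⟨a, ha⟩ := (H.fibre _ _ (ne0 _ _) hv).1 hzv
    simp only [Prod.smul_mk, smul_eq_mul, mul_one, Prod.mk.injEq] at ha
    obtain ⟨h0, h1, h2⟩ := ha
    have hz' : ‖z‖ ≤ 1 := mem_closedBall_zero_iff.1 hz
    have h3 := norm_sq_c z
    have h4 : ‖z‖ ^ 2 ≤ 1 := (sq_le_one_iff₀ (norm_nonneg _)).2 hz'
    simp only [h0, h1, h2, norm_mul, mul_pow]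
    nlinarith [sq_nonneg ‖a‖]
  · intro h
    simp only at h
    have hv0 : v0 ≠ 0 := by
      rintro rfl
      rw [norm_zero] at h
      have a1 : ‖v1‖ ^ 2 = 0 := le_antisymm (by nlinarith [sq_nonneg ‖v2‖]) (sq_nonneg _)
      have a2 : ‖v2‖ ^ 2 = 0 := le_antisymm (by nlinarith [sq_nonneg ‖v1‖]) (sq_nonneg _)
      rw [sq_eq_zero_iff, norm_eq_zero] at a1 a2
      exact hv (by rw [a1, a2]; rfl)
    have hn : 0 < ‖v0‖ ^ 2 := by positivity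
    refine ⟨pt (v1 / v0) (v2 / v0), ?_, ?_⟩
    · rw [mem_closedBall_zero_iff, ← sq_le_one_iff₀ (norm_nonneg _), norm_sq_c, c1_pt, c2_pt,
        norm_div, norm_div, div_pow, div_pow, ← add_div, div_le_one hn]
      exact h
    · show π (1, c1 (pt (v1 / v0) (v2 / v0)), c2 (pt (v1 / v0) (v2 / v0))) = π (v0, v1, v2)
      rw [c1_pt, c2_pt]
      refine (H.fibre _ _ (ne0 _ _) hv).2 ⟨v0, ?_⟩
      simp only [Prod.smul_mk, smul_eq_mul, mul_one]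
      rw [mul_div_cancel₀ _ hv0, mul_div_cancel₀ _ hv0]

theorem core_iff (H : IsCP2 N π) {v : ℂ × ℂ × ℂ} (hv : v ≠ 0) :
    (∃ z, c2 z = 0 ∧ ‖c1 z‖ ≤ 1 ∧ π (c1 z, 1, c2 z) = π v) ↔ v.2.2 = 0 ∧ ‖v.1‖ ≤ ‖v.2.1‖ := by
  obtain ⟨v0, v1, v2⟩ := v
  constructor
  · rintro ⟨z, hz, hz1, hzv⟩
    obtain ⟨a, ha⟩ := (H.fibre _ _ (ne1 _ _) hv).1 hzv
    simp only [Prod.smul_mk, smul_eq_mul, mul_one, Prod.mk.injEq] at ha
    obtain ⟨h0, h1, h2⟩ := ha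
    simp only [h0, h1, h2, hz, mul_zero, norm_mul]
    exact ⟨trivial, mul_le_of_le_one_right (norm_nonneg _) hz1⟩
  · rintro ⟨h1, h2⟩
    simp only at h1 h2
    subst h1
    have hv1 : v1 ≠ 0 := by
      rintro rfl
      rw [norm_zero] at h2
      have a1 := norm_le_zero_iff.1 h2
      exact hv (by rw [a1]; rfl)
    refine ⟨pt (v0 / v1) 0, c2_pt _ _, ?_, ?_⟩
    · rw [c1_pt, norm_div, div_le_one (norm_pos_iff.2 hv1)]
      exact h2
    · rw [c1_pt, c2_pt]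
      refine (H.fibre _ _ (ne1 _ _) hv).2 ⟨v1, ?_⟩
      simp only [Prod.smul_mk, smul_eq_mul, mul_one, mul_zero]
      rw [mul_div_cancel₀ _ hv1]

/-- the curvature function of the cell -/
def kap2 (t : ℂ) : ℝ := 1 / (1 + ‖t‖ ^ 2)

theorem cell_iff (H : IsCP2 N π) {v : ℂ × ℂ × ℂ} (hv : v ≠ 0) :
    (∃ z, kap2 (c2 z) * ‖c1 z‖ ^ 2 < 1 ∧ π (c1 z, c2 z, 1) = π v) ↔
      v.2.2 ≠ 0 ∧ ‖v.1‖ ^ 2 < ‖v.2.1‖ ^ 2 + ‖v.2.2‖ ^ 2 := by
  obtain ⟨v0, v1, v2⟩ := v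
  have hk : ∀ s t : ℂ, kap2 t * ‖s‖ ^ 2 < 1 ↔ ‖s‖ ^ 2 < ‖t‖ ^ 2 + 1 := by
    intro s t
    rw [kap2, one_div, inv_mul_lt_iff₀ (one_add_pos _), mul_one, add_comm]
  constructor
  · rintro ⟨z, hz, hzv⟩
    rw [hk] at hz
    obtain ⟨a, ha⟩ := (H.fibre _ _ (ne2 _ _) hv).1 hzv
    simp only [Prod.smul_mk, smul_eq_mul, mul_one, Prod.mk.injEq] at ha
    obtain ⟨h0, h1, h2⟩ := ha
    have ha0 : a ≠ 0 := by
      rintro rfl
      exact hv (by rw [h0, h1, h2]; simp)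
    simp only [h0, h1, h2, norm_mul, mul_pow]
    have : 0 < ‖a‖ ^ 2 := by positivity
    exact ⟨ha0, by nlinarith⟩
  · rintro ⟨h1, h2⟩
    simp only at h1 h2
    have hn : 0 < ‖v2‖ ^ 2 := by positivity
    refine ⟨pt (v0 / v2) (v1 / v2), ?_, ?_⟩
    · rw [hk, c1_pt, c2_pt, norm_div, norm_div, div_pow, div_pow, ← div_self hn.ne', ← add_div,
        div_lt_div_iff_of_pos_right hn]
      exact h2
    · rw [c1_pt, c2_pt]
      refine (H.fibre _ _ (ne2 _ _) hv).2 ⟨v2, ?_⟩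
      simp only [Prod.smul_mk, smul_eq_mul, mul_one]
      rw [mul_div_cancel₀ _ h1, mul_div_cancel₀ _ h1]

theorem pre (H : IsCP2 N π) : Pre N 1 (fun z => π (1, c1 z, c2 z))
    (fun _ z => π (c1 z, 1, c2 z)) (fun _ τ => √(1 + τ)) (fun z => π (c1 z, c2 z, 1)) kap2 where
  b_inj := fun x y h => by
    obtain ⟨a, ha⟩ := (H.fibre _ _ (ne0 _ _) (ne0 _ _)).1 h
    simp only [Prod.smul_mk, smul_eq_mul, mul_one, Prod.mk.injEq] at ha
    obtain ⟨h0, h1, h2⟩ := ha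
    rw [← h0, one_mul] at h1 h2
    exact ext_c h1.symm h2.symm
  b_ld := H.chart0
  C_inj := fun _ x y h => by
    obtain ⟨a, ha⟩ := (H.fibre _ _ (ne1 _ _) (ne1 _ _)).1 h
    simp only [Prod.smul_mk, smul_eq_mul, mul_one, Prod.mk.injEq] at ha
    obtain ⟨h0, h1, h2⟩ := ha
    rw [← h1, one_mul] at h0 h2
    exact ext_c h0.symm h2.symm
  C_ld := fun _ => H.chart1
  D_inj := fun x y h => by
    obtain ⟨a, ha⟩ := (H.fibre _ _ (ne2 _ _) (ne2 _ _)).1 h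
    simp only [Prod.smul_mk, smul_eq_mul, mul_one, Prod.mk.injEq] at ha
    obtain ⟨h0, h1, h2⟩ := ha
    rw [← h2, one_mul] at h0 h1
    exact ext_c h0.symm h1.symm
  D_ld := H.chart2
  good := fun _ => good_add
  kap := contDiff_const.div (contDiff_const.add nsq_contDiff) fun t => (one_add_pos _).ne'
  att := fun _ z _ => by
    rw [H.ball_iff (ne1 _ _), Real.sqrt_le_left (norm_nonneg _)]
    simp only [norm_one, one_pow]
  dis := fun i j z w hij => absurd (Subsingleton.elim i j) hij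
  cov := fun y => by
    obtain ⟨v, hv, rfl⟩ := H.surj y
    have h1 := H.core_iff hv
    rw [H.cell_iff hv, H.ball_iff hv]
    constructor
    · rintro ⟨h2, h3⟩
      refine ⟨by linarith, fun _ z hz hz1 hzv => h2 (h1.1 ⟨z, hz, hz1, hzv⟩).1⟩
    · rintro ⟨h2, h3⟩
      push Not at h2
      refine ⟨fun h4 => ?_, h2⟩
      rw [h4, norm_zero] at h2
      have h5 : ‖v.1‖ ≤ ‖v.2.1‖ := by
        have a1 := norm_nonneg v.1
        have a2 := norm_nonneg v.2.1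
        nlinarith
      obtain ⟨z, hz, hz1, hzv⟩ := h1.2 ⟨h4, h5⟩
      exact h3 0 z hz hz1 hzv

end IsCP2

end Pool.Agent.L7h32.KS
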