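import Pool.Agent.L7h32.KS.HzB
import Pool.Agent.L7h32.KS.CP

/-!
# Project KS: the exceptional ball can be moved everywhere
-/

set_option autoImplicit false

open Set Filter Topology Metric Function
open scoped Manifold ContDiff

noncomputable section

namespace Pool.Agent.L7h32.KS

open Pool.Agent.Y522 Pool.Agent.N550.KH

/-- the exceptional ball is moved to a given point and made small -/
theorem shrink2 {M N : Type} [TopologicalSpace M] [ChartedSpace (E 4) M]
    [TopologicalSpace N] [T2Space N] [ChartedSpace (E 4) N] (c : E 4 → N)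
    (hci : Injective c) (hcl : ∀ z, LD 4 c z) (G : M ≃ₜ N) (A : ℝ)
    (hG : ∀ x, G x ∉ c '' closedBall 0 A → LD 4 G x) (V : Set N) (w₀ : E 4) (hV : V ∈ 𝓝 (c w₀)) :
    ∃ G' : M ≃ₜ N, ∀ x, G' x ∉ V → LD 4 G' x := by
  have h1 : c ⁻¹' V ∈ 𝓝 w₀ := (hcl w₀).continuousAt hV
  obtain ⟨ε, hε, hεV⟩ := Metric.mem_nhds_iff.1 h1
  obtain ⟨κ, hκ, hκs, hκb⟩ := Shift.main.2.2 4 w₀ ε A hε
  obtain ⟨K, hK, hKc, -⟩ := Supp.main 4 N c hci hcl κ hκ hκs
  obtain ⟨KH, hKH, -, hKs⟩ := Fin'.exists_homeo hK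
  refine ⟨G.trans KH.symm, fun x hx => ?_⟩
  have h2 : LD 4 (fun y => KH.symm (G y)) x := by
    refine LD.comp_fun (g := KH.symm) (hKs _) (hG x ?_)
    rintro ⟨w, hw, hwx⟩
    obtain ⟨u, hu, rfl⟩ := hκb hw
    apply hx
    show KH.symm (G x) ∈ V
    rw [← hwx, ← hKc, ← hKH, KH.symm_apply_apply]
    exact hεV hu
  exact h2

theorem final2 (M N : Type) [TopologicalSpace M] [CompactSpace M] [T2Space M]
    [ChartedSpace (E 4) M] [IsManifold (𝓡 4) ∞ M] [TopologicalSpace N] [CompactSpace N]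
    [T2Space N] [ChartedSpace (E 4) N] [IsManifold (𝓡 4) ∞ N] (d : ℕ) (b D : E 4 → N)
    (C : Fin d → E 4 → N) (γ : Fin d → ℝ → ℝ) (κ : ℂ → ℝ) (H : Pre N d b C γ D κ)
    (hD : ∀ V : Set N, IsOpen V → V.Nonempty → ∃ w, D w ∈ V) (f : M ≃ₜ N)
    (hf : Null2C (f '' Bad 4 f)) (V : Set N) (hV : IsOpen V) (hne : V.Nonempty) :
    ∃ G : M ≃ₜ N, ∀ x, G x ∉ V → LD 4 G x := by
  have hH := H.hand
  obtain ⟨G, hG⟩ := final M N d b _ _ hH f hf (D '' ball 0 1) (by
    show D '' ball 0 1 ∈ 𝓝 (D (cm κ 0))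
    have h0 : cm κ 0 = 0 := by
      refine ext_c ?_ ?_
      · rw [c1_cm]
        have : c1 (0 : E 4) = 0 := by simp [c1]
        rw [this, smul_zero]
      · rw [c2_cm]
    rw [h0]
    exact (isOpen_image_of_LD isOpen_ball fun z _ => H.D_ld z).mem_nhds
      ⟨0, mem_ball_self one_pos, rfl⟩)
  obtain ⟨w, hw⟩ := hD V hV hne
  exact shrink2 D H.D_inj H.D_ld G 1 (fun x hx => hG x fun h => hx (image_mono ball_subset_closedBall h))
    V w (hV.mem_nhds hw)

/-- generic points -/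
theorem exists_generic {O : Set (E 4)} (hO : IsOpen O) (hne : O.Nonempty) :
    ∃ z ∈ O, c1 z ≠ 0 ∧ c2 z ≠ 0 := by
  obtain ⟨z₀, hz₀⟩ := hne
  have hcont : Continuous fun s : ℝ => z₀ + s • pt 1 1 := by fun_prop
  have h1 : (fun s : ℝ => z₀ + s • pt 1 1) ⁻¹' O ∈ 𝓝 (0 : ℝ) := by
    refine hcont.continuousAt ?_
    simp only [zero_smul, add_zero]
    exact hO.mem_nhds hz₀
  obtain ⟨ε, hε, hεO⟩ := Metric.mem_nhds_iff.1 h1
  have hinf : (Ioo (0 : ℝ) ε).Infinite := Ioo_infinite hε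
  have hfin : ({-(c1 z₀).re, -(c2 z₀).re} : Set ℝ).Finite := by simp
  obtain ⟨s, hs, hs2⟩ := hinf.exists_notMem_finite hfin
  have e1 : c1 (z₀ + s • pt 1 1) = c1 z₀ + s := by
    refine Complex.ext ?_ ?_
    · rw [c1_re, Complex.add_re, c1_re]
      simp [pt]
    · rw [c1_im, Complex.add_im, c1_im]
      simp [pt]
  have e2 : c2 (z₀ + s • pt 1 1) = c2 z₀ + s := by
    refine Complex.ext ?_ ?_
    · rw [c2_re, Complex.add_re, c2_re]
      simp [pt]
    · rw [c2_im, Complex.add_im, c2_im]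
      simp [pt]
  simp only [mem_insert_iff, mem_singleton_iff, not_or] at hs2
  refine ⟨z₀ + s • pt 1 1, hεO ?_, fun h => ?_, fun h => ?_⟩
  · rw [mem_ball, Real.dist_eq, sub_zero, abs_of_pos hs.1]
    exact hs.2
  · rw [e1] at h
    have := congrArg Complex.re h
    simp only [Complex.add_re, Complex.ofReal_re, Complex.zero_re] at this
    exact hs2.1 (by linarith)
  · rw [e2] at h
    have := congrArg Complex.re h
    simp only [Complex.add_re, Complex.ofReal_re, Complex.zero_re] at this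
    exact hs2.2 (by linarith)

theorem via_chart {N : Type} [TopologicalSpace N] [ChartedSpace (E 4) N] {a D : E 4 → N}
    (ha : ∀ z, LD 4 a z) (h : ∀ z, c1 z ≠ 0 → c2 z ≠ 0 → ∃ w, D w = a z) {V : Set N}
    (hV : IsOpen V) {z₀ : E 4} (hz₀ : a z₀ ∈ V) : ∃ w, D w ∈ V := by
  have hc : Continuous a := continuous_iff_continuousAt.2 fun z => (ha z).continuousAt
  obtain ⟨z, hz, h1, h2⟩ := exists_generic (hV.preimage hc) ⟨z₀, hz₀⟩
  obtain ⟨w, hw⟩ := h z h1 h2
  exact ⟨w, by rw [hw]; exact hz⟩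

theorem IsCP2.dense {N : Type} [TopologicalSpace N] [ChartedSpace (E 4) N] {π : ℂ × ℂ × ℂ → N}
    (H : IsCP2 N π) (V : Set N) (hV : IsOpen V) (hne : V.Nonempty) :
    ∃ w : E 4, π (c1 w, c2 w, 1) ∈ V := by
  obtain ⟨y, hy⟩ := hne
  obtain ⟨⟨v0, v1, v2⟩, hv, rfl⟩ := H.surj y
  by_cases h2 : v2 = 0
  · by_cases h0 : v0 = 0
    · have h1 : v1 ≠ 0 := fun h => hv (by rw [h0, h, h2]; rfl)
      refine via_chart (D := fun w : E 4 => π (c1 w, c2 w, 1)) H.chart1 (fun z hz1 hz2 => ?_) hV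
        (z₀ := pt (v0 / v1) (v2 / v1)) ?_
      · refine ⟨pt (c1 z / c2 z) (1 / c2 z), ?_⟩
        show π (c1 (pt (c1 z / c2 z) (1 / c2 z)), c2 (pt (c1 z / c2 z) (1 / c2 z)), 1) = _
        rw [c1_pt, c2_pt]
        refine (H.fibre _ _ (IsCP2.ne2 _ _) (IsCP2.ne1 _ _)).2 ⟨c2 z, ?_⟩
        simp only [Prod.smul_mk, smul_eq_mul, mul_one]
        rw [mul_div_cancel₀ _ hz2, mul_div_cancel₀ _ hz2]
      · show π (c1 (pt (v0 / v1) (v2 / v1)), 1, c2 (pt (v0 / v1) (v2 / v1))) ∈ V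
        rw [c1_pt, c2_pt]
        have : π (v0 / v1, 1, v2 / v1) = π (v0, v1, v2) := by
          refine (H.fibre _ _ (IsCP2.ne1 _ _) hv).2 ⟨v1, ?_⟩
          simp only [Prod.smul_mk, smul_eq_mul, mul_one]
          rw [mul_div_cancel₀ _ h1, mul_div_cancel₀ _ h1]
        rw [this]
        exact hy
    · refine via_chart (D := fun w : E 4 => π (c1 w, c2 w, 1)) H.chart0 (fun z hz1 hz2 => ?_) hV
        (z₀ := pt (v1 / v0) (v2 / v0)) ?_
      · refine ⟨pt (1 / c2 z) (c1 z / c2 z), ?_⟩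
        show π (c1 (pt (1 / c2 z) (c1 z / c2 z)), c2 (pt (1 / c2 z) (c1 z / c2 z)), 1) = _
        rw [c1_pt, c2_pt]
        refine (H.fibre _ _ (IsCP2.ne2 _ _) (IsCP2.ne0 _ _)).2 ⟨c2 z, ?_⟩
        simp only [Prod.smul_mk, smul_eq_mul, mul_one]
        rw [mul_div_cancel₀ _ hz2, mul_div_cancel₀ _ hz2]
      · show π (1, c1 (pt (v1 / v0) (v2 / v0)), c2 (pt (v1 / v0) (v2 / v0))) ∈ V
        rw [c1_pt, c2_pt]
        have : π (1, v1 / v0, v2 / v0) = π (v0, v1, v2) := by
          refine (H.fibre _ _ (IsCP2.ne0 _ _) hv).2 ⟨v0, ?_⟩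
          simp only [Prod.smul_mk, smul_eq_mul, mul_one]
          rw [mul_div_cancel₀ _ h0, mul_div_cancel₀ _ h0]
        rw [this]
        exact hy
  · refine ⟨pt (v0 / v2) (v1 / v2), ?_⟩
    rw [c1_pt, c2_pt]
    have : π (v0 / v2, v1 / v2, 1) = π (v0, v1, v2) := by
      refine (H.fibre _ _ (IsCP2.ne2 _ _) hv).2 ⟨v2, ?_⟩
      simp only [Prod.smul_mk, smul_eq_mul, mul_one]
      rw [mul_div_cancel₀ _ h2, mul_div_cancel₀ _ h2]
    rw [this]
    exact hy

theorem IsF.dense {m : ℕ} {N : Type} [TopologicalSpace N] [ChartedSpace (E 4) N]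
    {π : (ℂ × ℂ) × (ℂ × ℂ) → N} (H : IsF m N π) (V : Set N) (hV : IsOpen V) (hne : V.Nonempty) :
    ∃ z : E 4, π ((c1 z, 1), (c2 z, 1)) ∈ V := by
  obtain ⟨y, hy⟩ := hne
  obtain ⟨⟨u0, u1⟩, ⟨w0, w1⟩, hu, hw, rfl⟩ := H.surj y
  by_cases hu1 : u1 = 0
  · have hu0 : u0 ≠ 0 := fun h => hu (by rw [h, hu1]; rfl)
    by_cases hw1 : w1 = 0
    · have hw0 : w0 ≠ 0 := fun h => hw (by rw [h, hw1]; rfl)
      refine via_chart (D := fun z : E 4 => π ((c1 z, 1), (c2 z, 1))) H.chart00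
        (fun z hz1 hz2 => ?_) hV (z₀ := pt (u1 / u0) 0) ?_
      · refine ⟨pt (1 / c1 z) (c1 z ^ m / c2 z), ?_⟩
        show π ((c1 (pt (1 / c1 z) (c1 z ^ m / c2 z)), 1),
          (c2 (pt (1 / c1 z) (c1 z ^ m / c2 z)), 1)) = _
        rw [c1_pt, c2_pt]
        have e := pow_ne_zero m hz1
        refine (H.fibre _ _ _ _ (IsF.nr _) (IsF.nr _) (IsF.nl _) (IsF.nl _)).2
          ⟨c1 z, c2 z / c1 z ^ m, ?_, ?_⟩
        · refine Prod.ext ?_ ?_
          · show (1 : ℂ) = c1 z * (1 / c1 z)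
            field_simp
          · show c1 z = c1 z * 1
            ring
        · refine Prod.ext ?_ ?_
          · show (1 : ℂ) = c2 z / c1 z ^ m * (c1 z ^ m / c2 z)
            field_simp
          · show c2 z = c2 z / c1 z ^ m * c1 z ^ m * 1
            field_simp
      · show π ((1, c1 (pt (u1 / u0) 0)), (1, c2 (pt (u1 / u0) 0))) ∈ V
        rw [c1_pt, c2_pt]
        have : π ((1, u1 / u0), (1, 0)) = π ((u0, u1), (w0, w1)) := by
          refine (H.fibre _ _ _ _ (IsF.nl _) (IsF.nl _) hu hw).2 ⟨u0, w0, ?_, ?_⟩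
          · refine Prod.ext ?_ ?_
            · show u0 = u0 * 1
              ring
            · show u1 = u0 * (u1 / u0)
              field_simp
          · refine Prod.ext ?_ ?_
            · show w0 = w0 * 1
              ring
            · show w1 = w0 * u0 ^ m * 0
              rw [hw1]
              ring
        rw [this]
        exact hy
    · refine via_chart (D := fun z : E 4 => π ((c1 z, 1), (c2 z, 1))) H.chart01
        (fun z hz1 hz2 => ?_) hV (z₀ := pt (u1 / u0) (u0 ^ m * w0 / w1)) ?_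
      · refine ⟨pt (1 / c1 z) (c1 z ^ m * c2 z), ?_⟩
        show π ((c1 (pt (1 / c1 z) (c1 z ^ m * c2 z)), 1),
          (c2 (pt (1 / c1 z) (c1 z ^ m * c2 z)), 1)) = _
        rw [c1_pt, c2_pt]
        have e := pow_ne_zero m hz1
        refine (H.fibre _ _ _ _ (IsF.nr _) (IsF.nr _) (IsF.nl _) (IsF.nr _)).2
          ⟨c1 z, 1 / c1 z ^ m, ?_, ?_⟩
        · refine Prod.ext ?_ ?_
          · show (1 : ℂ) = c1 z * (1 / c1 z)
            field_simp
          · show c1 z = c1 z * 1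
            ring
        · refine Prod.ext ?_ ?_
          · show c2 z = 1 / c1 z ^ m * (c1 z ^ m * c2 z)
            field_simp
          · show (1 : ℂ) = 1 / c1 z ^ m * c1 z ^ m * 1
            field_simp
      · show π ((1, c1 (pt (u1 / u0) (u0 ^ m * w0 / w1))),
          (c2 (pt (u1 / u0) (u0 ^ m * w0 / w1)), 1)) ∈ V
        rw [c1_pt, c2_pt]
        have e := pow_ne_zero m hu0
        have : π ((1, u1 / u0), (u0 ^ m * w0 / w1, 1)) = π ((u0, u1), (w0, w1)) := by
          refine (H.fibre _ _ _ _ (IsF.nl _) (IsF.nr _) hu hw).2 ⟨u0, w1 / u0 ^ m, ?_, ?_⟩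
          · refine Prod.ext ?_ ?_
            · show u0 = u0 * 1
              ring
            · show u1 = u0 * (u1 / u0)
              field_simp
          · refine Prod.ext ?_ ?_
            · show w0 = w1 / u0 ^ m * (u0 ^ m * w0 / w1)
              field_simp
            · show w1 = w1 / u0 ^ m * u0 ^ m * 1
              field_simp
        rw [this]
        exact hy
  · by_cases hw1 : w1 = 0
    · have hw0 : w0 ≠ 0 := fun h => hw (by rw [h, hw1]; rfl)
      refine via_chart (D := fun z : E 4 => π ((c1 z, 1), (c2 z, 1))) H.chart10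
        (fun z hz1 hz2 => ?_) hV (z₀ := pt (u0 / u1) 0) ?_
      · refine ⟨pt (c1 z) (1 / c2 z), ?_⟩
        show π ((c1 (pt (c1 z) (1 / c2 z)), 1), (c2 (pt (c1 z) (1 / c2 z)), 1)) = _
        rw [c1_pt, c2_pt]
        refine (H.fibre _ _ _ _ (IsF.nr _) (IsF.nr _) (IsF.nr _) (IsF.nl _)).2
          ⟨1, c2 z, ?_, ?_⟩
        · refine Prod.ext ?_ ?_
          · show c1 z = 1 * c1 z
            ring
          · show (1 : ℂ) = 1 * 1
            ring
        · refine Prod.ext ?_ ?_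
          · show (1 : ℂ) = c2 z * (1 / c2 z)
            field_simp
          · show c2 z = c2 z * 1 ^ m * 1
            rw [one_pow]
            ring
      · show π ((c1 (pt (u0 / u1) 0), 1), (1, c2 (pt (u0 / u1) 0))) ∈ V
        rw [c1_pt, c2_pt]
        have : π ((u0 / u1, 1), (1, 0)) = π ((u0, u1), (w0, w1)) := by
          refine (H.fibre _ _ _ _ (IsF.nr _) (IsF.nl _) hu hw).2 ⟨u1, w0, ?_, ?_⟩
          · refine Prod.ext ?_ ?_
            · show u0 = u1 * (u0 / u1)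
              field_simp
            · show u1 = u1 * 1
              ring
          · refine Prod.ext ?_ ?_
            · show w0 = w0 * 1
              ring
            · show w1 = w0 * u1 ^ m * 0
              rw [hw1]
              ring
        rw [this]
        exact hy
    · refine ⟨pt (u0 / u1) (u1 ^ m * w0 / w1), ?_⟩
      rw [c1_pt, c2_pt]
      have e := pow_ne_zero m hu1
      have : π ((u0 / u1, 1), (u1 ^ m * w0 / w1, 1)) = π ((u0, u1), (w0, w1)) := by
        refine (H.fibre _ _ _ _ (IsF.nr _) (IsF.nr _) hu hw).2 ⟨u1, w1 / u1 ^ m, ?_, ?_⟩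
        · refine Prod.ext ?_ ?_
          · show u0 = u1 * (u0 / u1)
            field_simp
          · show u1 = u1 * 1
            ring
        · refine Prod.ext ?_ ?_
          · show w0 = w1 / u1 ^ m * (u1 ^ m * w0 / w1)
            field_simp
          · show w1 = w1 / u1 ^ m * u1 ^ m * 1
            field_simp
      rw [this]
      exact hy

end Pool.Agent.L7h32.KS
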