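import Pool.Agent.L7h32.KS.Pre

/-!
# Project KS: the handle decompositions of `S² × S²` and of the blowup of `CP²`
-/

set_option autoImplicit false

open Set Filter Topology Metric Function
open scoped Manifold ContDiff

noncomputable section

namespace Pool.Agent.L7h32.KS

open Pool.Agent.Y522 Pool.Agent.N550.KH Pool.Agent.N550.SH.Moeb

/-- `N` is the Hirzebruch surface `F_m`, with homogeneous coordinates `π (u, w)` -/
structure IsF (m : ℕ) (N : Type) [TopologicalSpace N] [ChartedSpace (E 4) N]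
    (π : (ℂ × ℂ) × (ℂ × ℂ) → N) : Prop where
  surj : ∀ y, ∃ u w, u ≠ 0 ∧ w ≠ 0 ∧ π (u, w) = y
  fibre : ∀ u w u' w' : ℂ × ℂ, u ≠ 0 → w ≠ 0 → u' ≠ 0 → w' ≠ 0 →
    (π (u, w) = π (u', w') ↔ ∃ a b : ℂ, u' = (a * u.1, a * u.2) ∧
      w' = (b * w.1, b * a ^ m * w.2))
  chart00 : ∀ z, LD 4 (fun z : E 4 => π ((1, c1 z), (1, c2 z))) z
  chart01 : ∀ z, LD 4 (fun z : E 4 => π ((1, c1 z), (c2 z, 1))) z
  chart10 : ∀ z, LD 4 (fun z : E 4 => π ((c1 z, 1), (1, c2 z))) z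
  chart11 : ∀ z, LD 4 (fun z : E 4 => π ((c1 z, 1), (c2 z, 1))) z

/-- exchange of the coordinates -/
def sw (z : E 4) : E 4 := pt (c2 z) (c1 z)

theorem sw_sw (z : E 4) : sw (sw z) = z := by
  rw [sw, sw, c1_pt, c2_pt, pt_c]

theorem sw_ld (z : E 4) : LD 4 sw z := by
  refine LD_of_left (g := sw) (Eventually.of_forall fun y => ?_) ?_
    (Eventually.of_forall fun y => sw_sw y)
  · exact pt_contDiffAt c2_contDiff.contDiffAt c1_contDiff.contDiffAt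
  · exact (pt_contDiffAt c2_contDiff.contDiffAt c1_contDiff.contDiffAt).differentiableAt (by simp)

namespace IsF

variable {m : ℕ} {N : Type} [TopologicalSpace N] [ChartedSpace (E 4) N]
  {π : (ℂ × ℂ) × (ℂ × ℂ) → N}

theorem nl (x : ℂ) : ((1, x) : ℂ × ℂ) ≠ 0 := fun h => one_ne_zero (congrArg Prod.fst h)

theorem nr (x : ℂ) : ((x, 1) : ℂ × ℂ) ≠ 0 := fun h => one_ne_zero (congrArg Prod.snd h)

/-- the second handle chart -/
theorem ld_sw (H : IsF m N π) (z : E 4) : LD 4 (fun z : E 4 => π ((1, c2 z), (c1 z, 1))) z := by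
  have h := LD.comp_fun (g := fun z : E 4 => π ((1, c1 z), (c2 z, 1))) (f := sw) (H.chart01 _)
    (sw_ld z)
  refine h.congr (Eventually.of_forall fun y => ?_)
  show π ((1, c2 y), (c1 y, 1)) = π ((1, c1 (sw y)), (c2 (sw y), 1))
  rw [sw, c1_pt, c2_pt]

theorem inj00 (H : IsF m N π) : Injective fun z : E 4 => π ((1, c1 z), (1, c2 z)) := by
  intro x y h
  obtain ⟨a, b, h1, h2⟩ := (H.fibre _ _ _ _ (nl _) (nl _) (nl _) (nl _)).1 h
  simp only [mul_one, Prod.mk.injEq] at h1 h2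
  obtain ⟨h3, h4⟩ := h1
  obtain ⟨h5, h6⟩ := h2
  rw [← h3, one_mul] at h4
  rw [← h5, ← h3, one_pow, mul_one, one_mul] at h6
  exact ext_c h4.symm h6.symm

theorem inj10 (H : IsF m N π) : Injective fun z : E 4 => π ((c1 z, 1), (1, c2 z)) := by
  intro x y h
  obtain ⟨a, b, h1, h2⟩ := (H.fibre _ _ _ _ (nr _) (nl _) (nr _) (nl _)).1 h
  simp only [mul_one, Prod.mk.injEq] at h1 h2
  obtain ⟨h3, h4⟩ := h1
  obtain ⟨h5, h6⟩ := h2
  rw [← h4, one_mul] at h3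
  rw [← h5, ← h4, one_pow, mul_one, one_mul] at h6
  exact ext_c h3.symm h6.symm

theorem inj01 (H : IsF m N π) : Injective fun z : E 4 => π ((1, c2 z), (c1 z, 1)) := by
  intro x y h
  obtain ⟨a, b, h1, h2⟩ := (H.fibre _ _ _ _ (nl _) (nr _) (nl _) (nr _)).1 h
  simp only [mul_one, Prod.mk.injEq] at h1 h2
  obtain ⟨h3, h4⟩ := h1
  obtain ⟨h5, h6⟩ := h2
  rw [← h3, one_mul] at h4
  rw [← h3, one_pow, mul_one] at h6
  rw [← h6, one_mul] at h5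
  exact ext_c h5.symm h4.symm

theorem inj11 (H : IsF m N π) : Injective fun z : E 4 => π ((c1 z, 1), (c2 z, 1)) := by
  intro x y h
  obtain ⟨a, b, h1, h2⟩ := (H.fibre _ _ _ _ (nr _) (nr _) (nr _) (nr _)).1 h
  simp only [mul_one, Prod.mk.injEq] at h1 h2
  obtain ⟨h3, h4⟩ := h1
  obtain ⟨h5, h6⟩ := h2
  rw [← h4, one_mul] at h3
  rw [← h4, one_pow, mul_one] at h6
  rw [← h6, one_mul] at h5
  exact ext_c h3.symm h5.symm

/-- the core of the first handle -/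
theorem core0_iff (H : IsF m N π) {u w : ℂ × ℂ} (hu : u ≠ 0) (hw : w ≠ 0) :
    (∃ z, c2 z = 0 ∧ ‖c1 z‖ ≤ 1 ∧ π ((c1 z, 1), (1, c2 z)) = π (u, w)) ↔
      w.2 = 0 ∧ ‖u.1‖ ≤ ‖u.2‖ := by
  obtain ⟨u0, u1⟩ := u
  obtain ⟨w0, w1⟩ := w
  constructor
  · rintro ⟨z, hz, hz1, hzv⟩
    obtain ⟨a, b, h1, h2⟩ := (H.fibre _ _ _ _ (nr _) (nl _) hu hw).1 hzv
    simp only [mul_one, Prod.mk.injEq] at h1 h2
    obtain ⟨h3, h4⟩ := h1
    obtain ⟨h5, h6⟩ := h2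
    simp only [h3, h4, h6, hz, mul_zero, norm_mul]
    exact ⟨trivial, mul_le_of_le_one_right (norm_nonneg _) hz1⟩
  · rintro ⟨h1, h2⟩
    simp only at h1 h2
    subst h1
    have hu1 : u1 ≠ 0 := by
      rintro rfl
      rw [norm_zero] at h2
      have a1 := norm_le_zero_iff.1 h2
      exact hu (by rw [a1]; rfl)
    refine ⟨pt (u0 / u1) 0, c2_pt _ _, ?_, ?_⟩
    · rw [c1_pt, norm_div, div_le_one (norm_pos_iff.2 hu1)]
      exact h2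
    · rw [c1_pt, c2_pt]
      refine (H.fibre _ _ _ _ (nr _) (nl _) hu hw).2 ⟨u1, w0, ?_, ?_⟩
      · simp only [mul_one]
        rw [mul_div_cancel₀ _ hu1]
      · simp only [mul_one, mul_zero]

/-- the core of the second handle -/
theorem core1_iff (H : IsF m N π) {u w : ℂ × ℂ} (hu : u ≠ 0) (hw : w ≠ 0) :
    (∃ z, c2 z = 0 ∧ ‖c1 z‖ ≤ 1 ∧ π ((1, c2 z), (c1 z, 1)) = π (u, w)) ↔
      u.2 = 0 ∧ ‖u.1‖ ^ m * ‖w.1‖ ≤ ‖w.2‖ := by
  obtain ⟨u0, u1⟩ := u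
  obtain ⟨w0, w1⟩ := w
  constructor
  · rintro ⟨z, hz, hz1, hzv⟩
    obtain ⟨a, b, h1, h2⟩ := (H.fibre _ _ _ _ (nl _) (nr _) hu hw).1 hzv
    simp only [mul_one, Prod.mk.injEq] at h1 h2
    obtain ⟨h3, h4⟩ := h1
    obtain ⟨h5, h6⟩ := h2
    simp only [h3, h4, h5, h6, hz, mul_zero, norm_mul, norm_pow]
    refine ⟨trivial, ?_⟩
    have : ‖a‖ ^ m * (‖b‖ * ‖c1 z‖) = (‖b‖ * ‖a‖ ^ m) * ‖c1 z‖ := by ring
    rw [this]
    exact mul_le_of_le_one_right (by positivity) hz1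
  · rintro ⟨h1, h2⟩
    simp only at h1 h2
    subst h1
    have hu0 : u0 ≠ 0 := by
      rintro rfl
      exact hu rfl
    have hu0m : 0 < ‖u0‖ ^ m := by positivity
    have hw1 : w1 ≠ 0 := by
      rintro rfl
      rw [norm_zero] at h2
      have a1 : ‖w0‖ ≤ 0 := by
        by_contra hcon
        push Not at hcon
        nlinarith [mul_pos hu0m hcon]
      exact hw (by rw [norm_le_zero_iff.1 a1]; rfl)
    refine ⟨pt (u0 ^ m * w0 / w1) 0, c2_pt _ _, ?_, ?_⟩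
    · rw [c1_pt, norm_div, norm_mul, norm_pow, div_le_one (norm_pos_iff.2 hw1)]
      exact h2
    · rw [c1_pt, c2_pt]
      refine (H.fibre _ _ _ _ (nl _) (nr _) hu hw).2 ⟨u0, w1 / u0 ^ m, ?_, ?_⟩
      · simp only [mul_one, mul_zero]
      · simp only [mul_one]
        have e := pow_ne_zero m hu0
        refine Prod.ext ?_ ?_
        · show w0 = w1 / u0 ^ m * (u0 ^ m * w0 / w1)
          field_simp
        · show w1 = w1 / u0 ^ m * u0 ^ m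
          field_simp

/-- the two handles are disjoint -/
theorem dis_aux (H : IsF m N π) {z w : E 4} (hz : ‖c1 z‖ ^ 2 < 4) (hw : ‖c2 w‖ ^ 2 < 1 / 4) :
    π ((c1 z, 1), (1, c2 z)) ≠ π ((1, c2 w), (c1 w, 1)) := by
  intro h
  obtain ⟨a, b, h1, -⟩ := (H.fibre _ _ _ _ (nr _) (nl _) (nl _) (nr _)).1 h
  simp only [mul_one, Prod.mk.injEq] at h1
  obtain ⟨h3, h4⟩ := h1
  rw [← h4] at h3
  have h5 := congrArg (fun x : ℂ => ‖x‖ ^ 2) h3
  simp only [norm_one, one_pow, norm_mul, mul_pow] at h5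
  nlinarith [sq_nonneg ‖c1 z‖, sq_nonneg ‖c2 w‖]

/-- the handle charts -/
def hc (π : (ℂ × ℂ) × (ℂ × ℂ) → N) (i : Fin 2) (z : E 4) : N :=
  if i = 0 then π ((c1 z, 1), (1, c2 z)) else π ((1, c2 z), (c1 z, 1))

theorem hc0 (π : (ℂ × ℂ) × (ℂ × ℂ) → N) : hc π 0 = fun z => π ((c1 z, 1), (1, c2 z)) :=
  funext fun _ => if_pos rfl

theorem hc1 (π : (ℂ × ℂ) × (ℂ × ℂ) → N) : hc π 1 = fun z => π ((1, c2 z), (c1 z, 1)) :=
  funext fun _ => if_neg (by decide)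

theorem hc_inj (H : IsF m N π) (i : Fin 2) : Injective (hc π i) := by
  fin_cases i
  · show Injective (hc π 0)
    rw [hc0]
    exact H.inj10
  · show Injective (hc π 1)
    rw [hc1]
    exact H.inj01

theorem hc_ld (H : IsF m N π) (i : Fin 2) (z : E 4) : LD 4 (hc π i) z := by
  fin_cases i
  · show LD 4 (hc π 0) z
    rw [hc0]
    exact H.chart10 z
  · show LD 4 (hc π 1) z
    rw [hc1]
    exact H.ld_sw z

theorem core_all (H : IsF m N π) {u w : ℂ × ℂ} (hu : u ≠ 0) (hw : w ≠ 0) :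
    (∀ (i : Fin 2) z, c2 z = 0 → ‖c1 z‖ ≤ 1 → hc π i z ≠ π (u, w)) ↔
      ¬ (w.2 = 0 ∧ ‖u.1‖ ≤ ‖u.2‖) ∧ ¬ (u.2 = 0 ∧ ‖u.1‖ ^ m * ‖w.1‖ ≤ ‖w.2‖) := by
  rw [← H.core0_iff hu hw, ← H.core1_iff hu hw]
  constructor
  · intro h
    refine ⟨?_, ?_⟩
    · rintro ⟨z, hz, hz1, hzv⟩
      exact h 0 z hz hz1 (by rw [hc0]; exact hzv)
    · rintro ⟨z, hz, hz1, hzv⟩
      exact h 1 z hz hz1 (by rw [hc1]; exact hzv)
  · rintro ⟨h1, h2⟩ i z hz hz1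
    fin_cases i
    · show hc π 0 z ≠ _
      rw [hc0]
      exact fun hzv => h1 ⟨z, hz, hz1, hzv⟩
    · show hc π 1 z ≠ _
      rw [hc1]
      exact fun hzv => h2 ⟨z, hz, hz1, hzv⟩

theorem hc_dis (H : IsF m N π) {γ : Fin 2 → ℝ → ℝ}
    (hγ : ∀ i τ, 0 ≤ τ → τ < 1 / 4 → 2 * γ i τ ^ 2 < 4) (i j : Fin 2) (z w : E 4) (hij : i ≠ j)
    (hz2 : ‖c2 z‖ ^ 2 < 1 / 4) (hz1 : ‖c1 z‖ ^ 2 < 2 * γ i (‖c2 z‖ ^ 2) ^ 2)
    (hw2 : ‖c2 w‖ ^ 2 < 1 / 4) (hw1 : ‖c1 w‖ ^ 2 < 2 * γ j (‖c2 w‖ ^ 2) ^ 2) :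
    hc π i z ≠ hc π j w := by
  have hz := hz1.trans (hγ i _ (sq_nonneg _) hz2)
  have hw := hw1.trans (hγ j _ (sq_nonneg _) hw2)
  fin_cases i <;> fin_cases j
  · exact absurd rfl hij
  · show hc π 0 z ≠ hc π 1 w
    rw [hc0, hc1]
    exact H.dis_aux hz hw2
  · show hc π 1 z ≠ hc π 0 w
    rw [hc0, hc1]
    exact fun h => H.dis_aux hw hz2 h.symm
  · exact absurd rfl hij

end IsF

end Pool.Agent.L7h32.KS
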