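import Pool.Agent.L7h32.KS.Hz

/-!
# Project KS: the handle decompositions of `S² × S²` and of the blowup of `CP²`, the end
-/

set_option autoImplicit false

open Set Filter Topology Metric Function
open scoped Manifold ContDiff

noncomputable section

namespace Pool.Agent.L7h32.KS

open Pool.Agent.Y522 Pool.Agent.N550.KH Pool.Agent.N550.SH.Moeb

namespace IsF

variable {N : Type} [TopologicalSpace N] [ChartedSpace (E 4) N]
  {π : (ℂ × ℂ) × (ℂ × ℂ) → N}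

/-! ### The product `S² × S²` -/

/-- the shape of the 0-handle -/
def b0 (z : E 4) : E 4 := pt (c1 z) ((√(1 + ‖c1 z‖ ^ 2))⁻¹ • c2 z)

/-- the inverse -/
def b0Inv (z : E 4) : E 4 := pt (c1 z) (√(1 + ‖c1 z‖ ^ 2) • c2 z)

theorem b0Inv_b0 (z : E 4) : b0Inv (b0 z) = z := by
  have h : √(1 + ‖c1 z‖ ^ 2) ≠ 0 := (Real.sqrt_pos.2 (one_add_pos _)).ne'
  rw [b0Inv, b0, c1_pt, c2_pt, smul_smul, mul_inv_cancel₀ h, one_smul, pt_c]

theorem b0_b0Inv (z : E 4) : b0 (b0Inv z) = z := by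
  have h : √(1 + ‖c1 z‖ ^ 2) ≠ 0 := (Real.sqrt_pos.2 (one_add_pos _)).ne'
  rw [b0Inv, b0, c1_pt, c2_pt, smul_smul, inv_mul_cancel₀ h, one_smul, pt_c]

theorem b0_ld (z : E 4) : LD 4 b0 z := by
  have h1 : ContDiff ℝ ∞ fun z : E 4 => √(1 + ‖c1 z‖ ^ 2) :=
    (contDiff_const.add n1_contDiff).sqrt fun z => (one_add_pos _).ne'
  refine LD_of_left (g := b0Inv) (Eventually.of_forall fun y => ?_) ?_
    (Eventually.of_forall fun y => b0Inv_b0 y)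
  · exact pt_contDiffAt c1_contDiff.contDiffAt
      ((h1.inv fun z => (Real.sqrt_pos.2 (one_add_pos _)).ne').smul c2_contDiff).contDiffAt
  · exact (pt_contDiffAt c1_contDiff.contDiffAt (h1.smul c2_contDiff).contDiffAt).differentiableAt
      (by simp)

theorem ball0_iff (H : IsF 0 N π) {u w : ℂ × ℂ} (hu : u ≠ 0) (hw : w ≠ 0) :
    π (u, w) ∈ (fun z : E 4 => π ((1, c1 (b0 z)), (1, c2 (b0 z)))) '' closedBall 0 1 ↔
      (‖u.1‖ ^ 2 + ‖u.2‖ ^ 2) * (‖w.1‖ ^ 2 + ‖w.2‖ ^ 2) ≤ 2 * (‖u.1‖ ^ 2 * ‖w.1‖ ^ 2) := by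
  obtain ⟨u0, u1⟩ := u
  obtain ⟨w0, w1⟩ := w
  constructor
  · rintro ⟨z, hz, hzv⟩
    obtain ⟨a, b, h1, h2⟩ := (H.fibre _ _ _ _ (nl _) (nl _) hu hw).1 hzv
    simp only [mul_one, pow_zero, Prod.mk.injEq] at h1 h2
    obtain ⟨h3, h4⟩ := h1
    obtain ⟨h5, h6⟩ := h2
    have hz' : ‖z‖ ≤ 1 := mem_closedBall_zero_iff.1 hz
    have e3 := norm_sq_c z
    have e4 : ‖z‖ ^ 2 ≤ 1 := (sq_le_one_iff₀ (norm_nonneg _)).2 hz'
    have e5 : c1 (b0 z) = c1 z := c1_pt _ _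
    have e6 : (1 + ‖c1 z‖ ^ 2) * ‖c2 (b0 z)‖ ^ 2 = ‖c2 z‖ ^ 2 := by
      rw [b0, c2_pt, norm_smul, mul_pow, Real.norm_eq_abs, sq_abs, inv_pow,
        Real.sq_sqrt (one_add_pos _).le, ← mul_assoc, mul_inv_cancel₀ (one_add_pos _).ne', one_mul]
    simp only [h3, h4, h5, h6, e5, norm_mul, mul_pow]
    have e7 : (1 + ‖c1 z‖ ^ 2) * (1 + ‖c2 (b0 z)‖ ^ 2) ≤ 2 := by nlinarith
    have e8 : 0 ≤ ‖a‖ ^ 2 * ‖b‖ ^ 2 := by positivity
    nlinarith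
  · intro h
    simp only at h
    have hu0 : u0 ≠ 0 := by
      rintro rfl
      have hu1 : u1 ≠ 0 := fun h => hu (by rw [h]; rfl)
      rw [norm_zero] at h
      have a0 : 0 < ‖u1‖ ^ 2 := by positivity
      have a1 : ‖w0‖ ^ 2 + ‖w1‖ ^ 2 ≤ 0 := by
        by_contra hcon
        push Not at hcon
        nlinarith [mul_pos a0 hcon]
      have a2 : ‖w0‖ ^ 2 = 0 := le_antisymm (by nlinarith [sq_nonneg ‖w1‖]) (sq_nonneg _)
      have a3 : ‖w1‖ ^ 2 = 0 := le_antisymm (by nlinarith [sq_nonneg ‖w0‖]) (sq_nonneg _)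
      rw [sq_eq_zero_iff, norm_eq_zero] at a2 a3
      exact hw (by rw [a2, a3]; rfl)
    have hw0 : w0 ≠ 0 := by
      rintro rfl
      have hw1 : w1 ≠ 0 := fun h => hw (by rw [h]; rfl)
      rw [norm_zero] at h
      have a0 : 0 < ‖w1‖ ^ 2 := by positivity
      have a4 : 0 < ‖u0‖ ^ 2 := by positivity
      nlinarith [mul_pos a4 a0, sq_nonneg ‖u1‖, mul_nonneg (sq_nonneg ‖u1‖) a0.le]
    have hn : 0 < ‖u0‖ ^ 2 := by positivity
    have hn' : 0 < ‖w0‖ ^ 2 := by positivity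
    refine ⟨b0Inv (pt (u1 / u0) (w1 / w0)), ?_, ?_⟩
    · rw [mem_closedBall_zero_iff, ← sq_le_one_iff₀ (norm_nonneg _), norm_sq_c, b0Inv, c1_pt,
        c2_pt, c1_pt, c2_pt, norm_smul, mul_pow, Real.norm_eq_abs, sq_abs,
        Real.sq_sqrt (one_add_pos _).le, norm_div, norm_div, div_pow, div_pow]
      have e1 : ‖u1‖ ^ 2 / ‖u0‖ ^ 2 + (1 + ‖u1‖ ^ 2 / ‖u0‖ ^ 2) * (‖w1‖ ^ 2 / ‖w0‖ ^ 2) =
          ((‖u0‖ ^ 2 + ‖u1‖ ^ 2) * (‖w0‖ ^ 2 + ‖w1‖ ^ 2) - ‖u0‖ ^ 2 * ‖w0‖ ^ 2) /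
            (‖u0‖ ^ 2 * ‖w0‖ ^ 2) := by
        field_simp
        ring
      rw [e1, div_le_one (by positivity)]
      linarith
    · show π ((1, c1 (b0 (b0Inv (pt (u1 / u0) (w1 / w0))))),
        (1, c2 (b0 (b0Inv (pt (u1 / u0) (w1 / w0)))))) = π ((u0, u1), (w0, w1))
      rw [b0_b0Inv, c1_pt, c2_pt]
      refine (H.fibre _ _ _ _ (nl _) (nl _) hu hw).2 ⟨u0, w0, ?_, ?_⟩
      · simp only [mul_one]
        rw [mul_div_cancel₀ _ hu0]
      · simp only [mul_one, pow_zero]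
        rw [mul_div_cancel₀ _ hw0]

/-- the curvature function of the cell -/
def k0 (t : ℂ) : ℝ := (‖t‖ ^ 2 - 1) / (1 + ‖t‖ ^ 2)

theorem cell0_iff (H : IsF 0 N π) {u w : ℂ × ℂ} (hu : u ≠ 0) (hw : w ≠ 0) :
    (∃ z, k0 (c2 z) * ‖c1 z‖ ^ 2 < 1 ∧ π ((c1 z, 1), (c2 z, 1)) = π (u, w)) ↔
      u.2 ≠ 0 ∧ w.2 ≠ 0 ∧
        2 * (‖u.1‖ ^ 2 * ‖w.1‖ ^ 2) < (‖u.1‖ ^ 2 + ‖u.2‖ ^ 2) * (‖w.1‖ ^ 2 + ‖w.2‖ ^ 2) := by
  obtain ⟨u0, u1⟩ := u
  obtain ⟨w0, w1⟩ := w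
  have hk : ∀ s t : ℂ, k0 t * ‖s‖ ^ 2 < 1 ↔
      2 * (‖s‖ ^ 2 * ‖t‖ ^ 2) < (‖s‖ ^ 2 + 1) * (‖t‖ ^ 2 + 1) := by
    intro s t
    rw [k0, div_mul_eq_mul_div, div_lt_one (one_add_pos _)]
    constructor <;> intro h <;> linarith
  constructor
  · rintro ⟨z, hz, hzv⟩
    rw [hk] at hz
    obtain ⟨a, b, h1, h2⟩ := (H.fibre _ _ _ _ (nr _) (nr _) hu hw).1 hzv
    simp only [mul_one, pow_zero, Prod.mk.injEq] at h1 h2
    obtain ⟨h3, h4⟩ := h1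
    obtain ⟨h5, h6⟩ := h2
    have ha0 : a ≠ 0 := by
      rintro rfl
      exact hu (by rw [h3, h4, zero_mul]; rfl)
    have hb0 : b ≠ 0 := by
      rintro rfl
      exact hw (by rw [h5, h6, zero_mul]; rfl)
    simp only [h3, h4, h5, h6, norm_mul, mul_pow]
    refine ⟨ha0, hb0, ?_⟩
    have : 0 < ‖a‖ ^ 2 * ‖b‖ ^ 2 := by positivity
    nlinarith
  · rintro ⟨h1, h2, h3⟩
    simp only at h1 h2 h3
    have hn : 0 < ‖u1‖ ^ 2 := by positivity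
    have hn' : 0 < ‖w1‖ ^ 2 := by positivity
    refine ⟨pt (u0 / u1) (w0 / w1), ?_, ?_⟩
    · rw [hk, c1_pt, c2_pt, norm_div, norm_div, div_pow, div_pow]
      have e1 : 2 * (‖u0‖ ^ 2 / ‖u1‖ ^ 2 * (‖w0‖ ^ 2 / ‖w1‖ ^ 2)) =
          2 * (‖u0‖ ^ 2 * ‖w0‖ ^ 2) / (‖u1‖ ^ 2 * ‖w1‖ ^ 2) := by
        field_simp
      have e2 : (‖u0‖ ^ 2 / ‖u1‖ ^ 2 + 1) * (‖w0‖ ^ 2 / ‖w1‖ ^ 2 + 1) =
          (‖u0‖ ^ 2 + ‖u1‖ ^ 2) * (‖w0‖ ^ 2 + ‖w1‖ ^ 2) / (‖u1‖ ^ 2 * ‖w1‖ ^ 2) := by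
        field_simp
      rw [e1, e2, div_lt_div_iff_of_pos_right (by positivity)]
      exact h3
    · rw [c1_pt, c2_pt]
      refine (H.fibre _ _ _ _ (nr _) (nr _) hu hw).2 ⟨u1, w1, ?_, ?_⟩
      · simp only [mul_one]
        rw [mul_div_cancel₀ _ h1]
      · simp only [mul_one, pow_zero]
        rw [mul_div_cancel₀ _ h2]

theorem pre0 (H : IsF 0 N π) : Pre N 2 (fun z => π ((1, c1 (b0 z)), (1, c2 (b0 z))))
    (hc π) (fun _ τ => √((1 + τ) / (1 - τ))) (fun z => π ((c1 z, 1), (c2 z, 1))) k0 where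
  b_inj := fun x y h => by
    rw [← b0Inv_b0 x, H.inj00 h, b0Inv_b0 y]
  b_ld := fun z => LD.comp_fun (g := fun z : E 4 => π ((1, c1 z), (1, c2 z))) (f := b0)
    (H.chart00 _) (b0_ld z)
  C_inj := H.hc_inj
  C_ld := H.hc_ld
  D_inj := H.inj11
  D_ld := H.chart11
  good := fun _ => good_div
  kap := (nsq_contDiff.sub contDiff_const).div (contDiff_const.add nsq_contDiff)
    fun t => (one_add_pos _).ne'
  att := fun i z hz => by
    have hz' : 0 < 1 - ‖c2 z‖ ^ 2 := by linarith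
    rw [Real.sqrt_le_left (norm_nonneg _), div_le_iff₀ hz']
    fin_cases i
    · show hc π 0 z ∈ _ ↔ _
      rw [hc0, H.ball0_iff (nr _) (nl _)]
      simp only [norm_one, one_pow, mul_one]
      constructor <;> intro h <;> linarith
    · show hc π 1 z ∈ _ ↔ _
      rw [hc1, H.ball0_iff (nl _) (nr _)]
      simp only [norm_one, one_pow, one_mul]
      constructor <;> intro h <;> linarith
  dis := fun i j z w hij h1 h2 h3 h4 => H.hc_dis (γ := fun _ τ => √((1 + τ) / (1 - τ)))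
    (fun _ τ h0 h1 => by
      have h2 : 0 < 1 - τ := by linarith
      rw [Real.sq_sqrt (by positivity), ← mul_div_assoc, div_lt_iff₀ h2]
      linarith) i j z w hij h1 h2 h3 h4
  cov := fun y => by
    obtain ⟨u, w, hu, hw, rfl⟩ := H.surj y
    rw [H.cell0_iff hu hw, H.ball0_iff hu hw, H.core_all hu hw]
    obtain ⟨u0, u1⟩ := u
    obtain ⟨w0, w1⟩ := w
    simp only [pow_zero, one_mul]
    constructor
    · rintro ⟨h1, h2, h3⟩
      exact ⟨not_le.2 h3, fun h => h2 h.1, fun h => h1 h.1⟩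
    · rintro ⟨h1, h2, h3⟩
      push Not at h1
      refine ⟨?_, ?_, h1⟩
      · rintro rfl
        apply h3
        refine ⟨rfl, ?_⟩
        rw [norm_zero] at h1
        have hu0 : u0 ≠ 0 := fun h => hu (by rw [h]; rfl)
        have a0 : 0 < ‖u0‖ ^ 2 := by positivity
        have a1 : ‖w0‖ ^ 2 < ‖w1‖ ^ 2 := by
          by_contra hcon
          push Not at hcon
          nlinarith
        exact (pow_lt_pow_iff_left₀ (norm_nonneg _) (norm_nonneg _) two_ne_zero).1 a1 |>.le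
      · rintro rfl
        apply h2
        refine ⟨rfl, ?_⟩
        rw [norm_zero] at h1
        have hw0 : w0 ≠ 0 := fun h => hw (by rw [h]; rfl)
        have a0 : 0 < ‖w0‖ ^ 2 := by positivity
        have a1 : ‖u0‖ ^ 2 < ‖u1‖ ^ 2 := by
          by_contra hcon
          push Not at hcon
          nlinarith
        exact (pow_lt_pow_iff_left₀ (norm_nonneg _) (norm_nonneg _) two_ne_zero).1 a1 |>.le

/-! ### The blowup of `CP²` -/

theorem ball1_iff (H : IsF 1 N π) {u w : ℂ × ℂ} (hu : u ≠ 0) (hw : w ≠ 0) :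
    π (u, w) ∈ (fun z : E 4 => π ((1, c1 z), (1, c2 z))) '' closedBall 0 1 ↔
      ‖u.2‖ ^ 2 * ‖w.1‖ ^ 2 + ‖w.2‖ ^ 2 ≤ ‖u.1‖ ^ 2 * ‖w.1‖ ^ 2 := by
  obtain ⟨u0, u1⟩ := u
  obtain ⟨w0, w1⟩ := w
  constructor
  · rintro ⟨z, hz, hzv⟩
    obtain ⟨a, b, h1, h2⟩ := (H.fibre _ _ _ _ (nl _) (nl _) hu hw).1 hzv
    simp only [mul_one, pow_one, Prod.mk.injEq] at h1 h2
    obtain ⟨h3, h4⟩ := h1
    obtain ⟨h5, h6⟩ := h2
    have hz' : ‖z‖ ≤ 1 := mem_closedBall_zero_iff.1 hz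
    have e3 := norm_sq_c z
    have e4 : ‖z‖ ^ 2 ≤ 1 := (sq_le_one_iff₀ (norm_nonneg _)).2 hz'
    simp only [h3, h4, h5, h6, norm_mul, mul_pow]
    have e8 : 0 ≤ ‖a‖ ^ 2 * ‖b‖ ^ 2 := by positivity
    nlinarith
  · intro h
    simp only at h
    have hw0 : w0 ≠ 0 := by
      rintro rfl
      rw [norm_zero] at h
      have a3 : ‖w1‖ ^ 2 = 0 := le_antisymm (by nlinarith) (sq_nonneg _)
      rw [sq_eq_zero_iff, norm_eq_zero] at a3
      exact hw (by rw [a3]; rfl)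
    have hn' : 0 < ‖w0‖ ^ 2 := by positivity
    have hu0 : u0 ≠ 0 := by
      rintro rfl
      rw [norm_zero] at h
      have hu1 : u1 ≠ 0 := fun h => hu (by rw [h]; rfl)
      have a0 : 0 < ‖u1‖ ^ 2 := by positivity
      nlinarith [mul_pos a0 hn', sq_nonneg ‖w1‖]
    have hn : 0 < ‖u0‖ ^ 2 := by positivity
    refine ⟨pt (u1 / u0) (w1 / (u0 * w0)), ?_, ?_⟩
    · rw [mem_closedBall_zero_iff, ← sq_le_one_iff₀ (norm_nonneg _), norm_sq_c, c1_pt, c2_pt,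
        norm_div, norm_div, norm_mul, div_pow, div_pow, mul_pow]
      have e1 : ‖u1‖ ^ 2 / ‖u0‖ ^ 2 + ‖w1‖ ^ 2 / (‖u0‖ ^ 2 * ‖w0‖ ^ 2) =
          (‖u1‖ ^ 2 * ‖w0‖ ^ 2 + ‖w1‖ ^ 2) / (‖u0‖ ^ 2 * ‖w0‖ ^ 2) := by
        field_simp
      rw [e1, div_le_one (by positivity)]
      exact h
    · show π ((1, c1 (pt (u1 / u0) (w1 / (u0 * w0)))), (1, c2 (pt (u1 / u0) (w1 / (u0 * w0))))) =
        π ((u0, u1), (w0, w1))
      rw [c1_pt, c2_pt]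
      refine (H.fibre _ _ _ _ (nl _) (nl _) hu hw).2 ⟨u0, w0, ?_, ?_⟩
      · simp only [mul_one]
        rw [mul_div_cancel₀ _ hu0]
      · simp only [mul_one, pow_one]
        refine Prod.ext rfl ?_
        show w1 = w0 * u0 * (w1 / (u0 * w0))
        field_simp

/-- the curvature function of the cell -/
def k1 (t : ℂ) : ℝ := ‖t‖ ^ 2 / (1 + ‖t‖ ^ 2)

theorem cell1_iff (H : IsF 1 N π) {u w : ℂ × ℂ} (hu : u ≠ 0) (hw : w ≠ 0) :
    (∃ z, k1 (c2 z) * ‖c1 z‖ ^ 2 < 1 ∧ π ((c1 z, 1), (c2 z, 1)) = π (u, w)) ↔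
      u.2 ≠ 0 ∧ w.2 ≠ 0 ∧
        ‖u.1‖ ^ 2 * ‖w.1‖ ^ 2 < ‖u.2‖ ^ 2 * ‖w.1‖ ^ 2 + ‖w.2‖ ^ 2 := by
  obtain ⟨u0, u1⟩ := u
  obtain ⟨w0, w1⟩ := w
  have hk : ∀ s t : ℂ, k1 t * ‖s‖ ^ 2 < 1 ↔ ‖s‖ ^ 2 * ‖t‖ ^ 2 < ‖t‖ ^ 2 + 1 := by
    intro s t
    rw [k1, div_mul_eq_mul_div, div_lt_one (one_add_pos _)]
    constructor <;> intro h <;> linarith
  constructor
  · rintro ⟨z, hz, hzv⟩
    rw [hk] at hz
    obtain ⟨a, b, h1, h2⟩ := (H.fibre _ _ _ _ (nr _) (nr _) hu hw).1 hzv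
    simp only [mul_one, pow_one, Prod.mk.injEq] at h1 h2
    obtain ⟨h3, h4⟩ := h1
    obtain ⟨h5, h6⟩ := h2
    have ha0 : a ≠ 0 := by
      rintro rfl
      exact hu (by rw [h3, h4, zero_mul]; rfl)
    have hb0 : b ≠ 0 := by
      rintro rfl
      exact hw (by rw [h5, h6, zero_mul, zero_mul]; rfl)
    simp only [h3, h4, h5, h6, norm_mul, mul_pow]
    refine ⟨ha0, mul_ne_zero hb0 ha0, ?_⟩
    have : 0 < ‖a‖ ^ 2 * ‖b‖ ^ 2 := by positivity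
    nlinarith
  · rintro ⟨h1, h2, h3⟩
    simp only at h1 h2 h3
    have hn : 0 < ‖u1‖ ^ 2 := by positivity
    have hn' : 0 < ‖w1‖ ^ 2 := by positivity
    refine ⟨pt (u0 / u1) (w0 * u1 / w1), ?_, ?_⟩
    · rw [hk, c1_pt, c2_pt, norm_div, norm_div, norm_mul, div_pow, div_pow, mul_pow]
      have e1 : ‖u0‖ ^ 2 / ‖u1‖ ^ 2 * (‖w0‖ ^ 2 * ‖u1‖ ^ 2 / ‖w1‖ ^ 2) =
          (‖u0‖ ^ 2 * ‖w0‖ ^ 2) / ‖w1‖ ^ 2 := by
        field_simp
      have e2 : ‖w0‖ ^ 2 * ‖u1‖ ^ 2 / ‖w1‖ ^ 2 + 1 =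
          (‖u1‖ ^ 2 * ‖w0‖ ^ 2 + ‖w1‖ ^ 2) / ‖w1‖ ^ 2 := by
        field_simp
      rw [e1, e2, div_lt_div_iff_of_pos_right hn']
      exact h3
    · rw [c1_pt, c2_pt]
      refine (H.fibre _ _ _ _ (nr _) (nr _) hu hw).2 ⟨u1, w1 / u1, ?_, ?_⟩
      · simp only [mul_one]
        rw [mul_div_cancel₀ _ h1]
      · simp only [mul_one, pow_one]
        refine Prod.ext ?_ ?_
        · show w0 = w1 / u1 * (w0 * u1 / w1)
          field_simp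
        · show w1 = w1 / u1 * u1
          field_simp

/-- the radius functions -/
def g1 (i : Fin 2) (τ : ℝ) : ℝ := if i = 0 then √(1 + τ) else 1 / √(1 - τ)

theorem g10 : g1 0 = fun τ => √(1 + τ) := funext fun _ => if_pos rfl

theorem g11 : g1 1 = fun τ => 1 / √(1 - τ) := funext fun _ => if_neg (by decide)

theorem pre1 (H : IsF 1 N π) : Pre N 2 (fun z => π ((1, c1 z), (1, c2 z)))
    (hc π) g1 (fun z => π ((c1 z, 1), (c2 z, 1))) k1 where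
  b_inj := H.inj00
  b_ld := H.chart00
  C_inj := H.hc_inj
  C_ld := H.hc_ld
  D_inj := H.inj11
  D_ld := H.chart11
  good := fun i => by
    fin_cases i
    · show Good (g1 0)
      rw [g10]
      exact good_add
    · show Good (g1 1)
      rw [g11]
      exact good_sub
  kap := nsq_contDiff.div (contDiff_const.add nsq_contDiff) fun t => (one_add_pos _).ne'
  att := fun i z hz => by
    have hz' : 0 < 1 - ‖c2 z‖ ^ 2 := by linarith
    fin_cases i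
    · show hc π 0 z ∈ _ ↔ g1 0 _ ≤ _
      rw [hc0, g10, H.ball1_iff (nr _) (nl _), Real.sqrt_le_left (norm_nonneg _)]
      simp only [norm_one, one_pow, mul_one]
    · show hc π 1 z ∈ _ ↔ g1 1 _ ≤ _
      rw [hc1, g11, H.ball1_iff (nl _) (nr _)]
      simp only [norm_one, one_pow, one_mul]
      have h1 : 1 / √(1 - ‖c2 z‖ ^ 2) = √(1 / (1 - ‖c2 z‖ ^ 2)) := by
        rw [Real.sqrt_div zero_le_one, Real.sqrt_one]
      rw [h1, Real.sqrt_le_left (norm_nonneg _), div_le_iff₀ hz']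
      constructor <;> intro h <;> linarith
  dis := fun i j z w hij h1 h2 h3 h4 => H.hc_dis (γ := g1)
    (fun i τ h0 h1 => by
      have h2 : 0 < 1 - τ := by linarith
      fin_cases i
      · show 2 * g1 0 τ ^ 2 < 4
        rw [g10, Real.sq_sqrt (by linarith)]
        linarith
      · show 2 * g1 1 τ ^ 2 < 4
        rw [g11, div_pow, one_pow, Real.sq_sqrt h2.le, ← mul_div_assoc, div_lt_iff₀ h2]
        linarith) i j z w hij h1 h2 h3 h4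
  cov := fun y => by
    obtain ⟨u, w, hu, hw, rfl⟩ := H.surj y
    rw [H.cell1_iff hu hw, H.ball1_iff hu hw, H.core_all hu hw]
    obtain ⟨u0, u1⟩ := u
    obtain ⟨w0, w1⟩ := w
    simp only [pow_one]
    constructor
    · rintro ⟨h1, h2, h3⟩
      exact ⟨not_le.2 h3, fun h => h2 h.1, fun h => h1 h.1⟩
    · rintro ⟨h1, h2, h3⟩
      push Not at h1
      refine ⟨?_, ?_, h1⟩
      · rintro rfl
        apply h3
        refine ⟨rfl, ?_⟩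
        rw [norm_zero] at h1
        have a1 : (‖u0‖ * ‖w0‖) ^ 2 < ‖w1‖ ^ 2 := by
          rw [mul_pow]
          linarith
        exact (pow_lt_pow_iff_left₀ (by positivity) (norm_nonneg _) two_ne_zero).1 a1 |>.le
      · rintro rfl
        apply h2
        refine ⟨rfl, ?_⟩
        rw [norm_zero] at h1
        have hw0 : w0 ≠ 0 := fun h => hw (by rw [h]; rfl)
        have a0 : 0 < ‖w0‖ ^ 2 := by positivity
        have a1 : ‖u0‖ ^ 2 < ‖u1‖ ^ 2 := by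
          by_contra hcon
          push Not at hcon
          nlinarith
        exact (pow_lt_pow_iff_left₀ (norm_nonneg _) (norm_nonneg _) two_ne_zero).1 a1 |>.le

end IsF

end Pool.Agent.L7h32.KS
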