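import Pool.Agent.L7h32.KS.AsmT
import Pool.Agent.N550.SH.Moeb

/-!
# Project KS: explicit handle decompositions, auxiliary maps of `ℂ²`
-/

set_option autoImplicit false

open Set Filter Topology Metric Function
open scoped Manifold ContDiff

noncomputable section

namespace Pool.Agent.L7h32.KS

open Pool.Agent.Y522 Pool.Agent.N550.KH Pool.Agent.N550.SH.Moeb

/-- the first complex coordinate of a point of `ℝ⁴` -/
def c1 (z : E 4) : ℂ := ((z 0 : ℝ) : ℂ) + ((z 1 : ℝ) : ℂ) * Complex.I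

/-- the second complex coordinate -/
def c2 (z : E 4) : ℂ := ((z 2 : ℝ) : ℂ) + ((z 3 : ℝ) : ℂ) * Complex.I

/-- the point with complex coordinates `a`, `b` -/
def pt (a b : ℂ) : E 4 := WithLp.toLp 2 ![a.re, a.im, b.re, b.im]

@[simp] theorem c1_pt (a b : ℂ) : c1 (pt a b) = a := by
  show ((a.re : ℝ) : ℂ) + ((a.im : ℝ) : ℂ) * Complex.I = a
  exact Complex.re_add_im a

@[simp] theorem c2_pt (a b : ℂ) : c2 (pt a b) = b := by
  show ((b.re : ℝ) : ℂ) + ((b.im : ℝ) : ℂ) * Complex.I = b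
  exact Complex.re_add_im b

theorem c1_re (z : E 4) : (c1 z).re = z 0 := by simp [c1]
theorem c1_im (z : E 4) : (c1 z).im = z 1 := by simp [c1]
theorem c2_re (z : E 4) : (c2 z).re = z 2 := by simp [c2]
theorem c2_im (z : E 4) : (c2 z).im = z 3 := by simp [c2]

@[simp] theorem pt_c (z : E 4) : pt (c1 z) (c2 z) = z := by
  refine PiLp.ext fun i => ?_
  fin_cases i
  · exact c1_re z
  · exact c1_im z
  · exact c2_re z
  · exact c2_im z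

theorem ext_c {z w : E 4} (h1 : c1 z = c1 w) (h2 : c2 z = c2 w) : z = w := by
  rw [← pt_c z, ← pt_c w, h1, h2]

theorem norm_c1_sq (z : E 4) : ‖c1 z‖ ^ 2 = z 0 ^ 2 + z 1 ^ 2 := by
  rw [← Complex.normSq_eq_norm_sq, Complex.normSq_apply, c1_re, c1_im]
  ring

theorem norm_c2_sq (z : E 4) : ‖c2 z‖ ^ 2 = z 2 ^ 2 + z 3 ^ 2 := by
  rw [← Complex.normSq_eq_norm_sq, Complex.normSq_apply, c2_re, c2_im]
  ring

theorem norm_sq_c (z : E 4) : ‖z‖ ^ 2 = ‖c1 z‖ ^ 2 + ‖c2 z‖ ^ 2 := by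
  rw [norm_c1_sq, norm_c2_sq, EuclideanSpace.norm_sq_eq, Fin.sum_univ_four]
  simp only [Real.norm_eq_abs, sq_abs]
  ring

theorem norm_up_c (z : E (2 + 2)) : ‖up 2 2 z‖ = ‖c1 z‖ := by
  rw [← sq_eq_sq₀ (norm_nonneg _) (norm_nonneg _), norm_c1_sq, EuclideanSpace.norm_sq_eq,
    Fin.sum_univ_two]
  have e0 : up 2 2 z 0 = z 0 := rfl
  have e1 : up 2 2 z 1 = z 1 := rfl
  rw [e0, e1]
  simp only [Real.norm_eq_abs, sq_abs]

theorem norm_vp_c (z : E (2 + 2)) : ‖vp 2 2 z‖ = ‖c2 z‖ := by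
  rw [← sq_eq_sq₀ (norm_nonneg _) (norm_nonneg _), norm_c2_sq, EuclideanSpace.norm_sq_eq,
    Fin.sum_univ_two]
  have e0 : vp 2 2 z 0 = z 2 := rfl
  have e1 : vp 2 2 z 1 = z 3 := rfl
  rw [e0, e1]
  simp only [Real.norm_eq_abs, sq_abs]

theorem vp_zero_iff (z : E (2 + 2)) : vp 2 2 z = 0 ↔ c2 z = 0 := by
  rw [← norm_eq_zero, norm_vp_c, norm_eq_zero]

theorem c1_contDiff : ContDiff ℝ ∞ c1 := by
  unfold c1
  have h0 : ContDiff ℝ ∞ fun z : E 4 => z 0 := by fun_prop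
  have h1 : ContDiff ℝ ∞ fun z : E 4 => z 1 := by fun_prop
  exact (Complex.ofRealCLM.contDiff.comp h0).add
    ((Complex.ofRealCLM.contDiff.comp h1).mul contDiff_const)

theorem c2_contDiff : ContDiff ℝ ∞ c2 := by
  unfold c2
  have h0 : ContDiff ℝ ∞ fun z : E 4 => z 2 := by fun_prop
  have h1 : ContDiff ℝ ∞ fun z : E 4 => z 3 := by fun_prop
  exact (Complex.ofRealCLM.contDiff.comp h0).add
    ((Complex.ofRealCLM.contDiff.comp h1).mul contDiff_const)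

theorem pt_contDiffAt {f g : E 4 → ℂ} {x : E 4} (hf : ContDiffAt ℝ ∞ f x)
    (hg : ContDiffAt ℝ ∞ g x) : ContDiffAt ℝ ∞ (fun z => pt (f z) (g z)) x := by
  rw [contDiffAt_euclidean]
  intro i
  fin_cases i
  · exact Complex.reCLM.contDiff.contDiffAt.comp x hf
  · exact Complex.imCLM.contDiff.contDiffAt.comp x hf
  · exact Complex.reCLM.contDiff.contDiffAt.comp x hg
  · exact Complex.imCLM.contDiff.contDiffAt.comp x hg

theorem nsq_contDiff : ContDiff ℝ ∞ fun z : ℂ => ‖z‖ ^ 2 := by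
  have h : (fun z : ℂ => ‖z‖ ^ 2) = fun z : ℂ => z.re ^ 2 + z.im ^ 2 := by
    funext z
    rw [← Complex.normSq_eq_norm_sq, Complex.normSq_apply]
    ring
  rw [h]
  exact (Complex.reCLM.contDiff.pow 2).add (Complex.imCLM.contDiff.pow 2)

theorem n1_contDiff : ContDiff ℝ ∞ fun z : E 4 => ‖c1 z‖ ^ 2 := nsq_contDiff.comp c1_contDiff

theorem n2_contDiff : ContDiff ℝ ∞ fun z : E 4 => ‖c2 z‖ ^ 2 := nsq_contDiff.comp c2_contDiff

/-! ### The handle map -/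

/-- the good radius functions -/
structure Good (γ : ℝ → ℝ) : Prop where
  smooth : ∀ τ, |τ| < 1 → ContDiffAt ℝ ∞ γ τ
  pos : ∀ τ, 0 ≤ τ → τ < 1 → 0 < γ τ
  zero : γ 0 = 1

/-- squeezing the plane to the disc of radius `1 / 2` -/
def eta (v : ℂ) : ℂ := (1 / (2 * √(1 + ‖v‖ ^ 2)) : ℝ) • v

/-- squeezing the plane to the disc of radius `√2`, the unit circle is fixed -/
def zeta (u : ℂ) : ℂ := (√2 / √(1 + ‖u‖ ^ 2) : ℝ) • u

theorem one_add_pos (r : ℝ) : 0 < 1 + r ^ 2 := by positivity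

theorem norm_eta_sq (v : ℂ) : ‖eta v‖ ^ 2 = ‖v‖ ^ 2 / (4 * (1 + ‖v‖ ^ 2)) := by
  rw [eta, norm_smul, mul_pow, Real.norm_eq_abs, sq_abs, div_pow, one_pow, mul_pow,
    Real.sq_sqrt (one_add_pos _).le]
  ring

theorem norm_zeta_sq (u : ℂ) : ‖zeta u‖ ^ 2 = 2 * ‖u‖ ^ 2 / (1 + ‖u‖ ^ 2) := by
  rw [zeta, norm_smul, mul_pow, Real.norm_eq_abs, sq_abs, div_pow,
    Real.sq_sqrt (one_add_pos _).le, Real.sq_sqrt (by norm_num)]
  ring

theorem eta_lt (v : ℂ) : ‖eta v‖ ^ 2 < 1 / 4 := by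
  rw [norm_eta_sq, div_lt_div_iff₀ (by positivity) (by norm_num)]
  nlinarith [sq_nonneg ‖v‖]

theorem eta_lt_half (v : ℂ) : ‖eta v‖ < 1 / 2 := by
  have h := eta_lt v
  have h2 := norm_nonneg (eta v)
  nlinarith

theorem zeta_lt (u : ℂ) : ‖zeta u‖ ^ 2 < 2 := by
  rw [norm_zeta_sq, div_lt_iff₀ (one_add_pos _)]
  nlinarith [sq_nonneg ‖u‖]

theorem one_le_zeta (u : ℂ) : 1 ≤ ‖zeta u‖ ↔ 1 ≤ ‖u‖ := by
  rw [← one_le_sq_iff₀ (norm_nonneg _), norm_zeta_sq, le_div_iff₀ (one_add_pos _),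
    ← one_le_sq_iff₀ (norm_nonneg u)]
  constructor <;> intro h <;> linarith

/-- the inverse of `eta` -/
def etaInv (v : ℂ) : ℂ := (2 / √(1 - 4 * ‖v‖ ^ 2) : ℝ) • v

/-- the inverse of `zeta` -/
def zetaInv (u : ℂ) : ℂ := (1 / √(2 - ‖u‖ ^ 2) : ℝ) • u

theorem etaInv_eta (v : ℂ) : etaInv (eta v) = v := by
  have h1 : 1 - 4 * ‖eta v‖ ^ 2 = (1 + ‖v‖ ^ 2)⁻¹ := by
    rw [norm_eta_sq]
    have := (one_add_pos ‖v‖).ne'
    field_simp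
    ring
  rw [etaInv, h1, eta, smul_smul, Real.sqrt_inv]
  have h2 : √(1 + ‖v‖ ^ 2) ≠ 0 := (Real.sqrt_pos.2 (one_add_pos _)).ne'
  have h3 : 2 / (√(1 + ‖v‖ ^ 2))⁻¹ * (1 / (2 * √(1 + ‖v‖ ^ 2))) = 1 := by
    field_simp
  rw [h3, one_smul]

theorem zetaInv_zeta (u : ℂ) : zetaInv (zeta u) = u := by
  have h1 : 2 - ‖zeta u‖ ^ 2 = 2 / (1 + ‖u‖ ^ 2) := by
    rw [norm_zeta_sq]
    have := (one_add_pos ‖u‖).ne'
    field_simp
    ring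
  rw [zetaInv, h1, zeta, smul_smul, Real.sqrt_div (by norm_num)]
  have h2 : √(1 + ‖u‖ ^ 2) ≠ 0 := (Real.sqrt_pos.2 (one_add_pos _)).ne'
  have h4 : √2 ≠ 0 := (Real.sqrt_pos.2 (by norm_num)).ne'
  have h3 : 1 / (√2 / √(1 + ‖u‖ ^ 2)) * (√2 / √(1 + ‖u‖ ^ 2)) = 1 := by
    field_simp
  rw [h3, one_smul]

theorem zeta_zetaInv {u : ℂ} (hu : ‖u‖ ^ 2 < 2) : zeta (zetaInv u) = u := by
  have h0 : 0 < 2 - ‖u‖ ^ 2 := by linarith
  have h1 : 1 + ‖zetaInv u‖ ^ 2 = 2 / (2 - ‖u‖ ^ 2) := by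
    rw [zetaInv, norm_smul, mul_pow, Real.norm_eq_abs, sq_abs, div_pow, one_pow,
      Real.sq_sqrt h0.le]
    field_simp
    ring
  rw [zeta, h1, zetaInv, smul_smul, Real.sqrt_div (by norm_num)]
  have h2 : √(2 - ‖u‖ ^ 2) ≠ 0 := (Real.sqrt_pos.2 h0).ne'
  have h4 : √2 ≠ 0 := (Real.sqrt_pos.2 (by norm_num)).ne'
  have h3 : √2 / (√2 / √(2 - ‖u‖ ^ 2)) * (1 / √(2 - ‖u‖ ^ 2)) = 1 := by
    field_simp
  rw [h3, one_smul]

theorem eta_contDiff : ContDiff ℝ ∞ eta := by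
  unfold eta
  have h1 : ContDiff ℝ ∞ fun v : ℂ => √(1 + ‖v‖ ^ 2) :=
    (contDiff_const.add nsq_contDiff).sqrt fun v => (one_add_pos _).ne'
  have h2 : ContDiff ℝ ∞ fun v : ℂ => 1 / (2 * √(1 + ‖v‖ ^ 2)) :=
    contDiff_const.div (contDiff_const.mul h1) fun v => by
      have := Real.sqrt_pos.2 (one_add_pos ‖v‖)
      positivity
  exact h2.smul contDiff_id

theorem zeta_contDiff : ContDiff ℝ ∞ zeta := by
  unfold zeta
  have h1 : ContDiff ℝ ∞ fun v : ℂ => √(1 + ‖v‖ ^ 2) :=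
    (contDiff_const.add nsq_contDiff).sqrt fun v => (one_add_pos _).ne'
  have h2 : ContDiff ℝ ∞ fun v : ℂ => √2 / √(1 + ‖v‖ ^ 2) :=
    contDiff_const.div h1 fun v => (Real.sqrt_pos.2 (one_add_pos _)).ne'
  exact h2.smul contDiff_id

theorem etaInv_contDiffAt {v : ℂ} (hv : ‖v‖ ^ 2 < 1 / 4) : ContDiffAt ℝ ∞ etaInv v := by
  unfold etaInv
  have h0 : 0 < 1 - 4 * ‖v‖ ^ 2 := by linarith
  have h1 : ContDiffAt ℝ ∞ (fun v : ℂ => √(1 - 4 * ‖v‖ ^ 2)) v :=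
    (contDiffAt_const.sub (contDiffAt_const.mul nsq_contDiff.contDiffAt)).sqrt h0.ne'
  exact (contDiffAt_const.div h1 (Real.sqrt_pos.2 h0).ne').smul contDiffAt_id

theorem zetaInv_contDiffAt {u : ℂ} (hu : ‖u‖ ^ 2 < 2) : ContDiffAt ℝ ∞ zetaInv u := by
  unfold zetaInv
  have h0 : 0 < 2 - ‖u‖ ^ 2 := by linarith
  have h1 : ContDiffAt ℝ ∞ (fun v : ℂ => √(2 - ‖v‖ ^ 2)) u :=
    (contDiffAt_const.sub nsq_contDiff.contDiffAt).sqrt h0.ne'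
  exact (contDiffAt_const.div h1 (Real.sqrt_pos.2 h0).ne').smul contDiffAt_id

/-- the handle map -/
def hm (γ : ℝ → ℝ) (z : E 4) : E 4 :=
  pt ((γ (‖eta (c2 z)‖ ^ 2) : ℝ) • zeta (c1 z)) (eta (c2 z))

theorem c1_hm (γ : ℝ → ℝ) (z : E 4) : c1 (hm γ z) = (γ (‖eta (c2 z)‖ ^ 2) : ℝ) • zeta (c1 z) :=
  c1_pt _ _

theorem c2_hm (γ : ℝ → ℝ) (z : E 4) : c2 (hm γ z) = eta (c2 z) := c2_pt _ _

/-- its inverse -/
def hmInv (γ : ℝ → ℝ) (w : E 4) : E 4 :=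
  pt (zetaInv (((γ (‖c2 w‖ ^ 2))⁻¹ : ℝ) • c1 w)) (etaInv (c2 w))

theorem gam_pos {γ : ℝ → ℝ} (hγ : Good γ) (v : ℂ) : 0 < γ (‖eta v‖ ^ 2) :=
  hγ.pos _ (sq_nonneg _) ((eta_lt v).trans (by norm_num))

theorem hmInv_hm {γ : ℝ → ℝ} (hγ : Good γ) (z : E 4) : hmInv γ (hm γ z) = z := by
  rw [hmInv, c1_hm, c2_hm, smul_smul, inv_mul_cancel₀ (gam_pos hγ _).ne', one_smul, zetaInv_zeta,
    etaInv_eta, pt_c]

theorem hm_inj {γ : ℝ → ℝ} (hγ : Good γ) : Injective (hm γ) := fun x y h => by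
  rw [← hmInv_hm hγ x, h, hmInv_hm hγ y]

theorem hm_ld {γ : ℝ → ℝ} (hγ : Good γ) (z : E 4) : LD 4 (hm γ) z := by
  refine LD_of_left (g := hmInv γ) (Eventually.of_forall fun y => ?_) ?_
    (Eventually.of_forall fun y => hmInv_hm hγ y)
  · have h1 : ContDiffAt ℝ ∞ (fun z : E 4 => eta (c2 z)) y :=
      (eta_contDiff.comp c2_contDiff).contDiffAt
    have h2 : ContDiffAt ℝ ∞ (fun z : E 4 => zeta (c1 z)) y :=
      (zeta_contDiff.comp c1_contDiff).contDiffAt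
    have h3 : ContDiffAt ℝ ∞ (fun z : E 4 => ‖eta (c2 z)‖ ^ 2) y :=
      (nsq_contDiff.comp (eta_contDiff.comp c2_contDiff)).contDiffAt
    have h4 : ContDiffAt ℝ ∞ (fun z : E 4 => γ (‖eta (c2 z)‖ ^ 2)) y := by
      refine ContDiffAt.comp (g := γ) (f := fun z : E 4 => ‖eta (c2 z)‖ ^ 2) y ?_ h3
      refine hγ.smooth _ ?_
      rw [abs_of_nonneg (sq_nonneg _)]
      exact (eta_lt _).trans (by norm_num)
    exact pt_contDiffAt (h4.smul h2) h1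
  · have h0 : ‖c2 (hm γ z)‖ ^ 2 < 1 / 4 := by
      rw [c2_hm]
      exact eta_lt _
    have h1 : ContDiffAt ℝ ∞ (fun w : E 4 => γ (‖c2 w‖ ^ 2)) (hm γ z) := by
      refine ContDiffAt.comp (g := γ) (f := fun w : E 4 => ‖c2 w‖ ^ 2) _ ?_
        n2_contDiff.contDiffAt
      refine hγ.smooth _ ?_
      rw [abs_of_nonneg (sq_nonneg _)]
      exact h0.trans (by norm_num)
    have h2 : γ (‖c2 (hm γ z)‖ ^ 2) ≠ 0 := by
      rw [c2_hm]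
      exact (gam_pos hγ _).ne'
    have h3 : ContDiffAt ℝ ∞ (fun w : E 4 => ((γ (‖c2 w‖ ^ 2))⁻¹ : ℝ) • c1 w) (hm γ z) :=
      (h1.inv h2).smul c1_contDiff.contDiffAt
    have h4 : ((γ (‖c2 (hm γ z)‖ ^ 2))⁻¹ : ℝ) • c1 (hm γ z) = zeta (c1 z) := by
      rw [c2_hm, c1_hm, smul_smul, inv_mul_cancel₀ (gam_pos hγ _).ne', one_smul]
    have h5 : ContDiffAt ℝ ∞ (fun w : E 4 => zetaInv (((γ (‖c2 w‖ ^ 2))⁻¹ : ℝ) • c1 w)) (hm γ z) := by
      refine ContDiffAt.comp (g := zetaInv)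
        (f := fun w : E 4 => ((γ (‖c2 w‖ ^ 2))⁻¹ : ℝ) • c1 w) _ ?_ h3
      rw [h4]
      exact zetaInv_contDiffAt (zeta_lt _)
    have h6 : ContDiffAt ℝ ∞ (fun w : E 4 => etaInv (c2 w)) (hm γ z) :=
      ContDiffAt.comp (g := etaInv) (f := c2) _ (etaInv_contDiffAt h0) c2_contDiff.contDiffAt
    exact (pt_contDiffAt h5 h6).differentiableAt (by simp)

/-! ### The cell map -/

/-- the denominator -/
def den (k x : ℝ) : ℝ := (1 + k * x) + √((1 + k * x) ^ 2 + 4 * x)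

theorem den_pos {k x : ℝ} (hx : 0 ≤ x) : 0 < den k x := by
  unfold den
  rcases hx.eq_or_lt with h | h
  · rw [← h]
    norm_num
  · have h1 : |1 + k * x| < √((1 + k * x) ^ 2 + 4 * x) := by
      rw [← Real.sqrt_sq_eq_abs]
      exact Real.sqrt_lt_sqrt (sq_nonneg _) (by linarith)
    have h2 := neg_abs_le (1 + k * x)
    linarith

theorem rad_pos {k x : ℝ} (hx : 0 ≤ x) : 0 < (1 + k * x) ^ 2 + 4 * x := by
  rcases hx.eq_or_lt with h | h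
  · rw [← h]
    norm_num
  · have := sq_nonneg (1 + k * x)
    linarith

theorem den_eq {k x : ℝ} (hx : 0 ≤ x) : den k x ^ 2 = 2 * (1 + k * x) * den k x + 4 * x := by
  have h := Real.sq_sqrt (rad_pos (k := k) hx).le
  unfold den
  nlinarith

/-- the map -/
def cm (κ : ℂ → ℝ) (z : E 4) : E 4 :=
  pt (√(2 / den (κ (c2 z)) (‖c1 z‖ ^ 2)) • c1 z) (c2 z)

/-- its inverse -/
def cmInv (κ : ℂ → ℝ) (w : E 4) : E 4 :=
  pt (√((1 + ‖c1 w‖ ^ 2) / (1 - κ (c2 w) * ‖c1 w‖ ^ 2)) • c1 w) (c2 w)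

theorem c1_cm (κ : ℂ → ℝ) (z : E 4) :
    c1 (cm κ z) = √(2 / den (κ (c2 z)) (‖c1 z‖ ^ 2)) • c1 z := c1_pt _ _

theorem c2_cm (κ : ℂ → ℝ) (z : E 4) : c2 (cm κ z) = c2 z := c2_pt _ _

theorem n1_cm (κ : ℂ → ℝ) (z : E 4) :
    ‖c1 (cm κ z)‖ ^ 2 = 2 * ‖c1 z‖ ^ 2 / den (κ (c2 z)) (‖c1 z‖ ^ 2) := by
  have h := den_pos (k := κ (c2 z)) (sq_nonneg ‖c1 z‖)
  rw [c1_cm, norm_smul, mul_pow, Real.norm_eq_abs, sq_abs, Real.sq_sqrt (by positivity)]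
  ring

theorem cm_lt (κ : ℂ → ℝ) (z : E 4) : κ (c2 (cm κ z)) * ‖c1 (cm κ z)‖ ^ 2 < 1 := by
  have hx := sq_nonneg ‖c1 z‖
  have h := den_pos (k := κ (c2 z)) hx
  have h2 := den_eq (k := κ (c2 z)) hx
  rw [c2_cm, n1_cm, ← mul_div_assoc, div_lt_one h]
  by_contra hcon
  push Not at hcon
  nlinarith

theorem cmInv_cm (κ : ℂ → ℝ) (z : E 4) : cmInv κ (cm κ z) = z := by
  have hx := sq_nonneg ‖c1 z‖
  have h := den_pos (k := κ (c2 z)) hx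
  have h2 := den_eq (k := κ (c2 z)) hx
  have h3 := cm_lt κ z
  rw [c2_cm, n1_cm] at h3
  have h5 : 0 < 1 - κ (c2 z) * (2 * ‖c1 z‖ ^ 2 / den (κ (c2 z)) (‖c1 z‖ ^ 2)) := by linarith
  have h4 : (1 + 2 * ‖c1 z‖ ^ 2 / den (κ (c2 z)) (‖c1 z‖ ^ 2)) /
      (1 - κ (c2 z) * (2 * ‖c1 z‖ ^ 2 / den (κ (c2 z)) (‖c1 z‖ ^ 2))) =
      den (κ (c2 z)) (‖c1 z‖ ^ 2) / 2 := by
    rw [div_eq_div_iff h5.ne' two_ne_zero]
    have h6 := h.ne'
    field_simp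
    nlinarith
  rw [cmInv, n1_cm, c2_cm, h4, c1_cm, smul_smul, ← Real.sqrt_mul (by positivity)]
  have h7 : den (κ (c2 z)) (‖c1 z‖ ^ 2) / 2 * (2 / den (κ (c2 z)) (‖c1 z‖ ^ 2)) = 1 := by
    have h6 := h.ne'
    field_simp
  rw [h7, Real.sqrt_one, one_smul, pt_c]

theorem cm_surj (κ : ℂ → ℝ) {w : E 4} (hw : κ (c2 w) * ‖c1 w‖ ^ 2 < 1) :
    cm κ (cmInv κ w) = w := by
  obtain ⟨x, hx⟩ : ∃ x, x = ‖c1 w‖ ^ 2 := ⟨_, rfl⟩
  obtain ⟨k, hk⟩ : ∃ k, k = κ (c2 w) := ⟨_, rfl⟩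
  have hx0 : 0 ≤ x := by rw [hx]; positivity
  rw [← hx, ← hk] at hw
  have h1 : 0 < 1 - k * x := by linarith
  have hc1 : c1 (cmInv κ w) = √((1 + x) / (1 - k * x)) • c1 w := by
    rw [cmInv, c1_pt, ← hx, ← hk]
  have hc2 : c2 (cmInv κ w) = c2 w := c2_pt _ _
  have hn : ‖c1 (cmInv κ w)‖ ^ 2 = (1 + x) / (1 - k * x) * x := by
    rw [hc1, norm_smul, mul_pow, Real.norm_eq_abs, sq_abs, Real.sq_sqrt (by positivity), hx]
  have hd : den k ((1 + x) / (1 - k * x) * x) = 2 * (1 + x) / (1 - k * x) := by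
    unfold den
    have e1 : 1 + k * ((1 + x) / (1 - k * x) * x) = (1 + k * x ^ 2) / (1 - k * x) := by
      field_simp
      ring
    have e2 : (1 + k * ((1 + x) / (1 - k * x) * x)) ^ 2 + 4 * ((1 + x) / (1 - k * x) * x) =
        ((1 + 2 * x - k * x ^ 2) / (1 - k * x)) ^ 2 := by
      rw [e1]
      field_simp
      ring
    have e3 : 0 ≤ (1 + 2 * x - k * x ^ 2) / (1 - k * x) := by
      refine div_nonneg ?_ h1.le
      nlinarith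
    rw [e2, Real.sqrt_sq e3, e1]
    field_simp
    ring
  rw [cm, hn, hc2, ← hk, hd, hc1, smul_smul, ← Real.sqrt_mul (by positivity)]
  have h7 : 2 / (2 * (1 + x) / (1 - k * x)) * ((1 + x) / (1 - k * x)) = 1 := by
    have h8 := h1.ne'
    have h9 : 1 + x ≠ 0 := by positivity
    rw [div_div_eq_mul_div, div_mul_div_comm, div_eq_one_iff_eq (by positivity)]
    ring
  rw [h7, Real.sqrt_one, one_smul, pt_c]

theorem cm_ld {κ : ℂ → ℝ} (hκ : ContDiff ℝ ∞ κ) (z : E 4) : LD 4 (cm κ) z := by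
  have hk : ContDiff ℝ ∞ fun z : E 4 => κ (c2 z) := hκ.comp c2_contDiff
  refine LD_of_left (g := cmInv κ) (Eventually.of_forall fun y => ?_) ?_
    (Eventually.of_forall fun y => cmInv_cm κ y)
  · have h1 : ContDiff ℝ ∞ fun z : E 4 => 1 + κ (c2 z) * ‖c1 z‖ ^ 2 :=
      contDiff_const.add (hk.mul n1_contDiff)
    have h2 : ContDiff ℝ ∞ fun z : E 4 =>
        √((1 + κ (c2 z) * ‖c1 z‖ ^ 2) ^ 2 + 4 * ‖c1 z‖ ^ 2) :=
      ((h1.pow 2).add (contDiff_const.mul n1_contDiff)).sqrt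
        fun z => (rad_pos (sq_nonneg _)).ne'
    have h3 : ContDiff ℝ ∞ fun z : E 4 => den (κ (c2 z)) (‖c1 z‖ ^ 2) := h1.add h2
    have h4 : ContDiff ℝ ∞ fun z : E 4 => √(2 / den (κ (c2 z)) (‖c1 z‖ ^ 2)) :=
      (contDiff_const.div h3 fun z => (den_pos (sq_nonneg _)).ne').sqrt fun z => by
        exact (div_pos two_pos (den_pos (k := κ (c2 z)) (sq_nonneg ‖c1 z‖))).ne'
    exact pt_contDiffAt (h4.smul c1_contDiff).contDiffAt c2_contDiff.contDiffAt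
  · have h0 : 0 < 1 - κ (c2 (cm κ z)) * ‖c1 (cm κ z)‖ ^ 2 := by
      linarith [cm_lt κ z]
    have h1 : ContDiffAt ℝ ∞ (fun w : E 4 => (1 + ‖c1 w‖ ^ 2) / (1 - κ (c2 w) * ‖c1 w‖ ^ 2))
        (cm κ z) :=
      (contDiff_const.add n1_contDiff).contDiffAt.div
        (contDiff_const.sub (hk.mul n1_contDiff)).contDiffAt h0.ne'
    have h2 : ContDiffAt ℝ ∞ (fun w : E 4 => √((1 + ‖c1 w‖ ^ 2) / (1 - κ (c2 w) * ‖c1 w‖ ^ 2)))
        (cm κ z) := h1.sqrt (by positivity)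
    exact (pt_contDiffAt (h2.smul c1_contDiff.contDiffAt) c2_contDiff.contDiffAt).differentiableAt
      (by simp)

end Pool.Agent.L7h32.KS
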