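import Pool.Agent.N550.KH.Null
import Pool.Agent.N550.KH.Two
import Pool.Agent.N550.KH.Zero

/-!
# Project KS: sets of two-dimensional Hausdorff measure zero
-/

set_option autoImplicit false

open Set Filter Topology Metric Function MeasureTheory
open scoped Manifold ContDiff NNReal

noncomputable section

namespace Pool.Agent.L7h32.KS

open Pool.Agent.Y522 Pool.Agent.N550.KH

/-- a subset with two-dimensional Hausdorff measure zero, in the preferred charts -/
def Null2C {N : Type} [TopologicalSpace N] [ChartedSpace (E 4) N] (B : Set N) : Prop :=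
  ∀ x₀ : N, Measure.hausdorffMeasure 2
    (chartAt (E 4) x₀ '' ((chartAt (E 4) x₀).source ∩ B) : Set (E 4)) = 0

/-- the same in all the open parametrizations by `E 4` -/
def Null2 {N : Type} [TopologicalSpace N] [ChartedSpace (E 4) N] (B : Set N) : Prop :=
  ∀ h : E 4 → N, Injective h → (∀ z, LD 4 h z) →
    Measure.hausdorffMeasure 2 (h ⁻¹' B : Set (E 4)) = 0

/-- images of null sets under maps of class `C¹` -/
theorem null_image {S : Set (E 4)} (hS : Measure.hausdorffMeasure 2 S = 0) (f : E 4 → E 4)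
    (hf : ∀ x ∈ S, ContDiffAt ℝ 1 f x) : Measure.hausdorffMeasure 2 (f '' S) = 0 := by
  have h : ∀ x ∈ S, ∃ V ∈ 𝓝 x, Measure.hausdorffMeasure 2 (f '' (S ∩ V)) = 0 := by
    intro x hx
    obtain ⟨K, t, ht, hK⟩ := (hf x hx).exists_lipschitzOnWith
    refine ⟨t, ht, ?_⟩
    have h1 := (hK.mono (inter_subset_right (s := S))).hausdorffMeasure_image_le
      (d := 2) (by norm_num)
    have h2 : Measure.hausdorffMeasure 2 (S ∩ t) = 0 := measure_mono_null inter_subset_left hS
    rw [h2, mul_zero] at h1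
    exact le_antisymm h1 bot_le
  choose! V hV hr using h
  obtain ⟨t, hts, htc, hcov⟩ := TopologicalSpace.countable_cover_nhdsWithin
    (s := S) (f := V) (fun x hx => mem_nhdsWithin_of_mem_nhds (hV x hx))
  have h1 : f '' S ⊆ ⋃ x ∈ t, f '' (S ∩ V x) := by
    rintro _ ⟨y, hy, rfl⟩
    obtain ⟨x, hx, hyx⟩ := mem_iUnion₂.1 (hcov hy)
    exact mem_iUnion₂.2 ⟨x, hx, y, ⟨hy, hyx⟩, rfl⟩
  refine measure_mono_null h1 ?_
  rw [measure_biUnion_null_iff htc]
  exact fun x hx => hr x (hts hx)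

theorem null2_of_chart {N : Type} [TopologicalSpace N] [ChartedSpace (E 4) N]
    [IsManifold (𝓡 4) ∞ N] {B : Set N} (hB : Null2C B) : Null2 B := by
  intro h hinj hld
  set g : N → E 4 := invFun h with hg
  have hgl : ∀ y, g (h y) = y := leftInverse_invFun hinj
  have key : ∀ z ∈ h ⁻¹' B, ∃ V ∈ 𝓝 z, Measure.hausdorffMeasure 2 (h ⁻¹' B ∩ V) = 0 := by
    intro z hz
    set e := chartAt (E 4) (h z) with he
    refine ⟨h ⁻¹' e.source, (hld z).continuousAt.preimage_mem_nhds
      (e.open_source.mem_nhds (mem_chart_source _ _)), ?_⟩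
    have hS : Measure.hausdorffMeasure 2 (e '' (e.source ∩ B ∩ range h) : Set (E 4)) = 0 :=
      measure_mono_null (image_mono inter_subset_left) (hB (h z))
    refine measure_mono_null ?_ (null_image hS (fun w => g (e.symm w)) ?_)
    · intro y hy
      refine ⟨e (h y), ⟨h y, ⟨⟨hy.2, hy.1⟩, y, rfl⟩, rfl⟩, ?_⟩
      change g (e.symm (e (h y))) = y
      rw [e.left_inv hy.2, hgl]
    · rintro _ ⟨_, ⟨⟨hs, -⟩, y, rfl⟩, rfl⟩
      have h1 : LD 4 e.symm (e (h y)) := Null.ld_chart_symm (h z) _ (e.map_source hs)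
      have h2 : LD 4 g (e.symm (e (h y))) := by
        rw [e.left_inv hs]
        exact LD.inverse isOpen_univ (fun x _ => hld x) (fun x _ => hgl x) (mem_univ y)
      exact (h2.comp_fun h1).contDiffAt.of_le (by simp)
  choose! V hV hr using key
  obtain ⟨t, hts, htc, hcov⟩ := TopologicalSpace.countable_cover_nhdsWithin
    (s := h ⁻¹' B) (f := V) (fun x hx => mem_nhdsWithin_of_mem_nhds (hV x hx))
  have h1 : h ⁻¹' B ⊆ ⋃ x ∈ t, (h ⁻¹' B ∩ V x) := by
    intro y hy
    obtain ⟨x, hx, hyx⟩ := mem_iUnion₂.1 (hcov hy)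
    exact mem_iUnion₂.2 ⟨x, hx, hy, hyx⟩
  refine measure_mono_null h1 ?_
  rw [measure_biUnion_null_iff htc]
  exact fun x hx => hr x (hts hx)

theorem Null2.mono {N : Type} [TopologicalSpace N] [ChartedSpace (E 4) N] {B B' : Set N}
    (h : Null2 B') (hB : B ⊆ B') : Null2 B := by
  intro h' hi hl
  exact measure_mono_null (preimage_mono hB) (h h' hi hl)

theorem Null2.image {N : Type} [TopologicalSpace N] [ChartedSpace (E 4) N] {B : Set N}
    (h : Null2 B) {κ : N → N} (hκ : IsDf 4 κ) : Null2 (κ '' B) := by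
  intro h' hi hl
  obtain ⟨hb, hκl⟩ := hκ
  let e := Equiv.ofBijective κ hb
  have he : ∀ x, e.symm (κ x) = x := fun x => e.symm_apply_apply x
  have he' : ∀ x, κ (e.symm x) = x := fun x => e.apply_symm_apply x
  have h1 := h (fun z => e.symm (h' z)) (e.symm.injective.comp hi) (fun z =>
    LD.comp_fun (LD.inverse_bij hb hκl he (h' z)) (hl z))
  have h2 : h' ⁻¹' (κ '' B) = (fun z => e.symm (h' z)) ⁻¹' B := by
    ext z
    constructor
    · rintro ⟨y, hy, hyz⟩
      show e.symm (h' z) ∈ B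
      rw [← hyz, he]
      exact hy
    · intro hz
      exact ⟨_, hz, he' _⟩
  rw [h2]
  exact h1

/-- null sets in the plane have no interior points -/
theorem exists_notMem_plane {P O : Set (E 2)} (hP : Measure.hausdorffMeasure 2 P = 0)
    (hO : IsOpen O) (hne : O.Nonempty) : ∃ y ∈ O, y ∉ P := by
  by_contra hcon
  push Not at hcon
  have hl : LipschitzWith 1 (fun z : E 2 => (WithLp.ofLp z : Fin 2 → ℝ)) :=
    PiLp.lipschitzWith_ofLp 2 _
  have h1 := hl.hausdorffMeasure_image_le (d := 2) (by norm_num) P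
  rw [hP, mul_zero] at h1
  have h2 : volume ((fun z : E 2 => (WithLp.ofLp z : Fin 2 → ℝ)) '' P) = 0 := by
    rw [← hausdorffMeasure_pi_real]
    rw [Fintype.card_fin]
    exact le_antisymm (by exact_mod_cast h1) bot_le
  have h3 : IsOpen ((fun z : E 2 => (WithLp.ofLp z : Fin 2 → ℝ)) '' O) := by
    have h4 : (fun z : E 2 => (WithLp.ofLp z : Fin 2 → ℝ)) '' O =
        (fun w : Fin 2 → ℝ => (WithLp.toLp 2 w : E 2)) ⁻¹' O := by
      ext w
      constructor
      · rintro ⟨z, hz, rfl⟩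
        exact hz
      · intro hw
        exact ⟨WithLp.toLp 2 w, hw, rfl⟩
    rw [h4]
    exact hO.preimage (PiLp.continuous_toLp 2 _)
  have h4 := h3.measure_pos volume (hne.image _)
  have h5 := measure_mono_null (image_mono hcon) h2
  rw [h5] at h4
  exact lt_irrefl _ h4

theorem norm_vp_le (z : E (2 + 2)) : ‖vp 2 2 z‖ ≤ ‖z‖ := by
  rw [EuclideanSpace.norm_eq, EuclideanSpace.norm_eq]
  refine Real.sqrt_le_sqrt ?_
  rw [Fin.sum_univ_two, Fin.sum_univ_four]
  have h1 : ∀ i : Fin 2, vp 2 2 z i = z (Fin.natAdd 2 i) := fun i => rfl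
  rw [h1, h1]
  have h2 : (Fin.natAdd 2 (0 : Fin 2) : Fin 4) = 2 := rfl
  have h3 : (Fin.natAdd 2 (1 : Fin 2) : Fin 4) = 3 := rfl
  show ‖z 2‖ ^ 2 + ‖z 3‖ ^ 2 ≤ _
  have a := sq_nonneg ‖z 0‖
  have b := sq_nonneg ‖z 1‖
  linarith

theorem norm_jn_zero (y : E 2) : ‖jn 2 2 0 y‖ = ‖y‖ := by
  rw [EuclideanSpace.norm_eq, EuclideanSpace.norm_eq]
  congr 1
  rw [Fin.sum_univ_two, Fin.sum_univ_four]
  have e0 : jn 2 2 0 y 0 = 0 := rfl
  have e1 : jn 2 2 0 y 1 = 0 := rfl
  have e2 : jn 2 2 0 y 2 = y 0 := rfl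
  have e3 : jn 2 2 0 y 3 = y 1 := rfl
  rw [e0, e1, e2, e3]
  simp

theorem vp_null {A : Set (E (2 + 2))} (hA : Measure.hausdorffMeasure 2 A = 0) :
    Measure.hausdorffMeasure 2 (vp 2 2 '' A) = 0 := by
  have hL : LipschitzWith 1 (fun z : E (2 + 2) => vp 2 2 z) := by
    refine LipschitzWith.of_dist_le_mul fun u v => ?_
    rw [NNReal.coe_one, one_mul, dist_eq_norm, dist_eq_norm, ← map_sub]
    exact norm_vp_le (u - v)
  have h2 := hL.hausdorffMeasure_image_le (d := 2) (by norm_num) A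
  rw [hA, mul_zero] at h2
  exact le_antisymm h2 bot_le

/-- the unit ball is not contained in a null set -/
theorem exists_notMem {A : Set (E 4)} (hA : Measure.hausdorffMeasure 2 A = 0) :
    ∃ z ∈ ball (0 : E 4) 1, z ∉ A := by
  obtain ⟨y, hy, hyA⟩ := exists_notMem_plane (vp_null (A := A) hA) (isOpen_ball (x := (0 : E 2)) (ε := 1))
    ⟨0, mem_ball_self one_pos⟩
  refine ⟨jn 2 2 0 y, ?_, fun h => hyA ⟨_, h, vp_jn 2 2 0 y⟩⟩
  rw [mem_ball_zero_iff]
  rw [mem_ball_zero_iff] at hy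
  rw [norm_jn_zero]
  exact hy

end Pool.Agent.L7h32.KS
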