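import Pool.Agent.L7h32.KS.Mod

/-!
# Project KS: handle decompositions from charts
-/

set_option autoImplicit false

open Set Filter Topology Metric Function
open scoped Manifold ContDiff

noncomputable section

namespace Pool.Agent.L7h32.KS

open Pool.Agent.Y522 Pool.Agent.N550.KH Pool.Agent.N550.SH.Moeb

/-- the data of a handle decomposition in terms of charts -/
structure Pre (N : Type) [TopologicalSpace N] [ChartedSpace (E 4) N] (d : ℕ) (b : E 4 → N)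
    (C : Fin d → E 4 → N) (γ : Fin d → ℝ → ℝ) (D : E 4 → N) (κ : ℂ → ℝ) : Prop where
  b_inj : Injective b
  b_ld : ∀ z, LD 4 b z
  C_inj : ∀ i, Injective (C i)
  C_ld : ∀ i z, LD 4 (C i) z
  D_inj : Injective D
  D_ld : ∀ z, LD 4 D z
  good : ∀ i, Good (γ i)
  kap : ContDiff ℝ ∞ κ
  att : ∀ i z, ‖c2 z‖ ^ 2 < 1 / 4 → (C i z ∈ b '' closedBall 0 1 ↔ γ i (‖c2 z‖ ^ 2) ≤ ‖c1 z‖)
  dis : ∀ i j z w, i ≠ j → ‖c2 z‖ ^ 2 < 1 / 4 → ‖c1 z‖ ^ 2 < 2 * γ i (‖c2 z‖ ^ 2) ^ 2 →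
    ‖c2 w‖ ^ 2 < 1 / 4 → ‖c1 w‖ ^ 2 < 2 * γ j (‖c2 w‖ ^ 2) ^ 2 → C i z ≠ C j w
  cov : ∀ y, (∃ z, κ (c2 z) * ‖c1 z‖ ^ 2 < 1 ∧ D z = y) ↔
    (y ∉ b '' closedBall 0 1 ∧ ∀ i z, c2 z = 0 → ‖c1 z‖ ≤ 1 → C i z ≠ y)

theorem norm_c1_hm {γ : ℝ → ℝ} (hγ : Good γ) (z : E 4) :
    ‖c1 (hm γ z)‖ = γ (‖eta (c2 z)‖ ^ 2) * ‖zeta (c1 z)‖ := by
  rw [c1_hm, norm_smul, Real.norm_of_nonneg (gam_pos hγ _).le]

theorem eta_zero : eta 0 = 0 := by rw [eta, smul_zero]

theorem hm_core {γ : ℝ → ℝ} (hγ : Good γ) {z : E 4} (hz : c2 z = 0) :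
    c2 (hm γ z) = 0 ∧ c1 (hm γ z) = zeta (c1 z) := by
  rw [c2_hm, c1_hm, hz, eta_zero, norm_zero]
  refine ⟨rfl, ?_⟩
  have : (0 : ℝ) ^ 2 = 0 := by norm_num
  rw [this, hγ.zero, one_smul]

theorem zeta_le_one {u : ℂ} (hu : ‖u‖ ≤ 1) : ‖zeta u‖ ≤ 1 := by
  rw [← sq_le_one_iff₀ (norm_nonneg _), norm_zeta_sq, div_le_one (one_add_pos _)]
  have : ‖u‖ ^ 2 ≤ 1 := (sq_le_one_iff₀ (norm_nonneg u)).2 hu
  linarith

theorem zetaInv_le_one {u : ℂ} (hu : ‖u‖ ≤ 1) : ‖zetaInv u‖ ≤ 1 := by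
  have h1 : ‖u‖ ^ 2 ≤ 1 := (sq_le_one_iff₀ (norm_nonneg u)).2 hu
  have h0 : 0 < 2 - ‖u‖ ^ 2 := by linarith
  rw [← sq_le_one_iff₀ (norm_nonneg _), zetaInv, norm_smul, mul_pow, Real.norm_eq_abs, sq_abs,
    div_pow, one_pow, Real.sq_sqrt h0.le, div_mul_eq_mul_div, one_mul, div_le_one h0]
  linarith

theorem Pre.hand {N : Type} [TopologicalSpace N] [ChartedSpace (E 4) N] {d : ℕ} {b : E 4 → N}
    {C : Fin d → E 4 → N} {γ : Fin d → ℝ → ℝ} {D : E 4 → N} {κ : ℂ → ℝ}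
    (H : Pre N d b C γ D κ) :
    Hand N d b (fun i z => C i (hm (γ i) z)) (fun z => D (cm κ z)) where
  b_inj := H.b_inj
  b_ld := H.b_ld
  h_inj := fun i => (H.C_inj i).comp (hm_inj (H.good i))
  h_ld := fun i z => LD.comp_fun (g := C i) (f := hm (γ i)) (H.C_ld i _) (hm_ld (H.good i) z)
  h_att := fun i z => by
    have h1 : ‖c2 (hm (γ i) z)‖ ^ 2 < 1 / 4 := by
      rw [c2_hm]
      exact eta_lt _
    have hg := gam_pos (H.good i) (c2 z)
    rw [H.att i _ h1, c2_hm, norm_c1_hm (H.good i), norm_up_c, ← one_le_zeta]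
    constructor
    · intro h
      by_contra hcon
      push Not at hcon
      nlinarith
    · intro h
      nlinarith
  h_dis := fun i j z w hij => by
    refine H.dis i j _ _ hij ?_ ?_ ?_ ?_
    · rw [c2_hm]
      exact eta_lt _
    · rw [norm_c1_hm (H.good i), c2_hm, mul_pow]
      have := zeta_lt (c1 z)
      have hg := gam_pos (H.good i) (c2 z)
      have hg2 : 0 < γ i (‖eta (c2 z)‖ ^ 2) ^ 2 := by positivity
      nlinarith
    · rw [c2_hm]
      exact eta_lt _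
    · rw [norm_c1_hm (H.good j), c2_hm, mul_pow]
      have := zeta_lt (c1 w)
      have hg := gam_pos (H.good j) (c2 w)
      have hg2 : 0 < γ j (‖eta (c2 w)‖ ^ 2) ^ 2 := by positivity
      nlinarith
  c_inj := H.D_inj.comp fun x y h => by rw [← cmInv_cm κ x, h, cmInv_cm κ y]
  c_ld := fun z => LD.comp_fun (g := D) (f := cm κ) (H.D_ld _) (cm_ld H.kap z)
  c_range := by
    ext y
    have h1 : y ∈ range (fun z => D (cm κ z)) ↔ ∃ z, κ (c2 z) * ‖c1 z‖ ^ 2 < 1 ∧ D z = y := by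
      constructor
      · rintro ⟨z, rfl⟩
        exact ⟨cm κ z, cm_lt κ z, rfl⟩
      · rintro ⟨z, hz, rfl⟩
        refine ⟨cmInv κ z, ?_⟩
        show D (cm κ (cmInv κ z)) = D z
        rw [cm_surj κ hz]
    rw [h1, H.cov y, mem_compl_iff, mem_union, mem_iUnion, not_or]
    refine and_congr_right fun _ => ?_
    constructor
    · rintro h ⟨i, z, ⟨hz1, hz2⟩, hzy⟩
      rw [vp_zero_iff] at hz1
      rw [norm_up_c] at hz2
      obtain ⟨e1, e2⟩ := hm_core (H.good i) hz1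
      refine h i (hm (γ i) z) e1 ?_ hzy
      rw [e2]
      exact zeta_le_one hz2
    · intro h i z hz1 hz2 hzy
      apply h
      have hz3 : ‖c1 z‖ ^ 2 ≤ 1 := (sq_le_one_iff₀ (norm_nonneg _)).2 hz2
      refine ⟨i, pt (zetaInv (c1 z)) 0, ⟨?_, ?_⟩, ?_⟩
      · rw [vp_zero_iff, c2_pt]
      · rw [norm_up_c, c1_pt]
        exact zetaInv_le_one hz2
      · show C i (hm (γ i) (pt (zetaInv (c1 z)) 0)) = y
        obtain ⟨e1, e2⟩ := hm_core (H.good i) (z := pt (zetaInv (c1 z)) 0) (c2_pt _ _)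
        have h2 : hm (γ i) (pt (zetaInv (c1 z)) 0) = z := by
          refine ext_c ?_ ?_
          · rw [e2, c1_pt, zeta_zetaInv (by linarith)]
          · rw [e1, hz1]
        rw [h2, hzy]

/-! ### The radius functions -/

theorem good_add : Good fun τ => √(1 + τ) where
  smooth := fun τ hτ => by
    have h := (abs_lt.1 hτ).1
    exact (contDiffAt_const.add contDiffAt_id).sqrt (by
      simp only [id]
      linarith)
  pos := fun τ h0 _ => Real.sqrt_pos.2 (by linarith)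
  zero := by norm_num

theorem good_sub : Good fun τ => 1 / √(1 - τ) where
  smooth := fun τ hτ => by
    have h := (abs_lt.1 hτ).2
    have h1 : 0 < 1 - τ := by linarith
    exact contDiffAt_const.div ((contDiffAt_const.sub contDiffAt_id).sqrt (by
      simp only [id]
      exact h1.ne')) (Real.sqrt_pos.2 h1).ne'
  pos := fun τ _ h1 => one_div_pos.2 (Real.sqrt_pos.2 (by linarith))
  zero := by norm_num

theorem good_div : Good fun τ => √((1 + τ) / (1 - τ)) where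
  smooth := fun τ hτ => by
    have h := (abs_lt.1 hτ).2
    have h' := (abs_lt.1 hτ).1
    have h1 : 0 < 1 - τ := by linarith
    have h2 : 0 < 1 + τ := by linarith
    refine ((contDiffAt_const.add contDiffAt_id).div (contDiffAt_const.sub contDiffAt_id) ?_).sqrt ?_
    · simp only [id]
      exact h1.ne'
    · simp only [id]
      exact (div_pos h2 h1).ne'
  pos := fun τ h0 h1 => Real.sqrt_pos.2 (div_pos (by linarith) (by linarith))
  zero := by norm_num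

end Pool.Agent.L7h32.KS
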